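import Pool.Agent.Lib_helper98.HK.C2

/-! LSP2, the cross term of the main part: sums over greatest common divisors. -/

namespace Pool.Agent.LSP

open Pool.Agent.LEV Pool.Agent.LVB Pool.Agent.KSL
open Pool.Agent.FG61 (mu phi cc ff AA Lam)
open Complex MeasureTheory Filter Topology UpperHalfPlane ModularGroup ProbabilityTheory
open scoped MatrixGroups Modular ENNReal ModularForm ComplexConjugate ContDiff

/-- the harmonic sum -/
noncomputable def HE (E : ℕ) : ℝ := ∑ k ∈ Finset.Icc 1 E, 1 / (k : ℝ)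

theorem HE_nonneg (E : ℕ) : 0 ≤ HE E := Finset.sum_nonneg fun k _ => by positivity

theorem HE_log {E : ℕ} (hE : 1 ≤ E) : HE E ≤ 1 + Real.log E := by
  have h := harmonic_le_one_add_log E
  have h2 : ((harmonic E : ℚ) : ℝ) = HE E := by
    rw [harmonic_eq_sum_Icc]
    push_cast
    unfold HE
    exact Finset.sum_congr rfl fun k _ => by rw [one_div]
  rwa [h2] at h

/-- the sum over the multiples -/
theorem HE_mult {E q : ℕ} (hq : 1 ≤ q) :
    ∑ d ∈ Finset.Icc 1 E, (if q ∣ d then 1 / (d : ℝ) else 0) ≤ 1 / q * HE E := by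
  rw [← Finset.sum_filter]
  unfold HE
  rw [Finset.mul_sum]
  have h1 : ∑ d ∈ (Finset.Icc 1 E).filter (fun d => q ∣ d), 1 / (d : ℝ) =
      ∑ k ∈ (Finset.Icc 1 E).filter (fun k => q * k ≤ E), 1 / (q : ℝ) * (1 / (k : ℝ)) := by
    symm
    refine Finset.sum_bij (fun k _ => q * k) ?_ ?_ ?_ ?_
    · intro k hk
      rw [Finset.mem_filter, Finset.mem_Icc] at hk ⊢
      exact ⟨⟨Nat.mul_pos hq hk.1.1, hk.2⟩, Dvd.intro _ rfl⟩
    · intro a _ b _ h
      exact Nat.eq_of_mul_eq_mul_left hq h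
    · intro d hd
      rw [Finset.mem_filter, Finset.mem_Icc] at hd
      obtain ⟨⟨h5, h6⟩, i, rfl⟩ := hd
      refine ⟨i, ?_, rfl⟩
      rw [Finset.mem_filter, Finset.mem_Icc]
      have hi : 1 ≤ i := Nat.one_le_iff_ne_zero.mpr (by rintro rfl; simp at h5)
      exact ⟨⟨hi, le_trans (Nat.le_mul_of_pos_left i hq) h6⟩, h6⟩
    · intro k _
      push_cast
      rw [one_div, one_div, one_div, mul_inv]
  rw [h1]
  exact Finset.sum_le_sum_of_subset_of_nonneg (Finset.filter_subset _ _)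
    (fun k _ _ => by positivity)

theorem tau_nonneg' (n : ℕ) : 0 ≤ tau n := by unfold tau; positivity

theorem gcd_sum {E m : ℕ} (hm : 1 ≤ m) :
    ∑ d ∈ Finset.Icc 1 E, (Nat.gcd d m : ℝ) / d ≤ tau m * HE E := by
  have h1 : ∀ d ∈ Finset.Icc 1 E, (Nat.gcd d m : ℝ) / d ≤
      ∑ q ∈ m.divisors, (q : ℝ) * (if q ∣ d then 1 / (d : ℝ) else 0) := by
    intro d hd
    rw [Finset.mem_Icc] at hd
    have h2 : (Nat.gcd d m : ℝ) ≤ ∑ q ∈ m.divisors, (if q ∣ d then (q : ℝ) else 0) := by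
      have h3 : Nat.gcd d m ∈ m.divisors := by
        rw [Nat.mem_divisors]
        exact ⟨Nat.gcd_dvd_right d m, by omega⟩
      have h4 := Finset.single_le_sum (f := fun q : ℕ => if q ∣ d then (q : ℝ) else 0)
        (fun q _ => by split_ifs <;> positivity) h3
      simpa [Nat.gcd_dvd_left] using h4
    have hd0 : (0 : ℝ) < d := by exact_mod_cast hd.1
    calc (Nat.gcd d m : ℝ) / d ≤ (∑ q ∈ m.divisors, (if q ∣ d then (q : ℝ) else 0)) / d := by
          gcongr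
      _ = _ := by
          rw [Finset.sum_div]
          apply Finset.sum_congr rfl
          intro q _
          split_ifs <;> ring
  refine (Finset.sum_le_sum h1).trans ?_
  rw [Finset.sum_comm]
  have h2 : ∀ q ∈ m.divisors, ∑ d ∈ Finset.Icc 1 E, (q : ℝ) * (if q ∣ d then 1 / (d : ℝ) else 0) ≤
      HE E := by
    intro q hq
    have hq1 : 1 ≤ q := Nat.pos_of_mem_divisors hq
    have hq0 : (0 : ℝ) < q := by exact_mod_cast hq1
    rw [← Finset.mul_sum]
    calc (q : ℝ) * ∑ d ∈ Finset.Icc 1 E, (if q ∣ d then 1 / (d : ℝ) else 0) ≤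
          q * (1 / q * HE E) := mul_le_mul_of_nonneg_left (HE_mult hq1) hq0.le
      _ = HE E := by field_simp
  refine (Finset.sum_le_sum h2).trans (le_of_eq ?_)
  rw [Finset.sum_const, nsmul_eq_mul]
  rfl

theorem tau_sum (E : ℕ) : ∑ e ∈ Finset.Icc 1 E, tau e / e ≤ HE E ^ 2 := by
  have h1 : ∀ e ∈ Finset.Icc 1 E, tau e / e =
      ∑ q ∈ Finset.Icc 1 E, (if q ∣ e then 1 / (e : ℝ) else 0) := by
    intro e he
    rw [Finset.mem_Icc] at he
    rw [← Finset.sum_filter, Finset.sum_const, nsmul_eq_mul]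
    have h2 : (Finset.Icc 1 E).filter (fun q => q ∣ e) = e.divisors := by
      ext q
      rw [Finset.mem_filter, Finset.mem_Icc, Nat.mem_divisors]
      constructor
      · rintro ⟨_, h⟩
        exact ⟨h, by omega⟩
      · rintro ⟨h, h2⟩
        exact ⟨⟨Nat.pos_of_dvd_of_pos h (by omega), (Nat.le_of_dvd (by omega) h).trans he.2⟩, h⟩
    rw [h2]
    unfold tau
    ring
  rw [Finset.sum_congr rfl h1, Finset.sum_comm]
  calc ∑ q ∈ Finset.Icc 1 E, ∑ e ∈ Finset.Icc 1 E, (if q ∣ e then 1 / (e : ℝ) else 0) ≤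
        ∑ q ∈ Finset.Icc 1 E, 1 / q * HE E :=
        Finset.sum_le_sum fun q hq => HE_mult (Finset.mem_Icc.1 hq).1
    _ = HE E ^ 2 := by
        rw [← Finset.sum_mul]
        unfold HE
        ring

theorem tau_p {p m : ℕ} (hp : p.Prime) (hm : 1 ≤ m) : tau (p * m) ≤ 2 * tau m := by
  have h := tau_rec hp hm
  have h2 : 0 ≤ (if p ∣ m then tau (m / p) else 0) := by
    split_ifs
    · exact tau_nonneg' _
    · exact le_rfl
  linarith

/-- sums over the multiples of `p` -/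
theorem gcd_sum_p {E p : ℕ} (hp : p.Prime) :
    ∑ d ∈ Finset.Icc 1 E, ∑ e ∈ Finset.Icc 1 E,
      (if p ∣ e then (Nat.gcd d (p * e) : ℝ) / (d * e) else 0) ≤ 4 / p * HE E ^ 3 ∧
    ∑ d ∈ Finset.Icc 1 E, ∑ e ∈ Finset.Icc 1 E,
      (if p ∣ e then (Nat.gcd d e : ℝ) / (d * e) else 0) ≤ 4 / p * HE E ^ 3 := by
  have hp0 : 0 < p := hp.pos
  have hpr : (0 : ℝ) < p := by exact_mod_cast hp0
  have hH := HE_nonneg E
  -- the first sum
  have key : ∑ d ∈ Finset.Icc 1 E, ∑ e ∈ Finset.Icc 1 E,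
      (if p ∣ e then (Nat.gcd d (p * e) : ℝ) / (d * e) else 0) ≤ 4 / p * HE E ^ 3 := by
    rw [Finset.sum_comm]
    have h1 : ∀ e ∈ Finset.Icc 1 E, ∑ d ∈ Finset.Icc 1 E,
        (if p ∣ e then (Nat.gcd d (p * e) : ℝ) / (d * e) else 0) ≤
        (if p ∣ e then tau (p * e) / e else 0) * HE E := by
      intro e he
      rw [Finset.mem_Icc] at he
      have he0 : (0 : ℝ) < e := by exact_mod_cast he.1
      split_ifs with h
      · have h2 := gcd_sum (E := E) (m := p * e) (Nat.mul_pos hp0 he.1)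
        calc ∑ d ∈ Finset.Icc 1 E, (Nat.gcd d (p * e) : ℝ) / (d * e) =
              (∑ d ∈ Finset.Icc 1 E, (Nat.gcd d (p * e) : ℝ) / d) / e := by
              rw [Finset.sum_div]
              exact Finset.sum_congr rfl fun d _ => by rw [div_div]
          _ ≤ (tau (p * e) * HE E) / e := by gcongr
          _ = _ := by ring
      · simp
    refine (Finset.sum_le_sum h1).trans ?_
    rw [← Finset.sum_mul, ← Finset.sum_filter]
    have h2 : ∑ e ∈ (Finset.Icc 1 E).filter (fun e => p ∣ e), tau (p * e) / (e : ℝ) ≤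
        ∑ k ∈ Finset.Icc 1 E, 4 / p * (tau k / k) := by
      have h3 : ∑ e ∈ (Finset.Icc 1 E).filter (fun e => p ∣ e), tau (p * e) / (e : ℝ) =
          ∑ k ∈ (Finset.Icc 1 E).filter (fun k => p * k ≤ E),
            tau (p * (p * k)) / ((p * k : ℕ) : ℝ) := by
        symm
        refine Finset.sum_bij (fun k _ => p * k) ?_ ?_ ?_ ?_
        · intro k hk
          rw [Finset.mem_filter, Finset.mem_Icc] at hk ⊢
          exact ⟨⟨Nat.mul_pos hp0 hk.1.1, hk.2⟩, Dvd.intro _ rfl⟩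
        · intro a _ b _ h
          exact Nat.eq_of_mul_eq_mul_left hp0 h
        · intro d hd
          rw [Finset.mem_filter, Finset.mem_Icc] at hd
          obtain ⟨⟨h5, h6⟩, i, rfl⟩ := hd
          refine ⟨i, ?_, rfl⟩
          rw [Finset.mem_filter, Finset.mem_Icc]
          have hi : 1 ≤ i := Nat.one_le_iff_ne_zero.mpr (by rintro rfl; simp at h5)
          exact ⟨⟨hi, le_trans (Nat.le_mul_of_pos_left i hp0) h6⟩, h6⟩
        · intro k _
          rfl
      rw [h3]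
      refine le_trans (Finset.sum_le_sum (g := fun k : ℕ => 4 / (p : ℝ) * (tau k / k)) ?_)
        (Finset.sum_le_sum_of_subset_of_nonneg (Finset.filter_subset _ _) ?_)
      · intro k hk
        rw [Finset.mem_filter, Finset.mem_Icc] at hk
        have hk0 : (0 : ℝ) < k := by exact_mod_cast hk.1.1
        have h4 := tau_p hp hk.1.1
        have h5 := tau_p hp (Nat.mul_pos hp0 hk.1.1)
        have h6 : tau (p * (p * k)) ≤ 4 * tau k := by linarith
        push_cast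
        calc tau (p * (p * k)) / ((p : ℝ) * k) ≤ (4 * tau k) / ((p : ℝ) * k) := by gcongr
          _ = 4 / p * (tau k / k) := by field_simp
      · intro k _ _
        have := tau_nonneg' k
        positivity
    calc (∑ e ∈ (Finset.Icc 1 E).filter (fun e => p ∣ e), tau (p * e) / (e : ℝ)) * HE E ≤
          (∑ k ∈ Finset.Icc 1 E, 4 / p * (tau k / k)) * HE E :=
          mul_le_mul_of_nonneg_right h2 hH
      _ ≤ (4 / p * HE E ^ 2) * HE E := by
          refine mul_le_mul_of_nonneg_right ?_ hH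
          rw [← Finset.mul_sum]
          exact mul_le_mul_of_nonneg_left (tau_sum E) (by positivity)
      _ = _ := by ring
  refine ⟨key, le_trans ?_ key⟩
  refine Finset.sum_le_sum fun d hd => Finset.sum_le_sum fun e he => ?_
  rw [Finset.mem_Icc] at hd he
  split_ifs with h
  · have h2 : Nat.gcd d e ≤ Nat.gcd d (p * e) :=
      Nat.le_of_dvd (Nat.gcd_pos_of_pos_left _ hd.1)
        (Nat.gcd_dvd_gcd_of_dvd_right _ (Dvd.intro_left _ rfl))
    have h3 : (Nat.gcd d e : ℝ) ≤ Nat.gcd d (p * e) := by exact_mod_cast h2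
    gcongr
  · exact le_rfl

/-- the whole sum -/
theorem gcd_sum_all (E : ℕ) : ∑ d ∈ Finset.Icc 1 E, ∑ e ∈ Finset.Icc 1 E,
    (Nat.gcd d e : ℝ) / (d * e) ≤ HE E ^ 3 := by
  have hH := HE_nonneg E
  rw [Finset.sum_comm]
  have h1 : ∀ e ∈ Finset.Icc 1 E, ∑ d ∈ Finset.Icc 1 E, (Nat.gcd d e : ℝ) / (d * e) ≤
      tau e / e * HE E := by
    intro e he
    rw [Finset.mem_Icc] at he
    have he0 : (0 : ℝ) < e := by exact_mod_cast he.1
    have h2 := gcd_sum (E := E) (m := e) he.1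
    calc ∑ d ∈ Finset.Icc 1 E, (Nat.gcd d e : ℝ) / (d * e) =
          (∑ d ∈ Finset.Icc 1 E, (Nat.gcd d e : ℝ) / d) / e := by
          rw [Finset.sum_div]
          exact Finset.sum_congr rfl fun d _ => by rw [div_div]
      _ ≤ (tau e * HE E) / e := by gcongr
      _ = _ := by ring
  refine (Finset.sum_le_sum h1).trans ?_
  rw [← Finset.sum_mul]
  calc (∑ e ∈ Finset.Icc 1 E, tau e / e) * HE E ≤ HE E ^ 2 * HE E :=
        mul_le_mul_of_nonneg_right (tau_sum E) hH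
    _ = _ := by ring

/-- bounds for double sums, the general case -/
theorem ds_all {E : ℕ} {K : ℝ} (hK : 0 ≤ K) {f : ℕ → ℕ → ℝ}
    (hf : ∀ d e, 1 ≤ d → d ≤ E → 1 ≤ e → e ≤ E → |f d e| ≤ K * ((Nat.gcd d e : ℝ) / (d * e))) :
    |∑ d ∈ Finset.Icc 1 E, ∑ e ∈ Finset.Icc 1 E, f d e| ≤ K * HE E ^ 3 := by
  refine (Finset.abs_sum_le_sum_abs _ _).trans ?_
  refine (Finset.sum_le_sum fun d _ => Finset.abs_sum_le_sum_abs _ _).trans ?_
  calc ∑ d ∈ Finset.Icc 1 E, ∑ e ∈ Finset.Icc 1 E, |f d e| ≤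
        ∑ d ∈ Finset.Icc 1 E, ∑ e ∈ Finset.Icc 1 E, K * ((Nat.gcd d e : ℝ) / (d * e)) := by
        refine Finset.sum_le_sum fun d hd => Finset.sum_le_sum fun e he => ?_
        rw [Finset.mem_Icc] at hd he
        exact hf d e hd.1 hd.2 he.1 he.2
    _ = K * ∑ d ∈ Finset.Icc 1 E, ∑ e ∈ Finset.Icc 1 E, (Nat.gcd d e : ℝ) / (d * e) := by
        rw [Finset.mul_sum]
        exact Finset.sum_congr rfl fun d _ => by rw [Finset.mul_sum]
    _ ≤ _ := mul_le_mul_of_nonneg_left (gcd_sum_all E) hK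

/-- bounds for double sums over multiples of `p` -/
theorem ds_p {E p : ℕ} (hp : p.Prime) {K : ℝ} (hK : 0 ≤ K) {f : ℕ → ℕ → ℝ}
    (hf : ∀ d e, 1 ≤ d → d ≤ E → 1 ≤ e → e ≤ E → |f d e| ≤ K * ((Nat.gcd d e : ℝ) / (d * e)))
    (hz : ∀ d e, ¬ p ∣ d → ¬ p ∣ e → f d e = 0) :
    |∑ d ∈ Finset.Icc 1 E, ∑ e ∈ Finset.Icc 1 E, f d e| ≤ 8 / p * K * HE E ^ 3 := by
  refine (Finset.abs_sum_le_sum_abs _ _).trans ?_
  refine (Finset.sum_le_sum fun d _ => Finset.abs_sum_le_sum_abs _ _).trans ?_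
  have h1 : ∑ d ∈ Finset.Icc 1 E, ∑ e ∈ Finset.Icc 1 E, |f d e| ≤
      ∑ d ∈ Finset.Icc 1 E, ∑ e ∈ Finset.Icc 1 E,
        (K * (if p ∣ e then (Nat.gcd d e : ℝ) / (d * e) else 0) +
          K * (if p ∣ d then (Nat.gcd e d : ℝ) / (e * d) else 0)) := by
    refine Finset.sum_le_sum fun d hd => Finset.sum_le_sum fun e he => ?_
    rw [Finset.mem_Icc] at hd he
    have h2 := hf d e hd.1 hd.2 he.1 he.2
    have h3 : (Nat.gcd e d : ℝ) / (e * d) = (Nat.gcd d e : ℝ) / (d * e) := by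
      rw [Nat.gcd_comm, mul_comm (e : ℝ)]
    rw [h3]
    have h4 : 0 ≤ K * ((Nat.gcd d e : ℝ) / (d * e)) := by positivity
    by_cases k1 : p ∣ e
    · by_cases k2 : p ∣ d
      · rw [if_pos k1, if_pos k2]; linarith
      · rw [if_pos k1, if_neg k2]; linarith
    · by_cases k2 : p ∣ d
      · rw [if_neg k1, if_pos k2]; linarith
      · rw [if_neg k1, if_neg k2, hz d e k2 k1]; simp
  refine h1.trans ?_
  have h2 := (gcd_sum_p (E := E) hp).2
  have h3 : ∑ d ∈ Finset.Icc 1 E, ∑ e ∈ Finset.Icc 1 E,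
        (K * (if p ∣ e then (Nat.gcd d e : ℝ) / (d * e) else 0) +
          K * (if p ∣ d then (Nat.gcd e d : ℝ) / (e * d) else 0)) =
      K * (∑ d ∈ Finset.Icc 1 E, ∑ e ∈ Finset.Icc 1 E,
        (if p ∣ e then (Nat.gcd d e : ℝ) / (d * e) else 0)) +
      K * (∑ e ∈ Finset.Icc 1 E, ∑ d ∈ Finset.Icc 1 E,
        (if p ∣ d then (Nat.gcd e d : ℝ) / (e * d) else 0)) := by
    simp only [Finset.sum_add_distrib, ← Finset.mul_sum]
    congr 1
    congr 1
    exact Finset.sum_comm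
  rw [h3]
  have h4 := mul_le_mul_of_nonneg_left h2 hK
  calc _ ≤ K * (4 / p * HE E ^ 3) + K * (4 / p * HE E ^ 3) := add_le_add h4 h4
    _ = _ := by ring

/-- the same with `gcd (d, p e)` -/
theorem ds_pp {E p : ℕ} (hp : p.Prime) {K : ℝ} (hK : 0 ≤ K) {f : ℕ → ℕ → ℝ}
    (hf : ∀ d e, 1 ≤ d → d ≤ E → 1 ≤ e → e ≤ E →
      |f d e| ≤ K * ((Nat.gcd d (p * e) : ℝ) / (d * e)))
    (hz : ∀ d e, ¬ p ∣ e → f d e = 0) :
    |∑ d ∈ Finset.Icc 1 E, ∑ e ∈ Finset.Icc 1 E, f d e| ≤ 4 / p * K * HE E ^ 3 := by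
  refine (Finset.abs_sum_le_sum_abs _ _).trans ?_
  refine (Finset.sum_le_sum fun d _ => Finset.abs_sum_le_sum_abs _ _).trans ?_
  have h1 : ∑ d ∈ Finset.Icc 1 E, ∑ e ∈ Finset.Icc 1 E, |f d e| ≤
      ∑ d ∈ Finset.Icc 1 E, ∑ e ∈ Finset.Icc 1 E,
        K * (if p ∣ e then (Nat.gcd d (p * e) : ℝ) / (d * e) else 0) := by
    refine Finset.sum_le_sum fun d hd => Finset.sum_le_sum fun e he => ?_
    rw [Finset.mem_Icc] at hd he
    split_ifs with h
    · exact hf d e hd.1 hd.2 he.1 he.2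
    · rw [hz d e h]; simp
  refine h1.trans ?_
  have h2 := (gcd_sum_p (E := E) hp).1
  calc ∑ d ∈ Finset.Icc 1 E, ∑ e ∈ Finset.Icc 1 E,
        K * (if p ∣ e then (Nat.gcd d (p * e) : ℝ) / (d * e) else 0) =
      K * ∑ d ∈ Finset.Icc 1 E, ∑ e ∈ Finset.Icc 1 E,
        (if p ∣ e then (Nat.gcd d (p * e) : ℝ) / (d * e) else 0) := by
        rw [Finset.mul_sum]
        exact Finset.sum_congr rfl fun d _ => by rw [Finset.mul_sum]
    _ ≤ K * (4 / p * HE E ^ 3) := mul_le_mul_of_nonneg_left h2 hK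
    _ = _ := by ring

end Pool.Agent.LSP
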