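import Pool.Agent.Lib_helper98.HK.C7

/-! LSP2: the interface name of the cross statement. -/

namespace Pool.Agent.LSP

theorem m2_cross : type_of% @m2_cross_pr := @m2_cross_pr

theorem ww_x2 : type_of% @ww_x2_pr := @ww_x2_pr

end Pool.Agent.LSP
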