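import Pool.Agent.Lib_helper98.HK.A6

/-! LSP2, module HK: the statements of the interface. -/

namespace Pool.Agent.LSP

theorem cb_tp : type_of% @cb_tp_pr := @cb_tp_pr
theorem cb_symm : type_of% @cb_symm_pr := @cb_symm_pr
theorem od_zero : type_of% @od_zero_pr := @od_zero_pr
theorem od_cross : type_of% @od_cross_pr := @od_cross_pr
theorem od_quad : type_of% @od_quad_pr := @od_quad_pr
theorem qn_add : type_of% @qn_add_pr := @qn_add_pr
theorem mx_tp : type_of% @mx_tp_pr := @mx_tp_pr
theorem qn_nonneg : type_of% @qn_nonneg_pr := @qn_nonneg_pr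
theorem y_supp : type_of% @y_supp_pr := @y_supp_pr

end Pool.Agent.LSP
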