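import Pool.Agent.Lib_helper98.HK.W1

/-! LSP2: the coefficients of the mollifier for smooth `m`. -/

namespace Pool.Agent.LSP

open Pool.Agent.LEV Pool.Agent.LVB Pool.Agent.KSL
open Pool.Agent.FG61 (mu phi cc ff AA Lam)
open Complex MeasureTheory Filter Topology UpperHalfPlane ModularGroup ProbabilityTheory
open scoped MatrixGroups Modular ENNReal ModularForm ComplexConjugate ContDiff

theorem hk_gcd {k r n z : ℕ} (hn : smooth z n) (hr : rough z r) :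
    Nat.gcd (k * r) n = Nat.gcd k n := by
  have h := wwf_cop hn hr
  exact Nat.Coprime.gcd_mul_right_cancel k h.symm

/-- the coefficients of a mollifier for smooth `n` -/
theorem hk_WW_smooth {z M A E n : ℕ} {a : ℕ → ℝ} (ha : Sht z A a) (hE : QA M 2 A ≤ E)
    (hn : smooth z n) (hM : 2 ≤ M) : WW E (wX E (xX z M 2 a)) n = Ph A a n := by
  rw [hk_WW]
  have h1 := hk_xsplit (M := M) ha hE (fun e => sg1 (Nat.gcd e n))
  rw [Finset.sum_congr rfl (fun e _ => by ring : ∀ e ∈ Finset.Icc 1 E,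
    xX z M 2 a e * (sg1 (Nat.gcd e n) / e) = xX z M 2 a e / e * sg1 (Nat.gcd e n)), h1]
  have h2 : ∀ k ∈ Finset.Icc 1 A, ∑ r ∈ Finset.Icc 1 (2 * M),
      a k / Real.sqrt k * xs z M 2 r * sg1 (Nat.gcd (k * r) n) =
      a k / Real.sqrt k * sg1 (Nat.gcd k n) * ∑ r ∈ Finset.Icc 1 (2 * M), xs z M 2 r := by
    intro k _
    rw [Finset.mul_sum]
    apply Finset.sum_congr rfl
    intro r hr
    rw [Finset.mem_Icc] at hr
    by_cases h : xs z M 2 r = 0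
    · rw [h]; ring
    · rw [hk_gcd hn (SPL_xs_supp hr.1 h).1]
      ring
  rw [Finset.sum_congr rfl h2, ← Finset.sum_mul, hk_xs_one]
  have h3 := wr_one_pr (z := z) (K := 2) hM
  unfold Wr at h3
  rw [Nat.divisors_one, Finset.sum_singleton, Nat.cast_one, one_mul] at h3
  rw [h3, mul_one]
  rfl

/-- the sum over the multiples of a prime -/
theorem hk_WW_mult {z M A E n p : ℕ} {a : ℕ → ℝ} (ha : Sht z A a) (hE : QA M 2 A ≤ E)
    (hn : smooth z n) (hp : p.Prime) (hz : z < p) :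
    ∑ d ∈ Finset.Icc 1 E, xX z M 2 a d / d * (if p ∣ d then sg1 (Nat.gcd d n) else 0) =
      Ph A a n * yE z M 2 p := by
  have h1 := hk_xsplit (M := M) ha hE (fun d => if p ∣ d then sg1 (Nat.gcd d n) else 0)
  rw [h1]
  have h2 : ∀ k ∈ Finset.Icc 1 A, ∑ r ∈ Finset.Icc 1 (2 * M),
      a k / Real.sqrt k * xs z M 2 r * (if p ∣ k * r then sg1 (Nat.gcd (k * r) n) else 0) =
      a k / Real.sqrt k * sg1 (Nat.gcd k n) *
        ∑ r ∈ Finset.Icc 1 (2 * M), xs z M 2 r * (if p ∣ r then 1 else 0) := by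
    intro k hk
    rw [Finset.mem_Icc] at hk
    rw [Finset.mul_sum]
    apply Finset.sum_congr rfl
    intro r hr
    rw [Finset.mem_Icc] at hr
    by_cases h : xs z M 2 r = 0
    · rw [h]; ring
    by_cases hak : a k = 0
    · rw [hak]; simp
    rw [hk_gcd hn (SPL_xs_supp hr.1 h).1]
    have hs := (ha.sup k hak).1
    have hpk : ¬ p ∣ k := fun h5 => absurd (hs.2 p hp h5) (not_le.mpr hz)
    by_cases h6 : p ∣ r
    · rw [if_pos h6, if_pos (Dvd.dvd.mul_left h6 k)]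
      ring
    · rw [if_neg h6, if_neg (fun h7 => (hp.dvd_mul.mp h7).elim hpk h6)]
      ring
  rw [Finset.sum_congr rfl h2, ← Finset.sum_mul, hk_xs_p hp]
  rfl

theorem hk_yE_p {z M p : ℕ} (hp : p.Prime) (hz : z < p) (hpM : p ≤ M) (hM : 2 ≤ M) :
    yE z M 2 p = -(1 / p * (1 - Real.log p / Real.log M)) := by
  have hrough : rough z p ∧ 1 ≤ p := by
    refine ⟨?_, hp.one_lt.le⟩
    intro q hq hqp
    rw [(Nat.prime_dvd_prime_iff_eq hq hp).mp hqp]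
    exact hz
  have hlog : Real.log M ≠ 0 := by
    have : (1 : ℝ) < M := by exact_mod_cast (by omega : 1 < M)
    exact (Real.log_pos this).ne'
  have hp0 : (p : ℝ) ≠ 0 := by exact_mod_cast hp.ne_zero
  have hM0 : (M : ℝ) ≠ 0 := by exact_mod_cast (by omega : M ≠ 0)
  unfold yE
  rw [if_pos hrough]
  unfold gE
  rw [if_pos hpM, Real.log_div hM0 hp0]
  have hmu : mu p = -1 := by
    unfold mu
    rw [ArithmeticFunction.moebius_apply_prime hp]
    simp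
  rw [hmu]
  field_simp

/-- the coefficients for smooth `m` -/
theorem ww_x2_pr {κ v κ₁ ε₂ : ℝ} (h0 : 0 < κ) (h1 : 1000 * κ ≤ v) (h2 : v ≤ 1 / 80) (h3 : 0 < κ₁)
    (h4 : κ₁ ≤ κ) (h5 : 0 < ε₂) (h6 : ε₂ ≤ κ₁ / 1000) : ∃ X₀ : ℕ, ∀ X : ℕ, X₀ ≤ X →
    ∀ a : ℕ → ℝ, Sht (zz X) (KA ε₂ X) a → ∀ (θ : ℕ → ℝ) (t : ℝ) (m : ℕ), smooth (zz X) m → 1 ≤ m →
      (m : ℝ) < (X : ℝ) ^ v / 2 →
      WW (E2 κ X) (wX (E2 κ X) (x2 κ v κ₁ t X θ a)) m = ell κ v t X θ * Ph (KA ε₂ X) a m := by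
  obtain ⟨X1, hX1⟩ := hk_sizes
  obtain ⟨X2, hX2⟩ := la13_rpow ε₂ h5 2
  obtain ⟨X3, hX3⟩ := la13_rpow (κ / 2 - 2 * ε₂) (by linarith) 2
  obtain ⟨X4, hX4⟩ := sizes (δ := 1 / 8) (by norm_num) (by norm_num) (ε := v / 2) (by linarith)
  obtain ⟨X5, hX5⟩ := la13_rpow (v / 2) (by linarith) 4
  obtain ⟨X6, hX6⟩ := la13_rpow (1 / 4) (by norm_num) 4
  refine ⟨max (max (max X1 X2) (max X3 1)) (max X4 (max X5 X6)),
    fun X hX a ha θ t m hm hm1 hmX => ?_⟩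
  have g1 : X1 ≤ X := by omega
  have g2 : (2 : ℝ) ≤ (X : ℝ) ^ ε₂ := hX2 X (by omega)
  have g3 : (2 : ℝ) ≤ (X : ℝ) ^ (κ / 2 - 2 * ε₂) := hX3 X (by omega)
  obtain ⟨-, -, -, g4, -⟩ := hX4 X (by omega)
  have g5 : (4 : ℝ) ≤ (X : ℝ) ^ (v / 2) := hX5 X (by omega)
  have g6 : (4 : ℝ) ≤ (X : ℝ) ^ (1 / 4 : ℝ) := hX6 X (by omega)
  have hX1' : (1 : ℝ) ≤ X := by exact_mod_cast (by omega : 1 ≤ X)
  have hX0 : (0 : ℝ) < X := by linarith
  have hmono : ∀ {s t : ℝ}, s ≤ t → (X : ℝ) ^ s ≤ (X : ℝ) ^ t := fun h =>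
    Real.rpow_le_rpow_of_exponent_le hX1' h
  obtain ⟨c1, c2, c3⟩ := hX1 X g1 (v - κ) (by linarith)
  obtain ⟨d1, d2, d3⟩ := hX1 X g1 κ₁ (by linarith)
  have aE : QA (MM κ₁ X) 2 (KA ε₂ X) ≤ E2 κ X := by
    unfold E2
    apply Nat.le_floor
    exact (hk_QA (δ := κ₁) hX1' g2).trans (hmono (by linarith))
  have bE : QA (MM (v - κ) X) 2 (KA ε₂ X) ≤ E2 κ X := by
    unfold E2
    apply Nat.le_floor
    exact (hk_QA (δ := v - κ) hX1' g2).trans (hmono (by linarith))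
  -- the primes of the band
  have hP : ∀ p ∈ PB κ v X, p.Prime ∧ zz X < p ∧ p ≤ MM (v - κ) X ∧ ¬ p ∣ m ∧
      (∀ e, E2 κ X < p * e → y1 κ v X a e = 0) := by
    intro p hp
    unfold PB at hp
    rw [Finset.mem_filter, Finset.mem_Icc] at hp
    obtain ⟨⟨hp1, hp2⟩, hpp, hp3⟩ := hp
    have hp2' : (p : ℝ) ≤ 2 * (X : ℝ) ^ (v + κ) := (Nat.le_floor_iff (by positivity)).mp hp2
    have hX2v : (X : ℝ) ^ (v / 2) * (X : ℝ) ^ (v / 2) = (X : ℝ) ^ v := by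
      rw [← Real.rpow_add hX0]; congr 1; ring
    refine ⟨hpp, ?_, ?_, ?_, ?_⟩
    · have h7 : (zz X : ℝ) < p := by
        refine lt_of_le_of_lt g4 (lt_of_lt_of_le ?_ hp3)
        rw [← hX2v]
        nlinarith
      exact_mod_cast h7
    · unfold MM
      apply Nat.le_floor
      refine hp2'.trans ?_
      have h7 : 2 * (X : ℝ) ^ (v + κ) ≤ (X : ℝ) ^ (1 / 4 : ℝ) * (X : ℝ) ^ (v + κ) :=
        mul_le_mul_of_nonneg_right (by linarith) (by positivity)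
      refine h7.trans ?_
      rw [← Real.rpow_add hX0]
      exact hmono (by linarith)
    · intro h7
      have h8 : (p : ℝ) ≤ m := by exact_mod_cast Nat.le_of_dvd hm1 h7
      linarith
    · intro e he
      by_contra h7
      have h8 := (hk_xX_supp (M := MM (v - κ) X) ha h7).2
      have h9 : ((p * e : ℕ) : ℝ) ≤ (X : ℝ) ^ (1 / 2 + 5 / 2 * κ) := by
        push_cast
        have h10 : (e : ℝ) ≤ (X : ℝ) ^ (1 / 2 - v + κ + 2 * ε₂) := by
          refine le_trans (by exact_mod_cast h8) ((hk_QA (δ := v - κ) hX1' g2).trans (le_of_eq ?_))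
          congr 1
          ring
        calc (p : ℝ) * e ≤ (2 * (X : ℝ) ^ (v + κ)) * (X : ℝ) ^ (1 / 2 - v + κ + 2 * ε₂) := by
              gcongr
          _ ≤ ((X : ℝ) ^ (κ / 2 - 2 * ε₂) * (X : ℝ) ^ (v + κ)) *
                (X : ℝ) ^ (1 / 2 - v + κ + 2 * ε₂) := by gcongr
          _ = (X : ℝ) ^ (1 / 2 + 5 / 2 * κ) := by
              rw [← Real.rpow_add hX0, ← Real.rpow_add hX0]
              congr 1
              ring
      have h11 : p * e ≤ E2 κ X := by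
        unfold E2
        apply Nat.le_floor
        exact h9.trans (hmono (by linarith))
      omega
  have hx2 : x2 κ v κ₁ t X θ a = fun e => y0 κ₁ X a e + (-t) * YT (PB κ v X) θ (y1 κ v X a) e := by
    funext e
    unfold x2
    ring
  have hw : wX (E2 κ X) (x2 κ v κ₁ t X θ a) = fun q => wX (E2 κ X) (y0 κ₁ X a) q +
      (-t) * wX (E2 κ X) (YT (PB κ v X) θ (y1 κ v X a)) q := by
    funext q
    rw [hx2, wX_add, wX_smul]
  have hYT : WW (E2 κ X) (wX (E2 κ X) (YT (PB κ v X) θ (y1 κ v X a))) m =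
      ∑ p ∈ PB κ v X, θ p * WW (E2 κ X) (wX (E2 κ X) (Tp p (y1 κ v X a))) m := by
    simp only [hk_WW]
    rw [Finset.sum_congr rfl (fun p _ => Finset.mul_sum _ _ _ : ∀ p ∈ PB κ v X,
      θ p * ∑ e ∈ Finset.Icc 1 (E2 κ X), Tp p (y1 κ v X a) e * (sg1 (Nat.gcd e m) / e) = _),
      Finset.sum_comm]
    apply Finset.sum_congr rfl
    intro e _
    unfold YT
    rw [Finset.sum_mul]
    exact Finset.sum_congr rfl fun p _ => by ring
  rw [hw, WW_add, WW_smul, hYT]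
  have hy0 : WW (E2 κ X) (wX (E2 κ X) (y0 κ₁ X a)) m = Ph (KA ε₂ X) a m :=
    hk_WW_smooth ha aE hm d2
  have hy1 : WW (E2 κ X) (wX (E2 κ X) (y1 κ v X a)) m = Ph (KA ε₂ X) a m :=
    hk_WW_smooth ha bE hm c2
  have hT : ∀ p ∈ PB κ v X, θ p * WW (E2 κ X) (wX (E2 κ X) (Tp p (y1 κ v X a))) m =
      Ph (KA ε₂ X) a m * (θ p / p * (Real.log p / Real.log (MM (v - κ) X))) := by
    intro p hp
    obtain ⟨k1, k2, k3, k4, k5⟩ := hP p hp
    rw [hk_WW_Tp k1 k5 k4, hy1]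
    have h7 := hk_WW_mult (M := MM (v - κ) X) ha bE hm k1 k2
    have h8 : ∑ d ∈ Finset.Icc 1 (E2 κ X), y1 κ v X a d / d *
        (if p ∣ d then sg1 (Nat.gcd d m) else 0) =
        Ph (KA ε₂ X) a m * yE (zz X) (MM (v - κ) X) 2 p := h7
    rw [h8, hk_yE_p k1 k2 k3 c2]
    ring
  rw [hy0, Finset.sum_congr rfl hT, ← Finset.mul_sum]
  unfold ell
  ring

end Pool.Agent.LSP
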