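import Pool.Agent.Lib_helper41.LSP2.Defs2

/-! LSP2, module HK: the Hecke identities for the bilinear coefficients. -/

namespace Pool.Agent.LSP

open Finset

lemma hk_split (p n : ℕ) (hp : p.Prime) (hn : n ≠ 0) (F : ℕ → ℕ → ℝ) :
    ∑ q ∈ (p * n).divisorsAntidiagonal, F q.1 q.2 =
      ∑ q ∈ n.divisorsAntidiagonal, F q.1 (p * q.2) +
        ∑ q ∈ n.divisorsAntidiagonal.filter (fun q => ¬ p ∣ q.2), F (p * q.1) q.2 := by
  have hp0 : 0 < p := hp.pos
  rw [← Finset.sum_filter_add_sum_filter_not (p * n).divisorsAntidiagonal (fun q => p ∣ q.2)]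
  congr 1
  · symm
    refine Finset.sum_bij (fun q _ => (q.1, p * q.2)) ?_ ?_ ?_ ?_
    · intro q hq
      rw [Nat.mem_divisorsAntidiagonal] at hq
      rw [Finset.mem_filter, Nat.mem_divisorsAntidiagonal]
      refine ⟨⟨?_, Nat.mul_ne_zero hp0.ne' hn⟩, Dvd.intro _ rfl⟩
      rw [← hq.1]; ring
    · intro a ha b hb h
      simp only [Prod.mk.injEq] at h
      exact Prod.ext h.1 (Nat.eq_of_mul_eq_mul_left hp0 h.2)
    · intro q hq
      rw [Finset.mem_filter, Nat.mem_divisorsAntidiagonal] at hq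
      obtain ⟨⟨h1, h2⟩, c, hc⟩ := hq
      refine ⟨(q.1, c), ?_, ?_⟩
      · rw [Nat.mem_divisorsAntidiagonal]
        refine ⟨?_, hn⟩
        apply Nat.eq_of_mul_eq_mul_left hp0
        rw [← h1, hc]; ring
      · exact Prod.ext rfl hc.symm
    · intro q _; rfl
  · symm
    refine Finset.sum_bij (fun q _ => (p * q.1, q.2)) ?_ ?_ ?_ ?_
    · intro q hq
      rw [Finset.mem_filter, Nat.mem_divisorsAntidiagonal] at hq
      rw [Finset.mem_filter, Nat.mem_divisorsAntidiagonal]
      refine ⟨⟨?_, Nat.mul_ne_zero hp0.ne' hn⟩, hq.2⟩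
      rw [← hq.1.1]; ring
    · intro a ha b hb h
      simp only [Prod.mk.injEq] at h
      exact Prod.ext (Nat.eq_of_mul_eq_mul_left hp0 h.1) h.2
    · intro q hq
      rw [Finset.mem_filter, Nat.mem_divisorsAntidiagonal] at hq
      obtain ⟨⟨h1, h2⟩, h3⟩ := hq
      have h4 : p ∣ q.1 := by
        have : p ∣ q.1 * q.2 := by rw [h1]; exact Dvd.intro _ rfl
        exact (hp.dvd_mul.mp this).resolve_right h3
      obtain ⟨c, hc⟩ := h4
      refine ⟨(c, q.2), ?_, ?_⟩
      · rw [Finset.mem_filter, Nat.mem_divisorsAntidiagonal]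
        refine ⟨⟨?_, hn⟩, h3⟩
        apply Nat.eq_of_mul_eq_mul_left hp0
        rw [← h1, hc]; ring
      · exact Prod.ext hc.symm rfl
    · intro q _; rfl

lemma hk_div (p n : ℕ) (hp : p.Prime) (F : ℕ → ℕ → ℝ) :
    ∑ q ∈ n.divisorsAntidiagonal.filter (fun q => p ∣ q.2), F q.1 q.2 =
      if p ∣ n then ∑ q ∈ (n / p).divisorsAntidiagonal, F q.1 (p * q.2) else 0 := by
  have hp0 : 0 < p := hp.pos
  by_cases h : p ∣ n
  · rw [if_pos h]
    obtain ⟨m, rfl⟩ := h
    rw [Nat.mul_div_cancel_left m hp0]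
    symm
    refine Finset.sum_bij (fun q _ => (q.1, p * q.2)) ?_ ?_ ?_ ?_
    · intro q hq
      rw [Nat.mem_divisorsAntidiagonal] at hq
      rw [Finset.mem_filter, Nat.mem_divisorsAntidiagonal]
      refine ⟨⟨?_, Nat.mul_ne_zero hp0.ne' hq.2⟩, Dvd.intro _ rfl⟩
      rw [← hq.1]; ring
    · intro a ha b hb h
      simp only [Prod.mk.injEq] at h
      exact Prod.ext h.1 (Nat.eq_of_mul_eq_mul_left hp0 h.2)
    · intro q hq
      rw [Finset.mem_filter, Nat.mem_divisorsAntidiagonal] at hq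
      obtain ⟨⟨h1, h2⟩, c, hc⟩ := hq
      refine ⟨(q.1, c), ?_, ?_⟩
      · rw [Nat.mem_divisorsAntidiagonal]
        refine ⟨?_, (Nat.mul_ne_zero_iff.mp h2).2⟩
        apply Nat.eq_of_mul_eq_mul_left hp0
        rw [← h1, hc]; ring
      · exact Prod.ext rfl hc.symm
    · intro q _; rfl
  · rw [if_neg h]
    apply Finset.sum_eq_zero
    intro q hq
    rw [Finset.mem_filter, Nat.mem_divisorsAntidiagonal] at hq
    exact absurd (hq.1.1 ▸ Dvd.dvd.mul_left hq.2 q.1) h

/-- the Hecke identity -/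
theorem CB_Tp {E p : ℕ} (hp : p.Prime) (x y : ℕ → ℝ) (hx : ∀ e, E < e → x e = 0) (n : ℕ) :
    CB E x (Tp p y) n = (if p ∣ n then CB E x y (n / p) else 0) / p + CB E x y (p * n) := by
  have hp0 : 0 < p := hp.pos
  have hpr : (p : ℝ) ≠ 0 := by exact_mod_cast hp0.ne'
  rcases Nat.eq_zero_or_pos n with rfl | hn
  · simp [CB]
  have hnr : (n : ℝ) ≠ 0 := by exact_mod_cast hn.ne'
  -- the four sums
  set A : ℕ → ℝ := fun j => ∑ q ∈ n.divisorsAntidiagonal, x (j * q.1) * y (p * (j * q.2)) with hA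
  set D : ℕ → ℝ := fun j => ∑ q ∈ n.divisorsAntidiagonal.filter (fun q => ¬ p ∣ q.2),
    x (j * (p * q.1)) * y (j * q.2) with hD
  set G : ℕ → ℝ := fun j => if p ∣ n then
    ∑ q ∈ (n / p).divisorsAntidiagonal, x (j * q.1) * y (j * q.2) else 0 with hG
  have h1 : ∀ j, ∑ q ∈ n.divisorsAntidiagonal, x (j * q.1) * Tp p y (j * q.2) / n =
      (G j + (if p ∣ j then D (j / p) else 0) + A j / p) / n := by
    intro j
    rw [← Finset.sum_div]
    congr 1
    have e1 : ∀ q : ℕ × ℕ, x (j * q.1) * Tp p y (j * q.2) =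
        x (j * q.1) * (if p ∣ j * q.2 then y (j * q.2 / p) else 0) +
          x (j * q.1) * y (p * (j * q.2)) / p := by
      intro q; unfold Tp; ring
    rw [Finset.sum_congr rfl (fun q _ => e1 q), Finset.sum_add_distrib, ← Finset.sum_div]
    congr 1
    rw [← Finset.sum_filter_add_sum_filter_not n.divisorsAntidiagonal (fun q => p ∣ q.2)]
    congr 1
    · rw [hk_div p n hp (fun a b => x (j * a) * (if p ∣ j * b then y (j * b / p) else 0))]
      rw [hG]
      simp only
      split_ifs with h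
      · apply Finset.sum_congr rfl
        intro q _
        have e2 : j * (p * q.2) = p * (j * q.2) := by ring
        rw [if_pos (by rw [e2]; exact Dvd.intro _ rfl), e2, Nat.mul_div_cancel_left _ hp0]
      · rfl
    · by_cases hj : p ∣ j
      · rw [if_pos hj, hD]
        obtain ⟨i, rfl⟩ := hj
        rw [Nat.mul_div_cancel_left _ hp0]
        simp only
        apply Finset.sum_congr rfl
        intro q _
        have e2 : p * i * q.2 = p * (i * q.2) := by ring
        have e3 : p * i * q.1 = i * (p * q.1) := by ring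
        rw [if_pos (by rw [e2]; exact Dvd.intro _ rfl), e2, Nat.mul_div_cancel_left _ hp0, e3]
      · rw [if_neg hj]
        apply Finset.sum_eq_zero
        intro q hq
        rw [Finset.mem_filter] at hq
        rw [if_neg (fun h => (hp.dvd_mul.mp h).elim hj hq.2), mul_zero]
  have h2 : ∀ j, ∑ q ∈ (p * n).divisorsAntidiagonal, x (j * q.1) * y (j * q.2) / (p * n : ℕ) =
      (A j + D j) / (p * n) := by
    intro j
    rw [← Finset.sum_div, hk_split p n hp hn.ne' (fun a b => x (j * a) * y (j * b))]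
    push_cast
    congr 2
    apply Finset.sum_congr rfl
    intro q _
    rw [show j * (p * q.2) = p * (j * q.2) by ring]
  have h3 : ∀ j, (if p ∣ n then ∑ q ∈ (n / p).divisorsAntidiagonal,
      x (j * q.1) * y (j * q.2) / (n / p : ℕ) else 0) / p = G j / n := by
    intro j
    rw [hG]
    simp only
    split_ifs with h
    · obtain ⟨m, rfl⟩ := h
      rw [Nat.mul_div_cancel_left _ hp0, ← Finset.sum_div]
      push_cast
      rw [div_div, mul_comm (m : ℝ)]
    · simp
  have h4 : ∑ j ∈ Icc 1 E, (1 / (j : ℝ)) * (if p ∣ j then D (j / p) else 0) =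
      ∑ j ∈ Icc 1 E, (1 / (j : ℝ)) * (D j / p) := by
    rw [show ∑ j ∈ Icc 1 E, (1 / (j : ℝ)) * (if p ∣ j then D (j / p) else 0) =
      ∑ j ∈ (Icc 1 E).filter (fun j => p ∣ j), (1 / (j : ℝ)) * D (j / p) by
        rw [Finset.sum_filter]
        apply Finset.sum_congr rfl
        intro j _
        split_ifs <;> simp]
    rw [show ∑ j ∈ Icc 1 E, (1 / (j : ℝ)) * (D j / p) =
      ∑ j ∈ (Icc 1 E).filter (fun j => p * j ≤ E), (1 / (j : ℝ)) * (D j / p) by
        rw [Finset.sum_filter]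
        apply Finset.sum_congr rfl
        intro j hj
        split_ifs with h
        · rfl
        · have : D j = 0 := by
            rw [hD]
            apply Finset.sum_eq_zero
            intro q hq
            rw [Finset.mem_filter, Nat.mem_divisorsAntidiagonal] at hq
            have hq1 : 1 ≤ q.1 := Nat.one_le_iff_ne_zero.mpr (by
              rintro h0
              rw [h0, zero_mul] at hq
              exact hn.ne' hq.1.1.symm)
            rw [hx, zero_mul]
            calc E < p * j := not_le.mp h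
              _ = j * (p * 1) := by ring
              _ ≤ j * (p * q.1) := Nat.mul_le_mul_left _ (Nat.mul_le_mul_left _ hq1)
          rw [this]; simp]
    symm
    refine Finset.sum_bij (fun j _ => p * j) ?_ ?_ ?_ ?_
    · intro j hj
      rw [Finset.mem_filter, Finset.mem_Icc] at hj ⊢
      exact ⟨⟨Nat.mul_pos hp0 hj.1.1, hj.2⟩, Dvd.intro _ rfl⟩
    · intro a _ b _ h
      exact Nat.eq_of_mul_eq_mul_left hp0 h
    · intro j hj
      rw [Finset.mem_filter, Finset.mem_Icc] at hj
      obtain ⟨⟨h5, h6⟩, i, rfl⟩ := hj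
      refine ⟨i, ?_, rfl⟩
      rw [Finset.mem_filter, Finset.mem_Icc]
      have hi : 1 ≤ i := Nat.one_le_iff_ne_zero.mpr (by rintro rfl; simp at h5)
      exact ⟨⟨hi, le_trans (Nat.le_mul_of_pos_left i hp0) h6⟩, h6⟩
    · intro j hj
      rw [Nat.mul_div_cancel_left _ hp0]
      push_cast
      rw [one_div, one_div, mul_inv]
      ring
  unfold CB
  rw [Finset.sum_congr rfl (fun j _ => by rw [h1 j] : ∀ j ∈ Icc 1 E, _ =
    (1 / (j : ℝ)) * ((G j + (if p ∣ j then D (j / p) else 0) + A j / p) / n))]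
  rw [Finset.sum_congr rfl (fun j _ => by rw [h2 j] : ∀ j ∈ Icc 1 E, (1 / (j : ℝ)) *
    ∑ q ∈ (p * n).divisorsAntidiagonal, x (j * q.1) * y (j * q.2) / (p * n : ℕ) =
    (1 / (j : ℝ)) * ((A j + D j) / (p * n)))]
  have h5 : (if p ∣ n then ∑ j ∈ Icc 1 E, (1 / (j : ℝ)) *
      ∑ q ∈ (n / p).divisorsAntidiagonal, x (j * q.1) * y (j * q.2) / (n / p : ℕ) else 0) / p =
      ∑ j ∈ Icc 1 E, (1 / (j : ℝ)) * (G j / n) := by
    rw [Finset.sum_congr rfl (fun j _ => by rw [← h3 j] : ∀ j ∈ Icc 1 E,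
      (1 / (j : ℝ)) * (G j / n) = _)]
    split_ifs
    · rw [Finset.sum_div]
      apply Finset.sum_congr rfl
      intro j _
      ring
    · simp
  rw [h5]
  have h6 : ∀ j : ℕ, (1 / (j : ℝ)) * ((G j + (if p ∣ j then D (j / p) else 0) + A j / p) / n) =
      (1 / (j : ℝ)) * (G j / n) + ((1 / (j : ℝ)) * (if p ∣ j then D (j / p) else 0) / n +
        (1 / (j : ℝ)) * (A j / (p * n))) := by
    intro j; field_simp; ring
  rw [Finset.sum_congr rfl (fun j _ => h6 j), Finset.sum_add_distrib, Finset.sum_add_distrib,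
    ← Finset.sum_div, h4, Finset.sum_div, ← Finset.sum_add_distrib]
  congr 1
  apply Finset.sum_congr rfl
  intro j _
  field_simp
  ring

end Pool.Agent.LSP
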