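import Pool.Agent.Lib_helper98.HK.A1
import Pool.Agent.Lib_helper68.LEV.HPO

/-! LSP2, module HK: the Hecke operator on coefficient vectors; bilinearity. -/

namespace Pool.Agent.LSP

open Finset
open Pool.Agent.LEV Pool.Agent.KSL
open Pool.Agent.FG61 (mu phi cc ff AA Lam)

/-! ## bilinearity of the coefficients -/

theorem CB_self (E : ℕ) (x : ℕ → ℝ) (n : ℕ) : CB E x x n = CC E x n := rfl

theorem CB_comm (E : ℕ) (x y : ℕ → ℝ) (n : ℕ) : CB E x y n = CB E y x n := by
  unfold CB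
  apply Finset.sum_congr rfl
  intro j _
  congr 1
  refine Finset.sum_bij (fun q _ => q.swap) ?_ ?_ ?_ ?_
  · intro q hq
    exact Nat.swap_mem_divisorsAntidiagonal.mpr hq
  · intro a _ b _ h
    exact Prod.swap_injective h
  · intro q hq
    exact ⟨q.swap, Nat.swap_mem_divisorsAntidiagonal.mpr hq, Prod.swap_swap q⟩
  · intro q _
    simp only [Prod.fst_swap, Prod.snd_swap]
    ring

theorem CB_add_right (E : ℕ) (x y z : ℕ → ℝ) (n : ℕ) :
    CB E x (fun e => y e + z e) n = CB E x y n + CB E x z n := by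
  unfold CB
  rw [← Finset.sum_add_distrib]
  apply Finset.sum_congr rfl
  intro j _
  rw [← mul_add, ← Finset.sum_add_distrib]
  congr 1
  apply Finset.sum_congr rfl
  intro q _
  ring

theorem CB_smul_right (E : ℕ) (x y : ℕ → ℝ) (c : ℝ) (n : ℕ) :
    CB E x (fun e => c * y e) n = c * CB E x y n := by
  unfold CB
  rw [Finset.mul_sum]
  apply Finset.sum_congr rfl
  intro j _
  have h1 : ∑ p ∈ n.divisorsAntidiagonal, x (j * p.1) * (c * y (j * p.2)) / n =
      c * ∑ p ∈ n.divisorsAntidiagonal, x (j * p.1) * y (j * p.2) / n := by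
    rw [Finset.mul_sum]
    apply Finset.sum_congr rfl
    intro q _
    ring
  rw [h1]
  ring

theorem CB_sum_right (E : ℕ) {ι : Type*} (s : Finset ι) (x : ℕ → ℝ) (b : ι → ℝ) (y : ι → ℕ → ℝ)
    (n : ℕ) : CB E x (fun e => ∑ i ∈ s, b i * y i e) n = ∑ i ∈ s, b i * CB E x (y i) n := by
  classical
  induction s using Finset.induction_on with
  | empty => simp [CB]
  | insert i s hi ih =>
    rw [Finset.sum_insert hi, ← ih, ← CB_smul_right, ← CB_add_right]
    congr 1
    funext e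
    rw [Finset.sum_insert hi]

theorem CB_add_left (E : ℕ) (x y z : ℕ → ℝ) (n : ℕ) :
    CB E (fun e => x e + y e) z n = CB E x z n + CB E y z n := by
  rw [CB_comm, CB_add_right, CB_comm E z x, CB_comm E z y]

theorem CB_smul_left (E : ℕ) (x y : ℕ → ℝ) (c : ℝ) (n : ℕ) :
    CB E (fun e => c * x e) y n = c * CB E x y n := by
  rw [CB_comm, CB_smul_right, CB_comm E y x]

theorem CB_sum_left (E : ℕ) {ι : Type*} (s : Finset ι) (y : ℕ → ℝ) (b : ι → ℝ) (x : ι → ℕ → ℝ)
    (n : ℕ) : CB E (fun e => ∑ i ∈ s, b i * x i e) y n = ∑ i ∈ s, b i * CB E (x i) y n := by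
  rw [CB_comm, CB_sum_right]
  exact Finset.sum_congr rfl fun i _ => by rw [CB_comm]

/-- only products of two elements of the supports contribute -/
theorem CB_supp {E E₁ E₂ : ℕ} {x y : ℕ → ℝ} (hx : ∀ e, E₁ < e → x e = 0)
    (hy : ∀ e, E₂ < e → y e = 0) {n : ℕ} (hn : E₁ * E₂ < n) : CB E x y n = 0 := by
  unfold CB
  apply Finset.sum_eq_zero
  intro j hj
  rw [Finset.mem_Icc] at hj
  rw [Finset.sum_eq_zero, mul_zero]
  intro q hq
  rw [Nat.mem_divisorsAntidiagonal] at hq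
  by_cases h1 : E₁ < j * q.1
  · rw [hx _ h1]; simp
  by_cases h2 : E₂ < j * q.2
  · rw [hy _ h2]; simp
  exfalso
  have h3 : q.1 ≤ E₁ := le_trans (Nat.le_mul_of_pos_left q.1 hj.1) (not_lt.mp h1)
  have h4 : q.2 ≤ E₂ := le_trans (Nat.le_mul_of_pos_left q.2 hj.1) (not_lt.mp h2)
  have h5 := Nat.mul_le_mul h3 h4
  rw [hq.1] at h5
  omega

/-- the number of values of the common factor does not matter -/
theorem CB_range {E E' : ℕ} {x y : ℕ → ℝ} (hE : E ≤ E') (hx : ∀ e, E < e → x e = 0) (n : ℕ) :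
    CB E' x y n = CB E x y n := by
  unfold CB
  symm
  apply Finset.sum_subset (Finset.Icc_subset_Icc_right hE)
  intro j hj hj'
  rw [Finset.mem_Icc] at hj hj'
  rw [Finset.sum_eq_zero, mul_zero]
  intro q hq
  rw [Nat.mem_divisorsAntidiagonal] at hq
  have hq1 : 1 ≤ q.1 := Nat.one_le_iff_ne_zero.mpr (by
    rintro h0
    rw [h0, zero_mul] at hq
    exact hq.2 hq.1.symm)
  have : E < j * q.1 := lt_of_lt_of_le (by omega : E < j) (Nat.le_mul_of_pos_right j hq1)
  rw [hx _ this]; simp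

/-! ## the Hecke operator -/

theorem Tp_add (p : ℕ) (y z : ℕ → ℝ) (e : ℕ) :
    Tp p (fun e => y e + z e) e = Tp p y e + Tp p z e := by
  unfold Tp; split_ifs <;> ring

theorem Tp_smul (p : ℕ) (y : ℕ → ℝ) (c : ℝ) (e : ℕ) :
    Tp p (fun e => c * y e) e = c * Tp p y e := by
  unfold Tp; split_ifs <;> ring

theorem Tp_supp {p E : ℕ} (hp : 0 < p) {y : ℕ → ℝ} (hy : ∀ e, E < e → y e = 0) {e : ℕ}
    (he : p * E < e) : Tp p y e = 0 := by
  unfold Tp
  have h1 : E < p * e := by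
    calc E ≤ p * E := Nat.le_mul_of_pos_left E hp
      _ < e := he
      _ ≤ p * e := Nat.le_mul_of_pos_left e hp
  rw [hy _ h1]
  split_ifs with h
  · obtain ⟨d, rfl⟩ := h
    rw [Nat.mul_div_cancel_left d hp, hy d (lt_of_mul_lt_mul_left he (Nat.zero_le p))]
    simp
  · simp

/-- summation over the support of `T_p y` -/
theorem Tp_sum {p E : ℕ} (hp : 0 < p) {y : ℕ → ℝ} (hy : ∀ e, E < p * e → y e = 0)
    (F : ℕ → ℝ) : ∑ e ∈ Icc 1 E, Tp p y e * F e =
      ∑ d ∈ Icc 1 E, y d * (F (p * d) + (if p ∣ d then F (d / p) else 0) / p) := by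
  have h1 : ∑ e ∈ Icc 1 E, (if p ∣ e then y (e / p) else 0) * F e =
      ∑ d ∈ Icc 1 E, y d * F (p * d) := by
    rw [show ∑ e ∈ Icc 1 E, (if p ∣ e then y (e / p) else 0) * F e =
      ∑ e ∈ (Icc 1 E).filter (fun e => p ∣ e), y (e / p) * F e by
        rw [Finset.sum_filter]
        apply Finset.sum_congr rfl
        intro e _
        split_ifs <;> simp]
    rw [show ∑ d ∈ Icc 1 E, y d * F (p * d) =
      ∑ d ∈ (Icc 1 E).filter (fun d => p * d ≤ E), y d * F (p * d) by
        rw [Finset.sum_filter]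
        apply Finset.sum_congr rfl
        intro d _
        split_ifs with h
        · rfl
        · rw [hy d (not_le.mp h), zero_mul]]
    symm
    refine Finset.sum_bij (fun d _ => p * d) ?_ ?_ ?_ ?_
    · intro d hd
      rw [Finset.mem_filter, Finset.mem_Icc] at hd ⊢
      exact ⟨⟨Nat.mul_pos hp hd.1.1, hd.2⟩, Dvd.intro _ rfl⟩
    · intro a _ b _ h
      exact Nat.eq_of_mul_eq_mul_left hp h
    · intro e he
      rw [Finset.mem_filter, Finset.mem_Icc] at he
      obtain ⟨⟨h5, h6⟩, i, rfl⟩ := he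
      refine ⟨i, ?_, rfl⟩
      rw [Finset.mem_filter, Finset.mem_Icc]
      have hi : 1 ≤ i := Nat.one_le_iff_ne_zero.mpr (by rintro rfl; simp at h5)
      exact ⟨⟨hi, le_trans (Nat.le_mul_of_pos_left i hp) h6⟩, h6⟩
    · intro d _
      rw [Nat.mul_div_cancel_left _ hp]
  have h2 : ∑ e ∈ Icc 1 E, y (p * e) / p * F e =
      ∑ d ∈ Icc 1 E, y d * ((if p ∣ d then F (d / p) else 0) / p) := by
    rw [show ∑ d ∈ Icc 1 E, y d * ((if p ∣ d then F (d / p) else 0) / p) =
      ∑ d ∈ (Icc 1 E).filter (fun d => p ∣ d), y d * (F (d / p) / p) by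
        rw [Finset.sum_filter]
        apply Finset.sum_congr rfl
        intro e _
        split_ifs <;> simp]
    rw [show ∑ e ∈ Icc 1 E, y (p * e) / p * F e =
      ∑ e ∈ (Icc 1 E).filter (fun e => p * e ≤ E), y (p * e) / p * F e by
        rw [Finset.sum_filter]
        apply Finset.sum_congr rfl
        intro e _
        split_ifs with h
        · rfl
        · have h3 : E < p * (p * e) :=
            lt_of_lt_of_le (not_le.mp h) (Nat.le_mul_of_pos_left _ hp)
          rw [hy _ h3]; simp]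
    refine Finset.sum_bij (fun e _ => p * e) ?_ ?_ ?_ ?_
    · intro d hd
      rw [Finset.mem_filter, Finset.mem_Icc] at hd ⊢
      exact ⟨⟨Nat.mul_pos hp hd.1.1, hd.2⟩, Dvd.intro _ rfl⟩
    · intro a _ b _ h
      exact Nat.eq_of_mul_eq_mul_left hp h
    · intro e he
      rw [Finset.mem_filter, Finset.mem_Icc] at he
      obtain ⟨⟨h5, h6⟩, i, rfl⟩ := he
      refine ⟨i, ?_, rfl⟩
      rw [Finset.mem_filter, Finset.mem_Icc]
      have hi : 1 ≤ i := Nat.one_le_iff_ne_zero.mpr (by rintro rfl; simp at h5)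
      exact ⟨⟨hi, le_trans (Nat.le_mul_of_pos_left i hp) h6⟩, h6⟩
    · intro d _
      rw [Nat.mul_div_cancel_left _ hp]
      ring
  have h3 : ∀ e, Tp p y e * F e = (if p ∣ e then y (e / p) else 0) * F e + y (p * e) / p * F e := by
    intro e; unfold Tp; ring
  rw [Finset.sum_congr rfl (fun e _ => h3 e), Finset.sum_add_distrib, h1, h2,
    ← Finset.sum_add_distrib]
  exact Finset.sum_congr rfl fun d _ => by ring

/-- the mollifier of `T_p y` -/
theorem MX_Tp {p E : ℕ} (hp : p.Prime) {y : ℕ → ℝ} (hy : ∀ e, E < p * e → y e = 0)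
    (la : ℕ → ℝ) : MX E (Tp p y) la = la p / Real.sqrt p * MX E y la := by
  have hp0 : 0 < p := hp.pos
  have hpr : (0 : ℝ) < p := by exact_mod_cast hp0
  have hs : (0 : ℝ) < Real.sqrt p := Real.sqrt_pos.mpr hpr
  have h := Tp_sum hp0 hy (fun e => Um e la / Real.sqrt e)
  unfold MX
  rw [Finset.sum_congr rfl (fun e _ => by ring : ∀ e ∈ Icc 1 E,
    Tp p y e / Real.sqrt e * Um e la = Tp p y e * (Um e la / Real.sqrt e)), h, Finset.mul_sum]
  apply Finset.sum_congr rfl
  intro d hd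
  rw [Finset.mem_Icc] at hd
  have hdr : (0 : ℝ) < d := by exact_mod_cast hd.1
  have hsd : (0 : ℝ) < Real.sqrt d := Real.sqrt_pos.mpr hdr
  have h2 : la p / Real.sqrt p * (y d / Real.sqrt d * Um d la) =
      y d / Real.sqrt d / Real.sqrt p * (la p * Um d la) := by ring
  rw [h2, HPO_rec hp hd.1 la]
  have h3 : Real.sqrt ((p * d : ℕ) : ℝ) = Real.sqrt p * Real.sqrt d := by
    push_cast
    exact Real.sqrt_mul hpr.le _
  rw [h3]
  split_ifs with h4
  · obtain ⟨c, rfl⟩ := h4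
    rw [Nat.mul_div_cancel_left c hp0]
    have hc : (0 : ℝ) < c := by
      have : 0 < c := Nat.pos_of_ne_zero (by rintro rfl; simp at hd)
      exact_mod_cast this
    have hsc : (0 : ℝ) < Real.sqrt c := Real.sqrt_pos.mpr hc
    have h5 : Real.sqrt ((p * c : ℕ) : ℝ) = Real.sqrt p * Real.sqrt c := by
      push_cast
      exact Real.sqrt_mul hpr.le _
    rw [h5]
    have h6 : (p : ℝ) = Real.sqrt p * Real.sqrt p := (Real.mul_self_sqrt hpr.le).symm
    field_simp
    rw [← pow_two] at h6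
    rw [← h6]
    ring
  · field_simp
    ring

theorem sg1_rec {p : ℕ} (hp : p.Prime) {m : ℕ} (hm : 0 < m) :
    (p + 1 : ℝ) * sg1 m = sg1 (p * m) + p * (if p ∣ m then sg1 (m / p) else 0) := by
  have h1 : ∀ k : ℕ, sg1 k = ((ArithmeticFunction.sigma 1 k : ℕ) : ℝ) := by
    intro k
    unfold sg1
    rw [ArithmeticFunction.sigma_one_apply]
    push_cast
    rfl
  have hmul : ∀ {m n : ℕ}, m.Coprime n → sg1 (m * n) = sg1 m * sg1 n := by
    intro m n h
    rw [h1, h1, h1, ArithmeticFunction.isMultiplicative_sigma.map_mul_of_coprime h]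
    push_cast
    rfl
  have hpow : ∀ k : ℕ, sg1 (p ^ (k + 1)) = sg1 (p ^ k) + (p : ℝ) ^ (k + 1) := by
    intro k
    unfold sg1
    rw [Nat.divisors_prime_pow hp, Nat.divisors_prime_pow hp, Finset.sum_map, Finset.sum_map,
      Finset.sum_range_succ]
    simp
  have hpow' : ∀ k : ℕ, sg1 (p ^ (k + 1)) = 1 + p * sg1 (p ^ k) := by
    intro k
    induction k with
    | zero =>
      rw [hpow 0]
      simp [sg1]
    | succ k ih =>
      have h7 := hpow k
      have h8 := hpow (k + 1)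
      have : (p : ℝ) ^ (k + 1 + 1) = p * p ^ (k + 1) := by ring
      rw [h8, this]
      nlinarith [ih, h7]
  obtain ⟨k, n, hn, rfl⟩ : ∃ k n : ℕ, ¬ p ∣ n ∧ m = p ^ k * n := by
    obtain ⟨k, n, h1, h2⟩ := Nat.exists_eq_pow_mul_and_not_dvd hm.ne' p hp.ne_one
    exact ⟨k, n, h1, h2⟩
  have hcop : ∀ j : ℕ, (p ^ j).Coprime n := fun j =>
    Nat.Coprime.pow_left j ((Nat.Prime.coprime_iff_not_dvd hp).2 hn)
  have e1 : p * (p ^ k * n) = p ^ (k + 1) * n := by ring
  rw [e1, hmul (hcop k), hmul (hcop (k + 1))]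
  rcases k with _ | k
  · rw [if_neg (by simpa using hn), hpow' 0]
    have h9 : sg1 (p ^ 0) = 1 := by simp [sg1]
    rw [h9]
    ring
  · have e2 : p ^ (k + 1) * n / p = p ^ k * n := by
      rw [pow_succ, mul_assoc, mul_comm p n, ← mul_assoc, Nat.mul_div_cancel _ hp.pos]
    rw [if_pos (Dvd.dvd.mul_right (dvd_pow_self p (Nat.succ_ne_zero k)) n), e2, hmul (hcop k),
      hpow' (k + 1), hpow' k]
    ring

/-- the zero mode of `T_p y` -/
theorem zero_Tp {p E : ℕ} (hp : p.Prime) {y : ℕ → ℝ} (hy : ∀ e, E < p * e → y e = 0) :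
    ∑ e ∈ Icc 1 E, Tp p y e * sg1 e / e = (1 + 1 / p) * ∑ e ∈ Icc 1 E, y e * sg1 e / e := by
  have hp0 : 0 < p := hp.pos
  have hpr : (p : ℝ) ≠ 0 := by exact_mod_cast hp0.ne'
  have h := Tp_sum hp0 hy (fun e => sg1 e / e)
  rw [Finset.sum_congr rfl (fun e _ => by ring : ∀ e ∈ Icc 1 E,
    Tp p y e * sg1 e / e = Tp p y e * (sg1 e / e)), h, Finset.mul_sum]
  apply Finset.sum_congr rfl
  intro d hd
  rw [Finset.mem_Icc] at hd
  have hdr : (d : ℝ) ≠ 0 := by exact_mod_cast (by omega : d ≠ 0)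
  have h2 : (1 + 1 / (p : ℝ)) * (y d * sg1 d / d) = y d / (p * d) * ((p + 1) * sg1 d) := by
    field_simp
  rw [h2, sg1_rec hp hd.1]
  push_cast
  split_ifs with h4
  · obtain ⟨c, rfl⟩ := h4
    rw [Nat.mul_div_cancel_left c hp0]
    have hc : (c : ℝ) ≠ 0 := by
      have : 0 < c := Nat.pos_of_ne_zero (by rintro rfl; simp at hd)
      exact_mod_cast this.ne'
    push_cast
    field_simp
  · field_simp
    ring

theorem CB_Tp_left {E p : ℕ} (hp : p.Prime) (x y : ℕ → ℝ) (hy : ∀ e, E < e → y e = 0) (n : ℕ) :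
    CB E (Tp p x) y n = (if p ∣ n then CB E x y (n / p) else 0) / p + CB E x y (p * n) := by
  rw [CB_comm, CB_Tp hp y x hy, CB_comm E y x (p * n)]
  split_ifs with h
  · rw [CB_comm E y x]
  · rfl

/-- the bilinear coefficients of `T_p x` and `T_q y` -/
theorem CB_Tp_Tp {E p q : ℕ} (hp : p.Prime) (hq : q.Prime) (x y : ℕ → ℝ)
    (hx : ∀ e, E < p * e → x e = 0) (hy : ∀ e, E < e → y e = 0) (n : ℕ) :
    CB E (Tp p x) (Tp q y) n =
      (if q ∣ n then (if p ∣ n / q then CB E x y (n / q / p) else 0) / p + CB E x y (p * (n / q))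
        else 0) / q + ((if p ∣ q * n then CB E x y (q * n / p) else 0) / p +
          CB E x y (p * (q * n))) := by
  have hx' : ∀ e, E < e → Tp p x e = 0 := by
    intro e he
    unfold Tp
    have h1 : E < p * (p * e) := by
      calc E < e := he
        _ ≤ p * e := Nat.le_mul_of_pos_left e hp.pos
        _ ≤ p * (p * e) := Nat.le_mul_of_pos_left _ hp.pos
    rw [hx _ h1]
    split_ifs with h
    · obtain ⟨d, rfl⟩ := h
      rw [Nat.mul_div_cancel_left d hp.pos, hx d he]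
      simp
    · simp
  rw [CB_Tp hq _ y hx', CB_Tp_left hp x y hy, CB_Tp_left hp x y hy]

end Pool.Agent.LSP
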