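import Pool.Agent.Lib_helper98.HK.A2

/-! LSP2, module HK: the weights of `T_p y`, linearity. -/

namespace Pool.Agent.LSP

open Finset
open Pool.Agent.LEV Pool.Agent.KSL
open Pool.Agent.FG61 (mu phi cc ff AA Lam)

theorem tau_rec {p : ℕ} (hp : p.Prime) {m : ℕ} (hm : 0 < m) :
    2 * tau m = tau (p * m) + (if p ∣ m then tau (m / p) else 0) := by
  have hmul : ∀ {m n : ℕ}, m.Coprime n → tau (m * n) = tau m * tau n := by
    intro m n h
    unfold tau
    rw [h.card_divisors_mul]
    push_cast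
    rfl
  have hpow : ∀ k : ℕ, tau (p ^ k) = k + 1 := by
    intro k
    unfold tau
    rw [Nat.divisors_prime_pow hp]
    simp
  obtain ⟨k, n, hn, rfl⟩ : ∃ k n : ℕ, ¬ p ∣ n ∧ m = p ^ k * n := by
    obtain ⟨k, n, h1, h2⟩ := Nat.exists_eq_pow_mul_and_not_dvd hm.ne' p hp.ne_one
    exact ⟨k, n, h1, h2⟩
  have hcop : ∀ j : ℕ, (p ^ j).Coprime n := fun j =>
    Nat.Coprime.pow_left j ((Nat.Prime.coprime_iff_not_dvd hp).2 hn)
  have e1 : p * (p ^ k * n) = p ^ (k + 1) * n := by ring
  rw [e1, hmul (hcop k), hmul (hcop (k + 1)), hpow, hpow]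
  rcases k with _ | k
  · rw [if_neg (by simpa using hn)]
    push_cast
    ring
  · have e2 : p ^ (k + 1) * n / p = p ^ k * n := by
      rw [pow_succ, mul_assoc, mul_comm p n, ← mul_assoc, Nat.mul_div_cancel _ hp.pos]
    rw [if_pos (Dvd.dvd.mul_right (dvd_pow_self p (Nat.succ_ne_zero k)) n), e2, hmul (hcop k),
      hpow]
    push_cast
    ring

theorem wX_add (E : ℕ) (x y : ℕ → ℝ) (q : ℕ) :
    wX E (fun e => x e + y e) q = wX E x q + wX E y q := by
  unfold wX
  rw [← Finset.sum_add_distrib]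
  exact Finset.sum_congr rfl fun e _ => by ring

theorem wX_smul (E : ℕ) (x : ℕ → ℝ) (c : ℝ) (q : ℕ) :
    wX E (fun e => c * x e) q = c * wX E x q := by
  unfold wX
  rw [Finset.mul_sum]
  exact Finset.sum_congr rfl fun e _ => by ring

theorem wX_sum (E : ℕ) {ι : Type*} (s : Finset ι) (b : ι → ℝ) (x : ι → ℕ → ℝ) (q : ℕ) :
    wX E (fun e => ∑ i ∈ s, b i * x i e) q = ∑ i ∈ s, b i * wX E (x i) q := by
  classical
  induction s using Finset.induction_on with
  | empty => simp [wX]
  | insert i s hi ih =>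
    rw [Finset.sum_insert hi, ← ih, ← wX_smul, ← wX_add]
    congr 1
    funext e
    rw [Finset.sum_insert hi]

theorem WW_add (E : ℕ) (w v : ℕ → ℝ) (n : ℕ) :
    WW E (fun q => w q + v q) n = WW E w n + WW E v n := by
  unfold WW
  rw [← Finset.sum_add_distrib]
  exact Finset.sum_congr rfl fun e _ => by ring

theorem WW_smul (E : ℕ) (w : ℕ → ℝ) (c : ℝ) (n : ℕ) :
    WW E (fun q => c * w q) n = c * WW E w n := by
  unfold WW
  rw [Finset.mul_sum]
  exact Finset.sum_congr rfl fun e _ => by ring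

theorem MX_add (E : ℕ) (x y : ℕ → ℝ) (la : ℕ → ℝ) :
    MX E (fun e => x e + y e) la = MX E x la + MX E y la := by
  unfold MX
  rw [← Finset.sum_add_distrib]
  exact Finset.sum_congr rfl fun e _ => by ring

theorem MX_smul (E : ℕ) (x : ℕ → ℝ) (c : ℝ) (la : ℕ → ℝ) :
    MX E (fun e => c * x e) la = c * MX E x la := by
  unfold MX
  rw [Finset.mul_sum]
  exact Finset.sum_congr rfl fun e _ => by ring

theorem MX_sum (E : ℕ) {ι : Type*} (s : Finset ι) (b : ι → ℝ) (x : ι → ℕ → ℝ) (la : ℕ → ℝ) :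
    MX E (fun e => ∑ i ∈ s, b i * x i e) la = ∑ i ∈ s, b i * MX E (x i) la := by
  classical
  induction s using Finset.induction_on with
  | empty => simp [MX]
  | insert i s hi ih =>
    rw [Finset.sum_insert hi, ← ih, ← MX_smul, ← MX_add]
    congr 1
    funext e
    rw [Finset.sum_insert hi]

/-- the weights of `T_p y` -/
theorem wX_Tp {p E : ℕ} (hp : p.Prime) {y : ℕ → ℝ} (hy : ∀ e, E < p * e → y e = 0) {q : ℕ}
    (hq : 1 ≤ q) : wX E (Tp p y) q =
      if p ∣ q then wX E y (q / p) / p + wX E y (p * q)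
      else 2 / p * wX E y q + (1 - 1 / p) * wX E y (p * q) := by
  have hp0 : 0 < p := hp.pos
  have hpr : (p : ℝ) ≠ 0 := by exact_mod_cast hp0.ne'
  have hw : ∀ (v : ℕ → ℝ) (r : ℕ), wX E v r =
      ∑ e ∈ Icc 1 E, v e * (if r ∣ e then tau (e / r) / e else 0) := by
    intro v r
    unfold wX
    rw [Finset.sum_filter]
    apply Finset.sum_congr rfl
    intro e _
    split_ifs <;> ring
  rw [hw (Tp p y) q, Tp_sum hp0 hy (fun e => if q ∣ e then tau (e / q) / (e : ℝ) else 0)]
  simp only [hw]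
  split_ifs with hpq
  · obtain ⟨r, rfl⟩ := hpq
    rw [Nat.mul_div_cancel_left r hp0]
    have hr : 1 ≤ r := Nat.one_le_iff_ne_zero.mpr (by rintro rfl; simp at hq)
    rw [Finset.sum_div, ← Finset.sum_add_distrib]
    apply Finset.sum_congr rfl
    intro d hd
    rw [Finset.mem_Icc] at hd
    have hd0 : (d : ℝ) ≠ 0 := by exact_mod_cast (by omega : d ≠ 0)
    have e1 : (if p * r ∣ p * d then tau (p * d / (p * r)) / ((p * d : ℕ) : ℝ) else 0) =
        (if r ∣ d then tau (d / r) / (d : ℝ) else 0) / p := by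
      by_cases h : r ∣ d
      · rw [if_pos (Nat.mul_dvd_mul_left p h), if_pos h, Nat.mul_div_mul_left _ _ hp0]
        push_cast
        rw [div_div, mul_comm (p : ℝ)]
      · rw [if_neg h, if_neg (fun h' => h (Nat.dvd_of_mul_dvd_mul_left hp0 h'))]
        simp
    have e2 : (if p ∣ d then (if p * r ∣ d / p then tau (d / p / (p * r)) / ((d / p : ℕ) : ℝ)
        else 0) else 0) / p = (if p * (p * r) ∣ d then tau (d / (p * (p * r))) / (d : ℝ) else 0) := by
      by_cases h : p ∣ d
      · rw [if_pos h]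
        obtain ⟨c, rfl⟩ := h
        have hc : (c : ℝ) ≠ 0 := by
          have : c ≠ 0 := by rintro rfl; simp at hd
          exact_mod_cast this
        rw [Nat.mul_div_cancel_left c hp0]
        by_cases h2 : p * r ∣ c
        · rw [if_pos h2, if_pos (Nat.mul_dvd_mul_left p h2), Nat.mul_div_mul_left _ _ hp0]
          push_cast
          rw [div_div, mul_comm (c : ℝ)]
        · rw [if_neg h2, if_neg (fun h' => h2 (Nat.dvd_of_mul_dvd_mul_left hp0 h'))]
          simp
      · rw [if_neg h, if_neg (fun h' => h (Dvd.dvd.trans (Dvd.intro _ rfl) h'))]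
        simp
    rw [e1, e2]
    ring
  · rw [Finset.mul_sum, Finset.mul_sum, ← Finset.sum_add_distrib]
    apply Finset.sum_congr rfl
    intro d hd
    rw [Finset.mem_Icc] at hd
    have hd0 : (d : ℝ) ≠ 0 := by exact_mod_cast (by omega : d ≠ 0)
    have hco : Nat.Coprime q p := ((Nat.Prime.coprime_iff_not_dvd hp).2 hpq).symm
    by_cases h : q ∣ d
    · obtain ⟨m, rfl⟩ := h
      have hm : 0 < m := Nat.pos_of_ne_zero (by rintro rfl; simp at hd)
      have hmr : (m : ℝ) ≠ 0 := by exact_mod_cast hm.ne'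
      have hqr : (q : ℝ) ≠ 0 := by exact_mod_cast (by omega : q ≠ 0)
      have e1 : p * (q * m) = q * (p * m) := by ring
      rw [if_pos (by rw [e1]; exact Dvd.intro _ rfl), if_pos (Dvd.intro _ rfl), e1,
        Nat.mul_div_cancel_left _ (by omega : 0 < q), Nat.mul_div_cancel_left _ (by omega : 0 < q)]
      have ht := tau_rec hp hm
      by_cases h2 : p ∣ m
      · obtain ⟨c, rfl⟩ := h2
        have hc0 : 0 < c := Nat.pos_of_ne_zero (by rintro rfl; simp at hm)
        have hcr : (c : ℝ) ≠ 0 := by exact_mod_cast hc0.ne'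
        have e2 : q * (p * c) = p * (q * c) := by ring
        rw [if_pos (Dvd.intro _ rfl), Nat.mul_div_cancel_left _ hp0] at ht
        rw [if_pos (by rw [e2]; exact Dvd.intro _ rfl), if_pos (by
          rw [e2, Nat.mul_div_cancel_left _ hp0]; exact Dvd.intro _ rfl), if_pos (by
          rw [e2, ← mul_assoc]; exact Dvd.intro _ rfl)]
        have e3 : q * (p * c) / p / q = c := by
          rw [e2, Nat.mul_div_cancel_left _ hp0, Nat.mul_div_cancel_left _ (by omega : 0 < q)]
        have e4 : q * (p * c) / (p * q) = c := by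
          rw [e2, ← mul_assoc, Nat.mul_div_cancel_left _ (Nat.mul_pos hp0 (by omega : 0 < q))]
        have e5 : q * (p * c) / p = q * c := by rw [e2, Nat.mul_div_cancel_left _ hp0]
        rw [e3, e4, e5]
        have ht' : tau (p * (p * c)) = 2 * tau (p * c) - tau c := by linarith
        rw [ht']
        push_cast
        field_simp
        ring
      · have h3 : ¬ p ∣ q * m := fun h' => (hp.dvd_mul.mp h').elim hpq h2
        rw [if_neg h2] at ht
        rw [if_neg h3, if_neg (fun h' => h3 (Dvd.dvd.trans (Dvd.intro _ rfl) h'))]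
        have ht' : tau (p * m) = 2 * tau m := by linarith
        rw [ht']
        push_cast
        field_simp
        ring
    · have h4 : ¬ q ∣ p * d := fun h' => h (hco.dvd_of_dvd_mul_left h')
      have h5 : ¬ p * q ∣ d := fun h' => h (Dvd.dvd.trans (Dvd.intro_left _ rfl) h')
      rw [if_neg h4, if_neg h, if_neg h5]
      by_cases h6 : p ∣ d
      · rw [if_pos h6, if_neg (fun h' => h (Dvd.dvd.trans h' (Nat.div_dvd_of_dvd h6)))]
        simp
      · rw [if_neg h6]
        simp

end Pool.Agent.LSP
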