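import Pool.Agent.Lib_helper98.HK.A2
import Pool.Agent.Lib_helper41.LSPG.KFA

/-! LSP2, module HK: the off-diagonals of the companions vanish. -/

namespace Pool.Agent.LSP

open Finset
open Pool.Agent.LEV Pool.Agent.KSL
open Pool.Agent.FG61 (mu phi cc ff AA Lam)

/-- Hecke relation for the coefficients of a product -/
theorem cb_tp_pr {E : ℕ} {x y : ℕ → ℝ} (hx : ∀ e, x e ≠ 0 → 1 ≤ e ∧ e ≤ E) {p : ℕ} (hp : p.Prime)
    {n : ℕ} (_hn : 1 ≤ n) :
    CB E x (Tp p y) n = (if p ∣ n then CB E x y (n / p) / p else 0) + CB E x y (p * n) := by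
  rw [CB_Tp hp x y (fun e he => by
    by_contra h
    exact absurd (hx e h).2 (not_le.mpr he))]
  congr 1
  split_ifs <;> simp

theorem cb_symm_pr (E : ℕ) (x y : ℕ → ℝ) (n : ℕ) : CB E x y n = CB E y x n := CB_comm E x y n

/-- coefficients which are not seen by the kernel -/
theorem hk_odg {T : ℝ} {ρ : ℝ → ℝ} (hρ : KerL T ρ) {B : ℕ} (hB : 1 + T ^ 2 ≤ (B : ℝ)) {Q : ℕ}
    {S : Finset ℤ} (hS : ∀ g ∈ S, g ≠ 0) {C C' : ℕ → ℝ} {N : ℕ}
    (h : ∀ n, 1 ≤ n → C n ≠ C' n → n * B < N) :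
    LSPO.ODg C (GG ρ) Q S N = LSPO.ODg C' (GG ρ) Q S N := by
  unfold LSPO.ODg
  congr 1
  apply Finset.sum_congr rfl
  intro n hn
  rw [Finset.mem_Icc] at hn
  by_cases hc : C n = C' n
  · rw [hc]
  · have h1 := h n hn.1 hc
    have h2 : ∑ g ∈ S, LSPO.tau g.natAbs * LSPO.tau ((n : ℤ) - g * N).natAbs *
        GG ρ ((g : ℝ) * N / n) = 0 := by
      apply Finset.sum_eq_zero
      intro g hg
      have hnr : (0 : ℝ) < n := by exact_mod_cast hn.1
      have hg1 : (1 : ℝ) ≤ |(g : ℝ)| := by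
        have : (1 : ℤ) ≤ |g| := Int.one_le_abs (hS g hg)
        exact_mod_cast this
      have h3 : 1 + T ^ 2 < |(g : ℝ) * N / n| := by
        rw [abs_div, abs_mul, abs_of_pos hnr, Nat.abs_cast, lt_div_iff₀ hnr]
        have h4 : ((n * B : ℕ) : ℝ) < N := by exact_mod_cast h1
        push_cast at h4
        calc (1 + T ^ 2) * n ≤ B * n := mul_le_mul_of_nonneg_right hB hnr.le
          _ = n * B := mul_comm _ _
          _ < N := h4
          _ ≤ |(g : ℝ)| * N := le_mul_of_one_le_left (Nat.cast_nonneg N) hg1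
      rw [gg_supp hρ h3, mul_zero]
    rw [h2, mul_zero, mul_zero]

theorem hk_Gs {B E : ℕ} {g : ℤ} (hg : g ∈ Gs B E) : g ≠ 0 := by
  unfold Gs at hg
  exact Finset.ne_of_mem_erase hg

theorem hk_odg_zero {G : ℝ → ℝ} {Q : ℕ} {S : Finset ℤ} {N : ℕ} :
    LSPO.ODg (fun _ => 0) G Q S N = 0 := by
  unfold LSPO.ODg
  simp

/-- no off-diagonal for short vectors -/
theorem od_zero_pr {T : ℝ} {ρ : ℝ → ℝ} (hρ : KerL T ρ) {B : ℕ} (hB : 1 + T ^ 2 ≤ (B : ℝ)) {E : ℕ}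
    {x y : ℕ → ℝ} {N : ℕ} (h : ∀ n, CB E x y n ≠ 0 → n * B < N) : ODB ρ B E x y N = 0 := by
  unfold ODB
  rw [hk_odg hρ hB (fun g hg => hk_Gs hg) (C' := fun _ => 0) (fun n _ hn => h n hn)]
  exact hk_odg_zero

theorem hk_YT (P : Finset ℕ) (θ y : ℕ → ℝ) : YT P θ y = fun e => ∑ p ∈ P, θ p * Tp p y e := rfl

theorem od_cross_pr {T : ℝ} {ρ : ℝ → ℝ} (hρ : KerL T ρ) {B : ℕ} (hB : 1 + T ^ 2 ≤ (B : ℝ)) {E : ℕ}
    {x y : ℕ → ℝ} (hx : ∀ e, x e ≠ 0 → 1 ≤ e ∧ e ≤ E) {P : Finset ℕ} (hP : ∀ p ∈ P, p.Prime)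
    (θ : ℕ → ℝ) {N : ℕ} (h : ∀ n, ∀ p ∈ P, CB E x y (p * n) ≠ 0 → n * B < N) :
    ODB ρ B E x (YT P θ y) N =
      LSPO.ODg (CY P θ (CB E x y)) (GG ρ) (E ^ 2) (Gs B E) N := by
  unfold ODB
  apply hk_odg hρ hB (fun g hg => hk_Gs hg)
  intro n hn hne
  rw [hk_YT, CB_sum_right] at hne
  have h1 : ∑ p ∈ P, θ p * CB E x (Tp p y) n =
      CY P θ (CB E x y) n + ∑ p ∈ P, θ p * CB E x y (p * n) := by
    unfold CY
    rw [← Finset.sum_add_distrib]
    apply Finset.sum_congr rfl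
    intro p hp
    rw [cb_tp_pr hx (hP p hp) hn]
    split_ifs <;> ring
  rw [h1] at hne
  have h2 : ∑ p ∈ P, θ p * CB E x y (p * n) ≠ 0 := by
    intro h0
    rw [h0, add_zero] at hne
    exact hne rfl
  obtain ⟨p, hp, hp'⟩ := Finset.exists_ne_zero_of_sum_ne_zero h2
  exact h n p hp (right_ne_zero_of_mul hp')

theorem od_quad_pr {T : ℝ} {ρ : ℝ → ℝ} (hρ : KerL T ρ) {B : ℕ} (hB : 1 + T ^ 2 ≤ (B : ℝ)) {E : ℕ}
    {y : ℕ → ℝ} (hy : ∀ e, y e ≠ 0 → 1 ≤ e) {P : Finset ℕ} (hP : ∀ p ∈ P, p.Prime)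
    (hy' : ∀ e, y e ≠ 0 → ∀ p ∈ P, p * e ≤ E)
    (θ : ℕ → ℝ) {N : ℕ} (h : ∀ n, CB E y y n ≠ 0 → ∀ p ∈ P, ∀ q ∈ P, q * n * B < p * N) :
    ODB ρ B E (YT P θ y) (YT P θ y) N =
      LSPO.ODg (CY P θ (CY P θ (CB E y y))) (GG ρ) (E ^ 2) (Gs B E) N := by
  unfold ODB
  apply hk_odg hρ hB (fun g hg => hk_Gs hg)
  intro n hn hne
  rw [hk_YT, CB_sum_right] at hne
  -- the supports
  have hyE : ∀ p ∈ P, ∀ e, E < p * e → y e = 0 := by
    intro p hp e he
    by_contra h1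
    exact absurd (hy' e h1 p hp) (not_le.mpr he)
  have hyE' : P.Nonempty → ∀ e, E < e → y e = 0 := by
    rintro ⟨p, hp⟩ e he
    exact hyE p hp e (lt_of_lt_of_le he (Nat.le_mul_of_pos_left e (hP p hp).pos))
  set c : ℕ → ℝ := CB E y y with hc
  have h1 : ∑ q ∈ P, θ q * CB E (fun e => ∑ p ∈ P, θ p * Tp p y e) (Tp q y) n =
      CY P θ (CY P θ c) n + ∑ q ∈ P, ∑ p ∈ P, θ q * θ p *
        ((if q ∣ n then c (p * (n / q)) else 0) / q +
          ((if p ∣ q * n then c (q * n / p) else 0) / p + c (p * (q * n)))) := by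
    have h2 : CY P θ (CY P θ c) n = ∑ q ∈ P, ∑ p ∈ P, θ q * θ p *
        (if q ∣ n then (if p ∣ n / q then c (n / q / p) else 0) / p / q else 0) := by
      unfold CY
      apply Finset.sum_congr rfl
      intro q _
      split_ifs with h3
      · rw [Finset.mul_sum]
        apply Finset.sum_congr rfl
        intro p _
        split_ifs <;> ring
      · simp
    rw [h2, ← Finset.sum_add_distrib]
    apply Finset.sum_congr rfl
    intro q hq
    rw [CB_sum_left, Finset.mul_sum, ← Finset.sum_add_distrib]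
    apply Finset.sum_congr rfl
    intro p hp
    rw [CB_Tp_Tp (hP p hp) (hP q hq) y y (hyE p hp) (hyE' ⟨p, hp⟩)]
    split_ifs <;> ring
  rw [h1] at hne
  have h2 : ∑ q ∈ P, ∑ p ∈ P, θ q * θ p *
        ((if q ∣ n then c (p * (n / q)) else 0) / q +
          ((if p ∣ q * n then c (q * n / p) else 0) / p + c (p * (q * n)))) ≠ 0 := by
    intro h0
    rw [h0, add_zero] at hne
    exact hne rfl
  obtain ⟨q, hq, h3⟩ := Finset.exists_ne_zero_of_sum_ne_zero h2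
  obtain ⟨p, hp, h4⟩ := Finset.exists_ne_zero_of_sum_ne_zero h3
  have h5 := right_ne_zero_of_mul h4
  have hp0 := (hP p hp).pos
  have hq0 := (hP q hq).pos
  by_contra hcon
  rw [not_lt] at hcon
  apply h5
  have k1 : (if q ∣ n then c (p * (n / q)) else 0) = 0 := by
    split_ifs with h6
    · by_contra h7
      have h8 := h _ h7 p hp q hq
      obtain ⟨m, rfl⟩ := h6
      rw [Nat.mul_div_cancel_left m hq0] at h8
      have h9 : q * (p * m) * B = p * (q * m * B) := by ring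
      rw [h9] at h8
      exact absurd (lt_of_mul_lt_mul_left h8 (Nat.zero_le p)) (not_lt.mpr hcon)
    · rfl
  have k2 : (if p ∣ q * n then c (q * n / p) else 0) = 0 := by
    split_ifs with h6
    · by_contra h7
      have h8 := h _ h7 q hq p hp
      have h9 : p * (q * n / p) * B = q * (n * B) := by
        rw [Nat.mul_div_cancel' h6]; ring
      rw [h9] at h8
      exact absurd (lt_of_mul_lt_mul_left h8 (Nat.zero_le q)) (not_lt.mpr hcon)
    · rfl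
  have k3 : c (p * (q * n)) = 0 := by
    by_contra h7
    have h8 := h _ h7 p hp p hp
    have h9 : p * (p * (q * n)) * B = p * (p * q * (n * B)) := by ring
    rw [h9] at h8
    have h10 := lt_of_mul_lt_mul_left h8 (Nat.zero_le p)
    have h11 : n * B ≤ p * q * (n * B) :=
      Nat.le_mul_of_pos_left _ (Nat.mul_pos hp0 hq0)
    omega
  rw [k1, k2, k3]
  simp

end Pool.Agent.LSP
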