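import Pool.Agent.Lib_helper98.HK.A3
import Pool.Agent.Lib_helper98.HK.A4
import Pool.Agent.Lib_helper41.LSPG.PPL

/-! LSP2, module HK: the quadratic form. -/

namespace Pool.Agent.LSP

open Pool.Agent.LEV Pool.Agent.LVB Pool.Agent.KSL
open Pool.Agent.FG61 (mu phi cc ff AA Lam)
open Complex MeasureTheory Filter Topology UpperHalfPlane ModularGroup ProbabilityTheory
open scoped MatrixGroups Modular ENNReal ModularForm ComplexConjugate ContDiff

/-- the kernel -/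
noncomputable def hkK (ρ : ℝ → ℝ) (n : ℕ) (y : ℝ) : ℝ :=
  ‖kh ρ ((n + 1) * y)‖ ^ 2 + ‖kh ρ (-((n + 1) * y))‖ ^ 2

theorem hk_term {T : ℝ} {ρ : ℝ → ℝ} (hρ : KerL T ρ) : ∃ C : ℝ, 0 < C ∧ ∀ {a : ℕ → ℝ} {M : ℝ},
    0 ≤ M → (∀ n, |a n| ≤ M) → ∀ (n : ℕ) (y : ℝ), 0 < y →
    ‖hkK ρ n y * a (n + 1)‖ ≤ 2 * C ^ 2 * M * (1 / ((n : ℝ) + 1) ^ 2) * (1 / y ^ 2) := by
  obtain ⟨C, hC, -, hd⟩ := kh_dec_pr hρ
  refine ⟨C, hC, fun {a M} hM ha n y hy => ?_⟩
  have hp : 0 < ((n : ℝ) + 1) * y := by positivity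
  have k1 := hd (((n : ℝ) + 1) * y) hp.ne'
  have k2 := hd (-(((n : ℝ) + 1) * y)) (neg_ne_zero.2 hp.ne')
  rw [abs_neg] at k2
  rw [abs_of_pos hp] at k1 k2
  have k3 := pow_le_pow_left₀ (norm_nonneg _) k1 2
  have k4 := pow_le_pow_left₀ (norm_nonneg _) k2 2
  have k5 : 0 ≤ hkK ρ n y := by unfold hkK; positivity
  rw [norm_mul, Real.norm_of_nonneg k5, Real.norm_eq_abs]
  calc hkK ρ n y * |a (n + 1)| ≤
      ((C / (((n : ℝ) + 1) * y)) ^ 2 + (C / (((n : ℝ) + 1) * y)) ^ 2) * M :=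
        mul_le_mul (add_le_add k3 k4) (ha _) (abs_nonneg _) (by positivity)
    _ = _ := by
        field_simp
        ring

theorem hk_summ {T : ℝ} {ρ : ℝ → ℝ} (hρ : KerL T ρ) {a : ℕ → ℝ} {M : ℝ} (ha : ∀ n, |a n| ≤ M)
    {y : ℝ} (hy : 0 < y) : Summable (fun n : ℕ => hkK ρ n y * a (n + 1)) := by
  obtain ⟨C, hC, hb⟩ := hk_term hρ
  have hM : 0 ≤ M := (abs_nonneg _).trans (ha 0)
  have hsum : Summable (fun n : ℕ => 1 / ((n : ℝ) + 1) ^ 2) := by
    have := (summable_nat_add_iff 1).2 (Real.summable_one_div_nat_pow.2 (by norm_num : 1 < 2))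
    refine this.congr ?_
    intro n
    push_cast
    rfl
  exact Summable.of_norm_bounded ((hsum.mul_left (2 * C ^ 2 * M)).mul_right (1 / y ^ 2))
    (fun n => hb hM ha n y hy)

theorem hk_intg {T : ℝ} {ρ : ℝ → ℝ} (hρ : KerL T ρ) {a : ℕ → ℝ} {M : ℝ} (ha : ∀ n, |a n| ≤ M)
    {y₁ : ℝ} (h1 : 0 < y₁) :
    IntegrableOn (fun y : ℝ => ∑' n : ℕ, hkK ρ n y * a (n + 1)) (Set.Ioi y₁) := by
  obtain ⟨C, hC, hb⟩ := hk_term hρ
  have hM : 0 ≤ M := (abs_nonneg _).trans (ha 0)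
  have hterm := fun (n : ℕ) (y : ℝ) (hy : 0 < y) => hb hM ha n y hy
  have hsum : Summable (fun n : ℕ => 1 / ((n : ℝ) + 1) ^ 2) := by
    have := (summable_nat_add_iff 1).2 (Real.summable_one_div_nat_pow.2 (by norm_num : 1 < 2))
    refine this.congr ?_
    intro n
    push_cast
    rfl
  have hkc := PPL_cont hρ
  have hcont : ContinuousOn (fun y : ℝ => ∑' n : ℕ, hkK ρ n y * a (n + 1)) (Set.Ioi y₁) := by
    refine continuousOn_tsum (u := fun n : ℕ => 2 * C ^ 2 * M * (1 / ((n : ℝ) + 1) ^ 2) *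
      (1 / y₁ ^ 2)) ?_ ?_ ?_
    · intro n
      refine Continuous.continuousOn ?_
      unfold hkK
      fun_prop
    · exact (hsum.mul_left _).mul_right _
    · intro n y hy
      have hy' : y₁ < y := hy
      refine (hterm n y (h1.trans hy')).trans ?_
      have : 1 / y ^ 2 ≤ 1 / y₁ ^ 2 := by
        apply one_div_le_one_div_of_le (by positivity)
        exact pow_le_pow_left₀ h1.le hy'.le 2
      exact mul_le_mul_of_nonneg_left this (by positivity)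
  have hI : IntegrableOn (fun y : ℝ => (2 * C ^ 2 * M * ∑' n : ℕ, (1 / ((n : ℝ) + 1) ^ 2)) *
      (1 / y ^ 2)) (Set.Ioi y₁) := by
    refine Integrable.const_mul ?_ _
    have := integrableOn_Ioi_rpow_of_lt (show (-2 : ℝ) < -1 by norm_num) h1
    refine this.congr_fun ?_ measurableSet_Ioi
    intro y hy
    have hy' : 0 < y := h1.trans hy
    simp only
    rw [Real.rpow_neg hy'.le, one_div]
    norm_cast
  refine Integrable.mono' hI (hcont.aestronglyMeasurable measurableSet_Ioi) ?_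
  refine (ae_restrict_iff' measurableSet_Ioi).2 (Eventually.of_forall ?_)
  intro y hy
  have hy' : 0 < y := h1.trans hy
  have hs1 : Summable (fun n : ℕ => 2 * C ^ 2 * M * (1 / ((n : ℝ) + 1) ^ 2) * (1 / y ^ 2)) :=
    (hsum.mul_left _).mul_right _
  have h3 := tsum_of_norm_bounded hs1.hasSum (fun n => hterm n y hy')
  refine h3.trans (le_of_eq ?_)
  rw [tsum_mul_right, tsum_mul_left]

theorem hk_int_add {T : ℝ} {ρ : ℝ → ℝ} (hρ : KerL T ρ) {a b : ℕ → ℝ} {M M' : ℝ}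
    (ha : ∀ n, |a n| ≤ M) (hb : ∀ n, |b n| ≤ M') (s : ℝ) {y₁ : ℝ} (h1 : 0 < y₁) :
    ∫ y in Set.Ioi y₁, ∑' n : ℕ, hkK ρ n y * (a (n + 1) + s * b (n + 1)) =
      (∫ y in Set.Ioi y₁, ∑' n : ℕ, hkK ρ n y * a (n + 1)) +
        s * ∫ y in Set.Ioi y₁, ∑' n : ℕ, hkK ρ n y * b (n + 1) := by
  rw [← integral_const_mul, ← integral_add (hk_intg hρ ha h1) ((hk_intg hρ hb h1).const_mul s)]
  refine setIntegral_congr_fun measurableSet_Ioi ?_
  intro y hy
  have hy' : 0 < y := h1.trans hy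
  simp only
  rw [← tsum_mul_left, ← (hk_summ hρ ha hy').tsum_add ((hk_summ hρ hb hy').mul_left s)]
  refine tsum_congr fun n => ?_
  ring

theorem hk_wwb (E : ℕ) (w : ℕ → ℝ) : ∃ M : ℝ, 0 ≤ M ∧ ∀ n, |WW E w n| ≤ M :=
  ⟨_, Finset.sum_nonneg (fun q _ => mul_nonneg (abs_nonneg _)
    (Finset.sum_nonneg (fun d _ => Nat.cast_nonneg d))), PPL_ww E w⟩

/-- the square root of the quadratic form is additive -/
theorem sh_quad {T : ℝ} {ρ : ℝ → ℝ} (hρ : KerL T ρ) {E : ℕ} (hE : 1 ≤ E) (x y : ℕ → ℝ)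
    (s : ℝ) (N : ℕ) :
    sh ρ T E (fun e => x e + s * y e) N =
      sh ρ T E x N + 2 * s * shB ρ T E x y N + s ^ 2 * sh ρ T E y N := by
  have hT := hρ.T1
  have hyo : 0 < yo T E := by
    unfold yo
    have : (0 : ℝ) < E := by exact_mod_cast hE
    positivity
  obtain ⟨M, hM, hW⟩ := hk_wwb E (wX E x)
  obtain ⟨M', hM', hV⟩ := hk_wwb E (wX E y)
  set W : ℕ → ℝ := WW E (wX E x) with hWd
  set V : ℕ → ℝ := WW E (wX E y) with hVd
  have hlin : ∀ n, WW E (wX E (fun e => x e + s * y e)) n = W n + s * V n := by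
    intro n
    have h1 : wX E (fun e => x e + s * y e) = fun q => wX E x q + s * wX E y q := by
      funext q
      rw [wX_add, wX_smul]
    rw [h1, WW_add, WW_smul]
  have hW2 : ∀ n, |W n ^ 2| ≤ M ^ 2 := by
    intro n
    rw [abs_pow]
    exact pow_le_pow_left₀ (abs_nonneg _) (hW n) 2
  have hV2 : ∀ n, |V n ^ 2| ≤ M' ^ 2 := by
    intro n
    rw [abs_pow]
    exact pow_le_pow_left₀ (abs_nonneg _) (hV n) 2
  have hWV : ∀ n, |W n * V n| ≤ M * M' := by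
    intro n
    rw [abs_mul]
    exact mul_le_mul (hW n) (hV n) (abs_nonneg _) hM
  have hb2 : ∀ n, |2 * (W n * V n) + s * V n ^ 2| ≤ 2 * (M * M') + |s| * M' ^ 2 := by
    intro n
    refine (abs_add_le _ _).trans ?_
    rw [abs_mul, abs_mul s, abs_two]
    exact add_le_add (mul_le_mul_of_nonneg_left (hWV n) (by norm_num))
      (mul_le_mul_of_nonneg_left (hV2 n) (abs_nonneg _))
  have hI : ∫ u in Set.Ioi (yo T E), ∑' n : ℕ,
      (‖kh ρ ((n + 1) * u)‖ ^ 2 + ‖kh ρ (-((n + 1) * u))‖ ^ 2) *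
        WW E (wX E (fun e => x e + s * y e)) (n + 1) ^ 2 =
      (∫ u in Set.Ioi (yo T E), ∑' n : ℕ,
        (‖kh ρ ((n + 1) * u)‖ ^ 2 + ‖kh ρ (-((n + 1) * u))‖ ^ 2) * W (n + 1) ^ 2) +
      2 * s * (∫ u in Set.Ioi (yo T E), ∑' n : ℕ,
        (‖kh ρ ((n + 1) * u)‖ ^ 2 + ‖kh ρ (-((n + 1) * u))‖ ^ 2) * (W (n + 1) * V (n + 1))) +
      s ^ 2 * (∫ u in Set.Ioi (yo T E), ∑' n : ℕ,
        (‖kh ρ ((n + 1) * u)‖ ^ 2 + ‖kh ρ (-((n + 1) * u))‖ ^ 2) * V (n + 1) ^ 2) := by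
    have e1 : ∀ u : ℝ, (∑' n : ℕ, (‖kh ρ ((n + 1) * u)‖ ^ 2 + ‖kh ρ (-((n + 1) * u))‖ ^ 2) *
        WW E (wX E (fun e => x e + s * y e)) (n + 1) ^ 2) =
        ∑' n : ℕ, hkK ρ n u * (W (n + 1) ^ 2 + s * (2 * (W (n + 1) * V (n + 1)) +
          s * V (n + 1) ^ 2)) := by
      intro u
      refine tsum_congr fun n => ?_
      rw [hlin]
      unfold hkK
      ring
    simp only [e1]
    rw [hk_int_add hρ (a := fun n => W n ^ 2) (b := fun n => 2 * (W n * V n) + s * V n ^ 2)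
      hW2 hb2 s hyo]
    have e2 : ∫ u in Set.Ioi (yo T E), ∑' n : ℕ, hkK ρ n u *
        (2 * (W (n + 1) * V (n + 1)) + s * V (n + 1) ^ 2) =
        2 * (∫ u in Set.Ioi (yo T E), ∑' n : ℕ, hkK ρ n u * (W (n + 1) * V (n + 1))) +
          s * ∫ u in Set.Ioi (yo T E), ∑' n : ℕ, hkK ρ n u * V (n + 1) ^ 2 := by
      rw [hk_int_add hρ (a := fun n => 2 * (W n * V n)) (b := fun n => V n ^ 2)
        (M := 2 * (M * M')) (by
          intro n
          rw [abs_mul, abs_two]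
          exact mul_le_mul_of_nonneg_left (hWV n) (by norm_num)) hV2 s hyo]
      congr 1
      have e3 := hk_int_add hρ (a := fun _ => 0) (b := fun n => W n * V n) (M := 0)
        (by intro n; simp) hWV 2 hyo
      simp only [zero_add, mul_zero, tsum_zero, integral_zero] at e3
      exact e3
    rw [e2]
    unfold hkK
    ring
  have hS : ∑ q ∈ Finset.Icc 1 E, phi q * wX E (fun e => x e + s * y e) q ^ 2 *
      (Cr ρ * (2 * Real.log (yo T E) + Real.log ((N : ℝ) * (q : ℝ) ^ 2)) + Cl ρ) =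
      (∑ q ∈ Finset.Icc 1 E, phi q * wX E x q ^ 2 *
        (Cr ρ * (2 * Real.log (yo T E) + Real.log ((N : ℝ) * (q : ℝ) ^ 2)) + Cl ρ)) +
      2 * s * (∑ q ∈ Finset.Icc 1 E, phi q * (wX E x q * wX E y q) *
        (Cr ρ * (2 * Real.log (yo T E) + Real.log ((N : ℝ) * (q : ℝ) ^ 2)) + Cl ρ)) +
      s ^ 2 * (∑ q ∈ Finset.Icc 1 E, phi q * wX E y q ^ 2 *
        (Cr ρ * (2 * Real.log (yo T E) + Real.log ((N : ℝ) * (q : ℝ) ^ 2)) + Cl ρ)) := by
    rw [Finset.mul_sum, Finset.mul_sum, ← Finset.sum_add_distrib, ← Finset.sum_add_distrib]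
    apply Finset.sum_congr rfl
    intro q _
    rw [wX_add, wX_smul]
    ring
  unfold sh shB
  rw [hI, hS]
  ring

theorem ODg_lin (C C' : ℕ → ℝ) (s : ℝ) (G : ℝ → ℝ) (Q : ℕ) (S : Finset ℤ) (N : ℕ) :
    LSPO.ODg (fun n => C n + s * C' n) G Q S N =
      LSPO.ODg C G Q S N + s * LSPO.ODg C' G Q S N := by
  unfold LSPO.ODg
  set F : ℕ → ℝ := fun n => ∑ g ∈ S, LSPO.tau g.natAbs * LSPO.tau ((n : ℤ) - g * N).natAbs *
    G ((g : ℝ) * N / n) with hF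
  have h1 : ∑ n ∈ Finset.Icc 1 Q, (C n + s * C' n) * F n =
      ∑ n ∈ Finset.Icc 1 Q, C n * F n + s * ∑ n ∈ Finset.Icc 1 Q, C' n * F n := by
    rw [Finset.mul_sum, ← Finset.sum_add_distrib]
    apply Finset.sum_congr rfl
    intro n _
    ring
  rw [h1]
  ring

theorem OD_eq (ρ : ℝ → ℝ) (B E : ℕ) (x : ℕ → ℝ) (N : ℕ) :
    OD ρ B E x N = ODB ρ B E x x N := rfl

theorem OD_quad (ρ : ℝ → ℝ) (B E : ℕ) (x y : ℕ → ℝ) (s : ℝ) (N : ℕ) :
    OD ρ B E (fun e => x e + s * y e) N =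
      OD ρ B E x N + 2 * s * ODB ρ B E x y N + s ^ 2 * OD ρ B E y N := by
  rw [OD_eq, OD_eq, OD_eq]
  unfold ODB
  have h1 : CB E (fun e => x e + s * y e) (fun e => x e + s * y e) =
      fun n => CB E x x n + s * (CB E x y n + (1 : ℝ) * CB E x y n) + s * (s * CB E y y n) := by
    funext n
    rw [CB_add_left, CB_smul_left, CB_add_right, CB_smul_right, CB_add_right, CB_smul_right,
      CB_comm E y x]
    ring
  have h2 : (fun n => CB E x x n + s * (CB E x y n + (1 : ℝ) * CB E x y n) +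
      s * (s * CB E y y n)) = fun n => CB E x x n + s * (2 * CB E x y n + s * CB E y y n) := by
    funext n
    ring
  have h3 : LSPO.ODg (fun n => 2 * CB E x y n + s * CB E y y n) (GG ρ) (E ^ 2) (Gs B E) N =
      2 * LSPO.ODg (CB E x y) (GG ρ) (E ^ 2) (Gs B E) N +
        s * LSPO.ODg (CB E y y) (GG ρ) (E ^ 2) (Gs B E) N := by
    rw [ODg_lin (fun n => 2 * CB E x y n) (CB E y y) s]
    congr 1
    have h4 := ODg_lin (fun _ => 0) (CB E x y) 2 (GG ρ) (E ^ 2) (Gs B E) N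
    rw [hk_odg_zero, zero_add] at h4
    rw [← h4]
    congr 1
    funext n
    ring
  rw [h1, h2, ODg_lin, h3]
  ring

/-- `QN` is a quadratic form with polar form `QB` -/
theorem qn_add_pr {T : ℝ} {ρ : ℝ → ℝ} (hρ : KerL T ρ) (B : ℕ) {E : ℕ} (hE : 1 ≤ E) (x y : ℕ → ℝ)
    (s : ℝ) {N : ℕ} (_hN : 1 ≤ N) :
    QN ρ T B E (fun e => x e + s * y e) N =
      QN ρ T B E x N + 2 * s * QB ρ T B E x y N + s ^ 2 * QN ρ T B E y N ∧
    sh ρ T E (fun e => x e + s * y e) N =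
      sh ρ T E x N + 2 * s * shB ρ T E x y N + s ^ 2 * sh ρ T E y N ∧
    OD ρ B E (fun e => x e + s * y e) N =
      OD ρ B E x N + 2 * s * ODB ρ B E x y N + s ^ 2 * OD ρ B E y N := by
  refine ⟨?_, sh_quad hρ hE x y s N, OD_quad ρ B E x y s N⟩
  unfold QN QB
  rw [sh_quad hρ hE x y s N, OD_quad ρ B E x y s N]
  ring

/-- multiplication by `λ(p)/√p` -/
theorem mx_tp_pr {E : ℕ} {y : ℕ → ℝ} {p : ℕ} (hp : p.Prime)
    (hy : ∀ e, y e ≠ 0 → 1 ≤ e ∧ p * e ≤ E) (la : ℕ → ℝ) :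
    MX E (Tp p y) la = la p / Real.sqrt p * MX E y la :=
  MX_Tp hp (fun e he => by
    by_contra h
    exact absurd (hy e h).2 (not_le.mpr he)) la

end Pool.Agent.LSP
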