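import Pool.Agent.Lib_helper98.HK.A5
import Pool.Agent.Lib_helper41.LSPG.GFI
import Pool.Agent.Lib_helper53.LSPAF.LA13

/-! LSP2, module HK: positivity, supports, zero modes. -/

namespace Pool.Agent.LSP

open Pool.Agent.LEV Pool.Agent.LVB Pool.Agent.KSL
open Pool.Agent.FG61 (mu phi cc ff AA Lam)
open Complex MeasureTheory Filter Topology UpperHalfPlane ModularGroup ProbabilityTheory
open scoped MatrixGroups Modular ENNReal ModularForm ComplexConjugate ContDiff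

/-- positivity (from `geo_main`) -/
theorem qn_nonneg_pr {T : ℝ} {ρ : ℝ → ℝ} (hρ : KerL T ρ) {B₀ : ℕ} (hB : 1 + T ^ 2 ≤ (B₀ : ℝ)) :
    ∃ C : ℝ, 1 ≤ C ∧ ∀ (N : ℕ) [Fact N.Prime] (E : ℕ), 1 ≤ E → C * E ≤ N →
    ∀ x : ℕ → ℝ, (∀ e, x e ≠ 0 → 1 ≤ e ∧ e ≤ E) → ∑ e ∈ Finset.Icc 1 E, x e * sg1 e / e = 0 →
      0 ≤ QN ρ T B₀ E x N := by
  obtain ⟨C, hC, h⟩ := geo_main hρ hB
  refine ⟨C, hC, fun N _ E hE hN x hx hz => ?_⟩
  have h1 := h N E 1 hE le_rfl (by simpa using hN) x hx hz (ι := PEmpty)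
    (fun i => i.elim) (fun i => i.elim) (fun i => i.elim) (fun _ => 0)
    (fun m hm => absurd rfl hm) 0
  simpa using h1

theorem hk_xX_supp {z M A : ℕ} {a : ℕ → ℝ} (ha : Sht z A a) {e : ℕ} (he : xX z M 2 a e ≠ 0) :
    1 ≤ e ∧ e ≤ QA M 2 A := by
  have he0 : e ≠ 0 := by
    intro h
    apply he
    unfold xX
    rw [if_pos h]
  have he1 : 1 ≤ e := Nat.pos_of_ne_zero he0
  refine ⟨he1, ?_⟩
  unfold xX at he
  rw [if_neg he0] at he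
  have h4 : a (smp z e) ≠ 0 := by
    intro h
    apply he
    rw [h]
    simp
  have h5 : xr z M 2 (rop z e) ≠ 0 := right_ne_zero_of_mul he
  have h6 := (ha.sup _ h4).2
  have h7 := (xr_supp h5).2.2
  have h8 := (smp_rop (z := z) he1).1
  unfold QA
  calc e = smp z e * rop z e := h8.symm
    _ ≤ A * (2 * M) := Nat.mul_le_mul h6 h7
    _ = 2 * M * A := by ring

theorem hk_sizes : ∃ X₀ : ℕ, ∀ X : ℕ, X₀ ≤ X → ∀ δ : ℝ, δ ≤ 1 / 8 →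
    zz X ≤ MM δ X ∧ 2 ≤ MM δ X ∧ (PK (MM δ X) 2).Nonempty := by
  obtain ⟨N₀, hN₀⟩ := sizes (δ := 1 / 8) (by norm_num) (by norm_num) (ε := 1 / 3) (by norm_num)
  refine ⟨max N₀ 1, fun X hX δ hδ => ?_⟩
  obtain ⟨-, a1, a2, -⟩ := hN₀ X (by omega)
  have hX1 : (1 : ℝ) ≤ X := by exact_mod_cast (by omega : 1 ≤ X)
  have hzM : zz X < MM δ X := by
    refine a2.trans_le ?_
    unfold MM
    exact Nat.floor_le_floor (Real.rpow_le_rpow_of_exponent_le hX1 (by linarith))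
  refine ⟨hzM.le, by omega, ?_⟩
  obtain ⟨p, hp, h2, h3⟩ := Nat.exists_prime_lt_and_le_two_mul (MM δ X) (by omega)
  exact ⟨p, Finset.mem_filter.2 ⟨Finset.mem_Ioc.2 ⟨h2, h3⟩, hp⟩⟩

theorem hk_ext {Q E : ℕ} (hQE : Q ≤ E) {x : ℕ → ℝ} (hx : ∀ e, x e ≠ 0 → e ≤ Q) :
    ∑ e ∈ Finset.Icc 1 E, x e * sg1 e / e = ∑ e ∈ Finset.Icc 1 Q, x e * sg1 e / e := by
  symm
  apply Finset.sum_subset (Finset.Icc_subset_Icc_right hQE)
  intro e he he'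
  rw [Finset.mem_Icc] at he he'
  have : x e = 0 := by
    by_contra h
    exact he' ⟨he.1, hx e h⟩
  rw [this]
  simp

theorem hk_QA {X : ℕ} (hX : (1 : ℝ) ≤ X) {δ ε : ℝ} (h2 : (2 : ℝ) ≤ (X : ℝ) ^ ε) :
    (QA (MM δ X) 2 (KA ε X) : ℝ) ≤ (X : ℝ) ^ (1 / 2 - δ + 2 * ε) := by
  have hX0 : (0 : ℝ) < X := by linarith
  unfold QA
  push_cast
  have h3 : (MM δ X : ℝ) ≤ (X : ℝ) ^ (1 / 2 - δ) := by
    unfold MM
    exact Nat.floor_le (by positivity)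
  have h4 : (KA ε X : ℝ) ≤ (X : ℝ) ^ ε := by
    unfold KA
    exact Nat.floor_le (by positivity)
  calc (2 : ℝ) * MM δ X * KA ε X ≤ (X : ℝ) ^ ε * (X : ℝ) ^ (1 / 2 - δ) * (X : ℝ) ^ ε := by
        gcongr
    _ = (X : ℝ) ^ (1 / 2 - δ + 2 * ε) := by
        rw [← Real.rpow_add hX0, ← Real.rpow_add hX0]
        congr 1
        ring

/-- the supports, the zero mode -/
theorem y_supp_pr {κ v κ₁ ε₂ : ℝ} (h0 : 0 < κ) (h1 : 1000 * κ ≤ v) (h2 : v ≤ 1 / 80) (h3 : 0 < κ₁)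
    (h4 : κ₁ ≤ κ) (h5 : 0 < ε₂) (h6 : ε₂ ≤ κ₁ / 1000) : ∃ X₀ : ℕ, ∀ X : ℕ, X₀ ≤ X →
    ∀ a : ℕ → ℝ, Sht (zz X) (KA ε₂ X) a →
    (∀ e, y0 κ₁ X a e ≠ 0 → 1 ≤ e ∧ (e : ℝ) ≤ (X : ℝ) ^ (1 / 2 - κ₁ + 2 * ε₂)) ∧
    (∀ e, y1 κ v X a e ≠ 0 → 1 ≤ e ∧ (e : ℝ) ≤ (X : ℝ) ^ (1 / 2 - v + κ + 2 * ε₂)) ∧
    (∑ e ∈ Finset.Icc 1 (E2 κ X), y0 κ₁ X a e * sg1 e / e = 0) ∧
    (∑ e ∈ Finset.Icc 1 (E2 κ X), y1 κ v X a e * sg1 e / e = 0) ∧
    ∀ θ : ℕ → ℝ,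
      (∀ e, YT (PB κ v X) θ (y1 κ v X a) e ≠ 0 → 1 ≤ e ∧ (e : ℝ) ≤ (X : ℝ) ^ (1 / 2 + 5 / 2 * κ)) ∧
      ∑ e ∈ Finset.Icc 1 (E2 κ X), YT (PB κ v X) θ (y1 κ v X a) e * sg1 e / e = 0 := by
  obtain ⟨X1, hX1⟩ := hk_sizes
  obtain ⟨X2, hX2⟩ := la13_rpow ε₂ h5 2
  obtain ⟨X3, hX3⟩ := la13_rpow (κ / 2 - 2 * ε₂) (by linarith) 2
  refine ⟨max (max X1 X2) (max X3 1), fun X hX a ha => ?_⟩
  have g1 : X1 ≤ X := by omega
  have g2 : (2 : ℝ) ≤ (X : ℝ) ^ ε₂ := hX2 X (by omega)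
  have g3 : (2 : ℝ) ≤ (X : ℝ) ^ (κ / 2 - 2 * ε₂) := hX3 X (by omega)
  have hX1' : (1 : ℝ) ≤ X := by exact_mod_cast (by omega : 1 ≤ X)
  have hX0 : (0 : ℝ) < X := by linarith
  -- the first vector
  have a1 : ∀ e, y0 κ₁ X a e ≠ 0 → 1 ≤ e ∧ e ≤ QA (MM κ₁ X) 2 (KA ε₂ X) := fun e he =>
    hk_xX_supp ha he
  have a2 := hk_QA (δ := κ₁) hX1' g2
  -- the second vector
  have b1 : ∀ e, y1 κ v X a e ≠ 0 → 1 ≤ e ∧ e ≤ QA (MM (v - κ) X) 2 (KA ε₂ X) := fun e he =>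
    hk_xX_supp ha he
  have b2 : (QA (MM (v - κ) X) 2 (KA ε₂ X) : ℝ) ≤ (X : ℝ) ^ (1 / 2 - v + κ + 2 * ε₂) := by
    refine (hk_QA (δ := v - κ) hX1' g2).trans (le_of_eq ?_)
    congr 1
    ring
  have hmono : ∀ {s t : ℝ}, s ≤ t → (X : ℝ) ^ s ≤ (X : ℝ) ^ t := fun h =>
    Real.rpow_le_rpow_of_exponent_le hX1' h
  have aE : QA (MM κ₁ X) 2 (KA ε₂ X) ≤ E2 κ X := by
    unfold E2
    apply Nat.le_floor
    exact a2.trans (hmono (by linarith))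
  have bE : QA (MM (v - κ) X) 2 (KA ε₂ X) ≤ E2 κ X := by
    unfold E2
    apply Nat.le_floor
    exact b2.trans (hmono (by linarith))
  have bz : ∑ e ∈ Finset.Icc 1 (E2 κ X), y1 κ v X a e * sg1 e / e = 0 := by
    rw [hk_ext bE (fun e he => (b1 e he).2)]
    obtain ⟨c1, c2, c3⟩ := hX1 X g1 (v - κ) (by linarith)
    exact zero_x ha c1 c2 c3
  -- products with primes of the band
  have hpe : ∀ p ∈ PB κ v X, ∀ d : ℕ, (d : ℝ) ≤ (X : ℝ) ^ (1 / 2 - v + κ + 2 * ε₂) →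
      ((p * d : ℕ) : ℝ) ≤ (X : ℝ) ^ (1 / 2 + 5 / 2 * κ) := by
    intro p hp d hd
    unfold PB at hp
    rw [Finset.mem_filter, Finset.mem_Icc] at hp
    have hp1 : (p : ℝ) ≤ 2 * (X : ℝ) ^ (v + κ) :=
      (Nat.le_floor_iff (by positivity)).mp hp.1.2
    push_cast
    calc (p : ℝ) * d ≤ (2 * (X : ℝ) ^ (v + κ)) * (X : ℝ) ^ (1 / 2 - v + κ + 2 * ε₂) := by
          gcongr
      _ ≤ ((X : ℝ) ^ (κ / 2 - 2 * ε₂) * (X : ℝ) ^ (v + κ)) *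
            (X : ℝ) ^ (1 / 2 - v + κ + 2 * ε₂) := by gcongr
      _ = (X : ℝ) ^ (1 / 2 + 5 / 2 * κ) := by
          rw [← Real.rpow_add hX0, ← Real.rpow_add hX0]
          congr 1
          ring
  refine ⟨fun e he => ⟨(a1 e he).1, ?_⟩, fun e he => ⟨(b1 e he).1, ?_⟩, ?_, bz, fun θ => ⟨?_, ?_⟩⟩
  · refine le_trans ?_ a2
    exact_mod_cast (a1 e he).2
  · refine le_trans ?_ b2
    exact_mod_cast (b1 e he).2
  · rw [hk_ext aE (fun e he => (a1 e he).2)]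
    obtain ⟨c1, c2, c3⟩ := hX1 X g1 κ₁ (by linarith)
    exact zero_x ha c1 c2 c3
  · intro e he
    unfold YT at he
    obtain ⟨p, hp, h7⟩ := Finset.exists_ne_zero_of_sum_ne_zero he
    have h8 := right_ne_zero_of_mul h7
    have hpp : 0 < p := by
      unfold PB at hp
      rw [Finset.mem_filter] at hp
      exact hp.2.1.pos
    unfold Tp at h8
    by_cases h9 : p ∣ e ∧ y1 κ v X a (e / p) ≠ 0
    · obtain ⟨⟨d, rfl⟩, h10⟩ := h9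
      rw [Nat.mul_div_cancel_left d hpp] at h10
      have h11 := b1 d h10
      refine ⟨Nat.mul_pos hpp h11.1, hpe p hp d ?_⟩
      refine le_trans ?_ b2
      exact_mod_cast h11.2
    · have h10 : (if p ∣ e then y1 κ v X a (e / p) else 0) = 0 := by
        split_ifs with h11
        · by_contra h12
          exact h9 ⟨h11, h12⟩
        · rfl
      rw [h10, zero_add] at h8
      have h11 : y1 κ v X a (p * e) ≠ 0 := by
        intro h12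
        rw [h12] at h8
        simp at h8
      have h12 := b1 _ h11
      have h13 : 1 ≤ e := Nat.one_le_iff_ne_zero.mpr (by
        rintro rfl
        simp at h12)
      refine ⟨h13, ?_⟩
      have h14 : (e : ℝ) ≤ ((p * e : ℕ) : ℝ) := by
        exact_mod_cast Nat.le_mul_of_pos_left e hpp
      have h15 : ((p * e : ℕ) : ℝ) ≤ (QA (MM (v - κ) X) 2 (KA ε₂ X) : ℝ) := by
        exact_mod_cast h12.2
      exact (h14.trans (h15.trans b2)).trans (hmono (by linarith))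
  · unfold YT
    have h7 : ∀ e : ℕ, (∑ p ∈ PB κ v X, θ p * Tp p (y1 κ v X a) e) * sg1 e / e =
        ∑ p ∈ PB κ v X, θ p * (Tp p (y1 κ v X a) e * sg1 e / e) := by
      intro e
      rw [Finset.sum_mul, Finset.sum_div]
      exact Finset.sum_congr rfl fun p _ => by ring
    simp only [h7]
    rw [Finset.sum_comm]
    apply Finset.sum_eq_zero
    intro p hp
    rw [← Finset.mul_sum, zero_Tp, bz]
    · simp
    · unfold PB at hp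
      rw [Finset.mem_filter] at hp
      exact hp.2.1
    · intro e he
      by_contra h8
      have h9 := b1 e h8
      have h10 := hpe p hp e (le_trans (by exact_mod_cast h9.2) b2)
      have h11 : p * e ≤ E2 κ X := by
        unfold E2
        apply Nat.le_floor
        exact h10.trans (hmono (by linarith))
      omega

end Pool.Agent.LSP
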