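import Pool.Agent.Lib_helper98.HK.A5

/-! LSP2, the cross term of the main part: the kernel. -/

namespace Pool.Agent.LSP

open Pool.Agent.LEV Pool.Agent.LVB Pool.Agent.KSL
open Pool.Agent.FG61 (mu phi cc ff AA Lam)
open Complex MeasureTheory Filter Topology UpperHalfPlane ModularGroup ProbabilityTheory
open scoped MatrixGroups Modular ENNReal ModularForm ComplexConjugate ContDiff

/-- the kernel -/
noncomputable def kk (ρ : ℝ → ℝ) (u : ℝ) : ℝ := ‖kh ρ u‖ ^ 2 + ‖kh ρ (-u)‖ ^ 2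

/-- its integral -/
noncomputable def Hk (ρ : ℝ → ℝ) (v : ℝ) : ℝ := ∫ u in Set.Ioi v, kk ρ u

/-- the sum over the multiples -/
noncomputable def Kk (ρ : ℝ → ℝ) (t : ℝ) : ℝ := ∑' n : ℕ, Hk ρ (((n : ℝ) + 1) * t) / ((n : ℝ) + 1)

theorem kk_nonneg (ρ : ℝ → ℝ) (u : ℝ) : 0 ≤ kk ρ u := by unfold kk; positivity

theorem kk_cont {T : ℝ} {ρ : ℝ → ℝ} (hρ : KerL T ρ) : Continuous (kk ρ) := by
  have := PPL_cont hρ
  unfold kk
  fun_prop

theorem kk_bd {T : ℝ} {ρ : ℝ → ℝ} (hρ : KerL T ρ) : ∃ C : ℝ, 0 < C ∧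
    (∀ u, kk ρ u ≤ C) ∧ ∀ u : ℝ, 0 < u → kk ρ u ≤ C / u ^ 2 := by
  obtain ⟨C, hC, h1, h2⟩ := kh_dec_pr hρ
  refine ⟨2 * C ^ 2, by positivity, fun u => ?_, fun u hu => ?_⟩
  · unfold kk
    have a1 := pow_le_pow_left₀ (norm_nonneg _) (h1 u) 2
    have a2 := pow_le_pow_left₀ (norm_nonneg _) (h1 (-u)) 2
    linarith
  · unfold kk
    have a1 := pow_le_pow_left₀ (norm_nonneg _) (h2 u hu.ne') 2
    have a2 := pow_le_pow_left₀ (norm_nonneg _) (h2 (-u) (by linarith)) 2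
    rw [abs_neg] at a2
    rw [abs_of_pos hu, div_pow] at a1 a2
    have : 2 * C ^ 2 / u ^ 2 = C ^ 2 / u ^ 2 + C ^ 2 / u ^ 2 := by ring
    rw [this]
    exact add_le_add a1 a2

theorem kk_int {T : ℝ} {ρ : ℝ → ℝ} (hρ : KerL T ρ) {v : ℝ} (hv : 0 < v) :
    IntegrableOn (kk ρ) (Set.Ioi v) := by
  obtain ⟨C, hC, -, h2⟩ := kk_bd hρ
  have hi : IntegrableOn (fun u : ℝ => C * u ^ (-2 : ℝ)) (Set.Ioi v) :=
    (integrableOn_Ioi_rpow_of_lt (by norm_num) hv).const_mul _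
  refine Integrable.mono' hi (kk_cont hρ).aestronglyMeasurable ?_
  refine (ae_restrict_iff' measurableSet_Ioi).2 (Eventually.of_forall ?_)
  intro u hu
  have hu0 : 0 < u := hv.trans hu
  rw [Real.norm_of_nonneg (kk_nonneg ρ u), Real.rpow_neg hu0.le, Real.rpow_two]
  exact h2 u hu0

theorem Hk_nonneg (ρ : ℝ → ℝ) (v : ℝ) : 0 ≤ Hk ρ v :=
  integral_nonneg fun u => kk_nonneg ρ u

/-- the difference of two values -/
theorem Hk_sub {T : ℝ} {ρ : ℝ → ℝ} (hρ : KerL T ρ) {a b : ℝ} (ha : 0 < a) (hab : a ≤ b) :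
    Hk ρ a - Hk ρ b = ∫ u in Set.Ioc a b, kk ρ u := by
  unfold Hk
  have h := setIntegral_union (μ := volume) (f := kk ρ) (s := Set.Ioc a b) (t := Set.Ioi b)
    (Set.Ioc_disjoint_Ioi le_rfl) measurableSet_Ioi
    ((kk_int hρ ha).mono_set Set.Ioc_subset_Ioi_self) (kk_int hρ (ha.trans_le hab))
  rw [Set.Ioc_union_Ioi_eq_Ioi hab] at h
  rw [h]
  ring

theorem kk_eta {T : ℝ} {ρ : ℝ → ℝ} (hρ : KerL T ρ) : ∃ C : ℝ, 0 < C ∧ ∀ eta : ℝ, 0 < eta → eta ≤ 1 →
    (∀ v : ℝ, 0 < v → Hk ρ v ≤ C * v ^ (-eta)) ∧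
    ∀ a b : ℝ, 0 < a → a ≤ b → Hk ρ a - Hk ρ b ≤ C * a ^ (-eta) * Real.log (b / a) := by
  obtain ⟨C, hC, h1, h2⟩ := kk_bd hρ
  have hbig : ∀ v : ℝ, 0 < v → Hk ρ v ≤ C / v := by
    intro v hv
    have hi : IntegrableOn (fun u : ℝ => C * u ^ (-2 : ℝ)) (Set.Ioi v) :=
      (integrableOn_Ioi_rpow_of_lt (by norm_num) hv).const_mul _
    unfold Hk
    calc ∫ u in Set.Ioi v, kk ρ u ≤ ∫ u in Set.Ioi v, C * u ^ (-2 : ℝ) := by
          refine setIntegral_mono_on (kk_int hρ hv) hi measurableSet_Ioi fun u hu => ?_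
          have hu0 : 0 < u := hv.trans hu
          rw [Real.rpow_neg hu0.le, Real.rpow_two]
          exact h2 u hu0
      _ = C / v := by
          rw [integral_const_mul, integral_Ioi_rpow_of_lt (by norm_num) hv]
          rw [show (-2 : ℝ) + 1 = -1 by norm_num, Real.rpow_neg_one]
          field_simp
  have hall : ∀ v : ℝ, 0 < v → Hk ρ v ≤ 2 * C := by
    intro v hv
    rcases le_or_gt 1 v with h | h
    · refine (hbig v hv).trans ?_
      rw [div_le_iff₀ hv]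
      nlinarith
    · have h3 := Hk_sub hρ hv h.le
      have h4 := hbig 1 one_pos
      have h5 : ∫ u in Set.Ioc v 1, kk ρ u ≤ C := by
        calc ∫ u in Set.Ioc v 1, kk ρ u ≤ ∫ u in Set.Ioc v 1, C := by
              refine setIntegral_mono_on ((kk_int hρ hv).mono_set Set.Ioc_subset_Ioi_self)
                (integrableOn_const (by simp)) measurableSet_Ioc fun u _ => h1 u
          _ = (1 - v) * C := by
              rw [setIntegral_const]
              simp [Measure.real, h.le]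
          _ ≤ C := by nlinarith
      rw [div_one] at h4
      linarith
  refine ⟨2 * C, by positivity, fun eta heta heta1 => ⟨fun v hv => ?_, fun a b ha hab => ?_⟩⟩
  · rcases le_or_gt 1 v with h | h
    · refine (hbig v hv).trans ?_
      have h3 : v ^ (-1 : ℝ) ≤ v ^ (-eta) := Real.rpow_le_rpow_of_exponent_le h (by linarith)
      rw [Real.rpow_neg_one] at h3
      have h4 : 0 < v⁻¹ := by positivity
      calc C / v = C * v⁻¹ := by ring
        _ ≤ C * v ^ (-eta) := mul_le_mul_of_nonneg_left h3 hC.le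
        _ ≤ 2 * C * v ^ (-eta) := by
            have : 0 ≤ v ^ (-eta) := by positivity
            nlinarith
    · refine (hall v hv).trans ?_
      have h3 : (1 : ℝ) ≤ v ^ (-eta) := by
        rw [Real.rpow_neg hv.le]
        exact (one_le_inv₀ (by positivity)).mpr (Real.rpow_le_one hv.le h.le heta.le)
      nlinarith
  · rw [Hk_sub hρ ha hab]
    have hb0 : 0 < b := ha.trans_le hab
    -- u kk u <= C a^(-eta)
    have h3 : ∀ u ∈ Set.Ioc a b, kk ρ u ≤ C * a ^ (-eta) * u⁻¹ := by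
      intro u hu
      have hu0 : 0 < u := ha.trans hu.1
      have h4 : u ^ (-eta) ≤ a ^ (-eta) := by
        rw [Real.rpow_neg hu0.le, Real.rpow_neg ha.le]
        exact inv_anti₀ (by positivity) (Real.rpow_le_rpow ha.le hu.1.le heta.le)
      have h5 : u * kk ρ u ≤ C * u ^ (-eta) := by
        rcases le_or_gt 1 u with h | h
        · have h6 : u ^ (-1 : ℝ) ≤ u ^ (-eta) := Real.rpow_le_rpow_of_exponent_le h (by linarith)
          rw [Real.rpow_neg_one] at h6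
          calc u * kk ρ u ≤ u * (C / u ^ 2) := mul_le_mul_of_nonneg_left (h2 u hu0) hu0.le
            _ = C * u⁻¹ := by field_simp
            _ ≤ C * u ^ (-eta) := mul_le_mul_of_nonneg_left h6 hC.le
        · have h6 : (1 : ℝ) ≤ u ^ (-eta) := by
            rw [Real.rpow_neg hu0.le]
            exact (one_le_inv₀ (by positivity)).mpr (Real.rpow_le_one hu0.le h.le heta.le)
          calc u * kk ρ u ≤ 1 * C := mul_le_mul h.le (h1 u) (kk_nonneg ρ u) (by norm_num)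
            _ ≤ C * u ^ (-eta) := by nlinarith
      calc kk ρ u = u * kk ρ u * u⁻¹ := by field_simp
        _ ≤ C * a ^ (-eta) * u⁻¹ := by
            refine mul_le_mul_of_nonneg_right (h5.trans ?_) (by positivity)
            exact mul_le_mul_of_nonneg_left h4 hC.le
    have hI : IntegrableOn (fun u : ℝ => C * a ^ (-eta) * u⁻¹) (Set.Ioc a b) := by
      refine Integrable.const_mul ?_ _
      have h4 : IntervalIntegrable (fun u : ℝ => u⁻¹) volume a b := by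
        refine intervalIntegral.intervalIntegrable_inv ?_ continuousOn_id
        intro x hx
        rw [Set.uIcc_of_le hab] at hx
        exact (ha.trans_le hx.1).ne'
      rwa [intervalIntegrable_iff_integrableOn_Ioc_of_le hab] at h4
    calc ∫ u in Set.Ioc a b, kk ρ u ≤ ∫ u in Set.Ioc a b, C * a ^ (-eta) * u⁻¹ :=
          setIntegral_mono_on ((kk_int hρ ha).mono_set Set.Ioc_subset_Ioi_self) hI
            measurableSet_Ioc h3
      _ = C * a ^ (-eta) * Real.log (b / a) := by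
          rw [integral_const_mul, ← intervalIntegral.integral_of_le hab,
            integral_inv_of_pos ha hb0]
      _ ≤ 2 * C * a ^ (-eta) * Real.log (b / a) := by
          have h4 : 0 ≤ Real.log (b / a) := Real.log_nonneg (by rwa [one_le_div ha])
          have h5 : 0 ≤ a ^ (-eta) := by positivity
          have h6 : 0 ≤ C * a ^ (-eta) * Real.log (b / a) := by positivity
          nlinarith

/-- the constant of the sums over multiples -/
noncomputable def Zeta (eta : ℝ) : ℝ := ∑' n : ℕ, 1 / ((n : ℝ) + 1) ^ (1 + eta)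

theorem Zeta_summable {eta : ℝ} (heta : 0 < eta) : Summable (fun n : ℕ => 1 / ((n : ℝ) + 1) ^ (1 + eta)) := by
  have := (summable_nat_add_iff 1).2 (Real.summable_one_div_nat_rpow.2 (by linarith : 1 < 1 + eta))
  refine this.congr ?_
  intro n
  push_cast
  rfl

theorem Zeta_nonneg (eta : ℝ) : 0 ≤ Zeta eta := tsum_nonneg fun n => by positivity

theorem Kk_term {eta t : ℝ} (ht : 0 < t) (n : ℕ) : (((n : ℝ) + 1) * t) ^ (-eta) / ((n : ℝ) + 1) =
    t ^ (-eta) * (1 / ((n : ℝ) + 1) ^ (1 + eta)) := by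
  have hn : (0 : ℝ) < (n : ℝ) + 1 := by positivity
  rw [Real.mul_rpow hn.le ht.le, Real.rpow_add hn, Real.rpow_one, Real.rpow_neg hn.le]
  field_simp

theorem Kk_eta {T : ℝ} {ρ : ℝ → ℝ} (hρ : KerL T ρ) : ∃ C : ℝ, 0 < C ∧ ∀ eta : ℝ, 0 < eta → eta ≤ 1 →
    (∀ t : ℝ, 0 < t → Summable (fun n : ℕ => Hk ρ (((n : ℝ) + 1) * t) / ((n : ℝ) + 1)) ∧
      |Kk ρ t| ≤ C * Zeta eta * t ^ (-eta)) ∧
    ∀ a b : ℝ, 0 < a → a ≤ b →
      |Kk ρ a - Kk ρ b| ≤ C * Zeta eta * a ^ (-eta) * Real.log (b / a) := by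
  obtain ⟨C, hC, h⟩ := kk_eta hρ
  refine ⟨C, hC, fun eta heta heta1 => ?_⟩
  obtain ⟨h1, h2⟩ := h eta heta heta1
  have hs : ∀ t : ℝ, 0 < t → ∀ n : ℕ, Hk ρ (((n : ℝ) + 1) * t) / ((n : ℝ) + 1) ≤
      C * t ^ (-eta) * (1 / ((n : ℝ) + 1) ^ (1 + eta)) := by
    intro t ht n
    have hn : (0 : ℝ) < (n : ℝ) + 1 := by positivity
    have h3 := h1 (((n : ℝ) + 1) * t) (by positivity)
    calc Hk ρ (((n : ℝ) + 1) * t) / ((n : ℝ) + 1) ≤
          C * (((n : ℝ) + 1) * t) ^ (-eta) / ((n : ℝ) + 1) := by gcongr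
      _ = C * ((((n : ℝ) + 1) * t) ^ (-eta) / ((n : ℝ) + 1)) := by ring
      _ = _ := by rw [Kk_term ht]; ring
  have hn0 : ∀ t : ℝ, 0 < t → ∀ n : ℕ, 0 ≤ Hk ρ (((n : ℝ) + 1) * t) / ((n : ℝ) + 1) := fun t _ n =>
    div_nonneg (Hk_nonneg ρ _) (by positivity)
  have hsum : ∀ t : ℝ, 0 < t →
      Summable (fun n : ℕ => Hk ρ (((n : ℝ) + 1) * t) / ((n : ℝ) + 1)) := fun t ht =>
    Summable.of_nonneg_of_le (hn0 t ht) (hs t ht) ((Zeta_summable heta).mul_left _)
  refine ⟨fun t ht => ⟨hsum t ht, ?_⟩, fun a b ha hab => ?_⟩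
  · have h3 : 0 ≤ Kk ρ t := tsum_nonneg (hn0 t ht)
    rw [abs_of_nonneg h3]
    unfold Kk Zeta
    calc ∑' n : ℕ, Hk ρ (((n : ℝ) + 1) * t) / ((n : ℝ) + 1) ≤
          ∑' n : ℕ, C * t ^ (-eta) * (1 / ((n : ℝ) + 1) ^ (1 + eta)) :=
          (hsum t ht).tsum_le_tsum (hs t ht) ((Zeta_summable heta).mul_left _)
      _ = _ := by rw [tsum_mul_left]; ring
  · have hb : 0 < b := ha.trans_le hab
    have hlog : 0 ≤ Real.log (b / a) := Real.log_nonneg (by rwa [one_le_div ha])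
    unfold Kk
    rw [← (hsum a ha).tsum_sub (hsum b hb)]
    have hd : ∀ n : ℕ, Hk ρ (((n : ℝ) + 1) * a) / ((n : ℝ) + 1) -
        Hk ρ (((n : ℝ) + 1) * b) / ((n : ℝ) + 1) ≤
        C * a ^ (-eta) * Real.log (b / a) * (1 / ((n : ℝ) + 1) ^ (1 + eta)) := by
      intro n
      have hn : (0 : ℝ) < (n : ℝ) + 1 := by positivity
      have h3 := h2 (((n : ℝ) + 1) * a) (((n : ℝ) + 1) * b) (by positivity)
        (mul_le_mul_of_nonneg_left hab hn.le)
      have h4 : ((n : ℝ) + 1) * b / (((n : ℝ) + 1) * a) = b / a := by field_simp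
      rw [h4] at h3
      rw [← sub_div]
      calc (Hk ρ (((n : ℝ) + 1) * a) - Hk ρ (((n : ℝ) + 1) * b)) / ((n : ℝ) + 1) ≤
            C * (((n : ℝ) + 1) * a) ^ (-eta) * Real.log (b / a) / ((n : ℝ) + 1) := by gcongr
        _ = C * Real.log (b / a) * ((((n : ℝ) + 1) * a) ^ (-eta) / ((n : ℝ) + 1)) := by ring
        _ = _ := by rw [Kk_term ha]; ring
    have hd0 : ∀ n : ℕ, 0 ≤ Hk ρ (((n : ℝ) + 1) * a) / ((n : ℝ) + 1) -
        Hk ρ (((n : ℝ) + 1) * b) / ((n : ℝ) + 1) := by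
      intro n
      have hn : (0 : ℝ) < (n : ℝ) + 1 := by positivity
      rw [← sub_div]
      refine div_nonneg ?_ hn.le
      rw [Hk_sub hρ (by positivity) (mul_le_mul_of_nonneg_left hab hn.le)]
      exact integral_nonneg fun u => kk_nonneg ρ u
    rw [abs_of_nonneg (tsum_nonneg hd0)]
    calc ∑' n : ℕ, (Hk ρ (((n : ℝ) + 1) * a) / ((n : ℝ) + 1) -
          Hk ρ (((n : ℝ) + 1) * b) / ((n : ℝ) + 1)) ≤
          ∑' n : ℕ, C * a ^ (-eta) * Real.log (b / a) * (1 / ((n : ℝ) + 1) ^ (1 + eta)) :=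
          ((hsum a ha).sub (hsum b hb)).tsum_le_tsum hd ((Zeta_summable heta).mul_left _)
      _ = _ := by rw [tsum_mul_left]; unfold Zeta; ring

end Pool.Agent.LSP
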