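import Pool.Agent.Lib_helper98.HK.A6
import Pool.Agent.Lib_helper71.LSPM.SPL2

/-! LSP2: the coefficients of the mollifier for smooth `m`. -/

namespace Pool.Agent.LSP

open Pool.Agent.LEV Pool.Agent.LVB Pool.Agent.KSL
open Pool.Agent.FG61 (mu phi cc ff AA Lam)
open Complex MeasureTheory Filter Topology UpperHalfPlane ModularGroup ProbabilityTheory
open scoped MatrixGroups Modular ENNReal ModularForm ComplexConjugate ContDiff

/-- the Fourier coefficients in terms of the mollifier -/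
theorem hk_WW (E : ℕ) (x : ℕ → ℝ) (n : ℕ) :
    WW E (wX E x) n = ∑ e ∈ Finset.Icc 1 E, x e * (sg1 (Nat.gcd e n) / e) := by
  unfold WW wX
  rw [wwf_swap E (fun e => x e / e) (fun q => cc q n) (fun e q => tau (e / q))]
  apply Finset.sum_congr rfl
  intro e he
  rw [Finset.mem_Icc] at he
  have h := wwf_sum_tau n he.1
  have h2 : ∑ r ∈ e.divisors, tau (e / r) * cc r n = sg1 (Nat.gcd e n) := h
  rw [h2]
  ring

theorem hk_WW_Tp {p E n : ℕ} (hp : p.Prime) {y : ℕ → ℝ} (hy : ∀ e, E < p * e → y e = 0)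
    (hn : ¬ p ∣ n) : WW E (wX E (Tp p y)) n = 1 / p * WW E (wX E y) n +
      ∑ d ∈ Finset.Icc 1 E, y d / d * (if p ∣ d then sg1 (Nat.gcd d n) else 0) := by
  have hp0 : 0 < p := hp.pos
  have hpr : (p : ℝ) ≠ 0 := by exact_mod_cast hp0.ne'
  have hc : Nat.Coprime p n := (Nat.Prime.coprime_iff_not_dvd hp).2 hn
  rw [hk_WW, hk_WW, Tp_sum hp0 hy (fun e => sg1 (Nat.gcd e n) / (e : ℝ)), Finset.mul_sum,
    ← Finset.sum_add_distrib]
  apply Finset.sum_congr rfl
  intro d hd
  rw [Finset.mem_Icc] at hd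
  have hd0 : (d : ℝ) ≠ 0 := by exact_mod_cast (by omega : d ≠ 0)
  have h1 : Nat.gcd (p * d) n = Nat.gcd d n := hc.gcd_mul_left_cancel d
  rw [h1]
  by_cases h : p ∣ d
  · obtain ⟨c, rfl⟩ := h
    have hc0 : (c : ℝ) ≠ 0 := by
      have : c ≠ 0 := by rintro rfl; simp at hd
      exact_mod_cast this
    have h2 : Nat.gcd (p * c) n = Nat.gcd c n := hc.gcd_mul_left_cancel c
    rw [if_pos (Dvd.intro _ rfl), if_pos (Dvd.intro _ rfl), Nat.mul_div_cancel_left c hp0, h2]
    push_cast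
    field_simp
  · rw [if_neg h, if_neg h]
    push_cast
    field_simp
    ring

/-- the sum over the rough part -/
theorem hk_xs {z M : ℕ} (G : ℕ → ℝ) : ∑ r ∈ Finset.Icc 1 (2 * M), xs z M 2 r * G r =
    ∑ e ∈ Finset.Icc 1 (2 * M), yE z M 2 e * ∑ r ∈ e.divisors, mu (e / r) * G r := by
  rw [← wwf_swap (2 * M) (yE z M 2) G (fun e r => mu (e / r))]
  apply Finset.sum_congr rfl
  intro r hr
  rw [Finset.mem_Icc] at hr
  congr 1
  have h2 := wwf_mult (X := 2 * M) (y := fun e => yE z M 2 e * mu (e / r)) (r := r) (by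
    intro e he
    have h3 : yE z M 2 e ≠ 0 := left_ne_zero_of_mul he
    exact ⟨(wwf_yE h3).2.1, wwf_yE_le (by norm_num) h3⟩) hr.1
  rw [← h2]
  unfold xs
  apply Finset.sum_congr rfl
  intro m hm
  rw [Nat.mul_div_cancel_left m hr.1, mul_comm]

theorem hk_mu_sum {e : ℕ} : ∑ r ∈ e.divisors, mu (e / r) = if e = 1 then 1 else 0 := by
  have h1 : ∑ r ∈ e.divisors, mu (e / r) = ∑ r ∈ e.divisors, mu r :=
    Nat.sum_div_divisors e (fun r => mu r)
  rw [h1]
  have h2 := congrArg (fun f : ArithmeticFunction ℤ => f e)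
    ArithmeticFunction.coe_zeta_mul_moebius
  simp only [ArithmeticFunction.coe_zeta_mul_apply, ArithmeticFunction.one_apply] at h2
  have h3 : ∑ r ∈ e.divisors, mu r =
      ((∑ r ∈ e.divisors, ArithmeticFunction.moebius r : ℤ) : ℝ) := by
    push_cast
    rfl
  rw [h3, h2]
  split_ifs <;> simp

theorem hk_mu_sum_p {p e : ℕ} (hp : p.Prime) (he : 1 ≤ e) :
    ∑ r ∈ e.divisors, mu (e / r) * (if p ∣ r then 1 else 0) = if e = p then 1 else 0 := by
  have hp0 := hp.pos
  by_cases h : p ∣ e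
  · obtain ⟨c, rfl⟩ := h
    have hc : 1 ≤ c := Nat.one_le_iff_ne_zero.mpr (by rintro rfl; simp at he)
    have h1 : ∑ r ∈ (p * c).divisors, mu (p * c / r) * (if p ∣ r then 1 else 0) =
        ∑ s ∈ c.divisors, mu (c / s) := by
      symm
      rw [show ∑ r ∈ (p * c).divisors, mu (p * c / r) * (if p ∣ r then (1 : ℝ) else 0) =
        ∑ r ∈ (p * c).divisors.filter (fun r => p ∣ r), mu (p * c / r) by
          rw [Finset.sum_filter]
          apply Finset.sum_congr rfl
          intro r _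
          split_ifs <;> simp]
      refine Finset.sum_bij (fun s _ => p * s) ?_ ?_ ?_ ?_
      · intro s hs
        rw [Nat.mem_divisors] at hs
        rw [Finset.mem_filter, Nat.mem_divisors]
        exact ⟨⟨Nat.mul_dvd_mul_left p hs.1, by omega⟩, Dvd.intro _ rfl⟩
      · intro a _ b _ h
        exact Nat.eq_of_mul_eq_mul_left hp0 h
      · intro r hr
        rw [Finset.mem_filter, Nat.mem_divisors] at hr
        obtain ⟨⟨h2, h3⟩, s, rfl⟩ := hr
        refine ⟨s, ?_, rfl⟩
        rw [Nat.mem_divisors]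
        exact ⟨Nat.dvd_of_mul_dvd_mul_left hp0 h2, by omega⟩
      · intro s _
        rw [Nat.mul_div_mul_left _ _ hp0]
    rw [h1, hk_mu_sum]
    have h2 : (c = 1) ↔ (p * c = p) := by
      constructor
      · rintro rfl; simp
      · intro h3
        exact Nat.eq_of_mul_eq_mul_left hp0 (h3.trans (mul_one p).symm)
    by_cases h3 : c = 1
    · rw [if_pos h3, if_pos (h2.mp h3)]
    · rw [if_neg h3, if_neg (fun h4 => h3 (h2.mpr h4))]
  · rw [if_neg (by rintro rfl; exact h dvd_rfl)]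
    apply Finset.sum_eq_zero
    intro r hr
    rw [Nat.mem_divisors] at hr
    rw [if_neg (fun h2 => h (h2.trans hr.1)), mul_zero]

theorem hk_xs_one {z M : ℕ} : ∑ r ∈ Finset.Icc 1 (2 * M), xs z M 2 r = yE z M 2 1 := by
  have h := hk_xs (z := z) (M := M) (fun _ => 1)
  simp only [mul_one] at h
  rw [h]
  simp only [hk_mu_sum]
  rcases Nat.eq_zero_or_pos M with hM | hM
  · subst hM
    simp only [mul_zero]
    rw [show Finset.Icc 1 0 = (∅ : Finset ℕ) by rfl, Finset.sum_empty]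
    by_contra h2
    have h3 := wwf_yE_le (by norm_num) (Ne.symm h2)
    omega
  · rw [Finset.sum_eq_single 1]
    · simp
    · intro e _ he
      rw [if_neg he, mul_zero]
    · intro h2
      exact absurd (Finset.mem_Icc.2 ⟨le_rfl, by omega⟩) h2

theorem hk_xs_p {z M p : ℕ} (hp : p.Prime) :
    ∑ r ∈ Finset.Icc 1 (2 * M), xs z M 2 r * (if p ∣ r then 1 else 0) = yE z M 2 p := by
  have hp0 := hp.pos
  rw [hk_xs (z := z) (M := M) (fun r => if p ∣ r then 1 else 0)]
  rw [Finset.sum_congr rfl (fun e he => by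
    rw [hk_mu_sum_p hp (Finset.mem_Icc.1 he).1] : ∀ e ∈ Finset.Icc 1 (2 * M),
      _ = yE z M 2 e * (if e = p then 1 else 0))]
  by_cases h : p ≤ 2 * M
  · rw [Finset.sum_eq_single p]
    · simp
    · intro e _ he
      rw [if_neg he, mul_zero]
    · intro h2
      exact absurd (Finset.mem_Icc.2 ⟨hp0, h⟩) h2
  · rw [Finset.sum_eq_zero]
    · by_contra h2
      exact h (wwf_yE_le (by norm_num) (Ne.symm h2))
    · intro e he
      rw [Finset.mem_Icc] at he
      rw [if_neg (by omega), mul_zero]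

/-- sums over the coefficients -/
theorem hk_xsplit {z M A E : ℕ} {a : ℕ → ℝ} (ha : Sht z A a) (hE : QA M 2 A ≤ E) (F : ℕ → ℝ) :
    ∑ e ∈ Finset.Icc 1 E, xX z M 2 a e / e * F e =
      ∑ k ∈ Finset.Icc 1 A, ∑ r ∈ Finset.Icc 1 (2 * M),
        a k / Real.sqrt k * xs z M 2 r * F (k * r) := by
  rw [← SPL_sum (z := z) (A := A) (R := 2 * M) (E := E)
    (f := fun k => a k / Real.sqrt k) (g := xs z M 2)
    (fun k hk hne => ha.sup k (by
      intro h0
      apply hne
      rw [h0, zero_div]))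
    (fun r hr hne => SPL_xs_supp hr hne)
    (by unfold QA at hE; calc A * (2 * M) = 2 * M * A := by ring
          _ ≤ E := hE) F]
  apply Finset.sum_congr rfl
  intro e he
  rw [Finset.mem_Icc] at he
  obtain ⟨e1, e2, e3, e4, e5⟩ := smp_rop_pr (z := z) he.1
  congr 1
  unfold xX xr
  rw [if_neg (by omega)]
  have hs0 : (0 : ℝ) < smp z e := by exact_mod_cast Nat.pos_of_ne_zero e3.1
  have hr0 : (0 : ℝ) < rop z e := by exact_mod_cast e5
  have hxs : ∑ m ∈ Finset.Icc 1 (2 * M), mu m * yE z M 2 (rop z e * m) =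
    xs z M 2 (rop z e) := rfl
  rw [hxs]
  have he0 : (e : ℝ) = (smp z e : ℝ) * rop z e := by
    rw [← Nat.cast_mul, e1]
  have hsq : Real.sqrt (smp z e) * Real.sqrt (smp z e) = smp z e := Real.mul_self_sqrt hs0.le
  have h2 : 0 < Real.sqrt (smp z e) := Real.sqrt_pos.2 hs0
  rw [he0]
  rw [div_eq_iff (by positivity)]
  calc a (smp z e) * Real.sqrt (smp z e) * ((rop z e : ℝ) * xs z M 2 (rop z e)) =
        a (smp z e) / Real.sqrt (smp z e) * (Real.sqrt (smp z e) * Real.sqrt (smp z e)) *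
          ((rop z e : ℝ) * xs z M 2 (rop z e)) := by field_simp
    _ = _ := by rw [hsq]; ring

end Pool.Agent.LSP
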