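import Pool.Agent.Lib_helper98.HK.C1
import Pool.Agent.Lib_helper98.HK.W1

/-! LSP2, the cross term of the main part: the exact formula. -/

namespace Pool.Agent.LSP

open Pool.Agent.LEV Pool.Agent.LVB Pool.Agent.KSL
open Pool.Agent.FG61 (mu phi cc ff AA Lam)
open Complex MeasureTheory Filter Topology UpperHalfPlane ModularGroup ProbabilityTheory
open scoped MatrixGroups Modular ENNReal ModularForm ComplexConjugate ContDiff

theorem hkK_kk (ρ : ℝ → ℝ) (n : ℕ) (y : ℝ) : hkK ρ n y = kk ρ (((n : ℝ) + 1) * y) := rfl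

/-- the integral over the heights as a sum -/
theorem hk_exch {T : ℝ} {ρ : ℝ → ℝ} (hρ : KerL T ρ) {b : ℕ → ℝ} {M : ℝ} (hb : ∀ n, |b n| ≤ M)
    {y₁ : ℝ} (h1 : 0 < y₁) :
    ∫ y in Set.Ioi y₁, ∑' n : ℕ, hkK ρ n y * b (n + 1) =
      ∑' n : ℕ, Hk ρ (((n : ℝ) + 1) * y₁) / ((n : ℝ) + 1) * b (n + 1) := by
  obtain ⟨C, hC, hK⟩ := Kk_eta hρ
  have hM : 0 ≤ M := (abs_nonneg _).trans (hb 0)
  have hterm : ∀ n : ℕ, IntegrableOn (fun y => kk ρ (((n : ℝ) + 1) * y)) (Set.Ioi y₁) ∧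
      ∫ y in Set.Ioi y₁, kk ρ (((n : ℝ) + 1) * y) =
        Hk ρ (((n : ℝ) + 1) * y₁) / ((n : ℝ) + 1) := by
    intro n
    have hn : (0 : ℝ) < (n : ℝ) + 1 := by positivity
    constructor
    · exact (integrableOn_Ioi_comp_mul_left_iff (kk ρ) y₁ hn).2 (kk_int hρ (by positivity))
    · rw [integral_comp_mul_left_Ioi (kk ρ) y₁ hn]
      unfold Hk
      simp only [smul_eq_mul]
      field_simp
  have hint : ∀ n : ℕ, Integrable (fun y => hkK ρ n y * b (n + 1))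
      (volume.restrict (Set.Ioi y₁)) := by
    intro n
    simp only [hkK_kk]
    exact (hterm n).1.mul_const _
  have hnorm : Summable (fun n : ℕ => ∫ y in Set.Ioi y₁, ‖hkK ρ n y * b (n + 1)‖) := by
    have e1 : ∀ n : ℕ, ∫ y in Set.Ioi y₁, ‖hkK ρ n y * b (n + 1)‖ =
        Hk ρ (((n : ℝ) + 1) * y₁) / ((n : ℝ) + 1) * |b (n + 1)| := by
      intro n
      rw [← (hterm n).2, ← integral_mul_const]
      refine integral_congr_ae (Eventually.of_forall fun y => ?_)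
      simp only
      rw [norm_mul, hkK_kk, Real.norm_of_nonneg (kk_nonneg ρ _), Real.norm_eq_abs]
    simp only [e1]
    refine Summable.of_nonneg_of_le (fun n => ?_) (fun n => ?_)
      (((hK 1 one_pos le_rfl).1 y₁ h1).1.mul_right M)
    · exact mul_nonneg (div_nonneg (Hk_nonneg ρ _) (by positivity)) (abs_nonneg _)
    · exact mul_le_mul_of_nonneg_left (hb _) (div_nonneg (Hk_nonneg ρ _) (by positivity))
  rw [← (hasSum_integral_of_summable_integral_norm hint hnorm).tsum_eq]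
  refine tsum_congr fun n => ?_
  rw [← (hterm n).2, ← integral_mul_const]
  rfl

/-- the sum over the multiples of `L` -/
theorem hk_mult {T : ℝ} {ρ : ℝ → ℝ} (hρ : KerL T ρ) {y : ℝ} (hy : 0 < y) {L : ℕ} (hL : 1 ≤ L) :
    Summable (fun n : ℕ => Hk ρ (((n : ℝ) + 1) * y) / ((n : ℝ) + 1) *
      (if L ∣ n + 1 then (1 : ℝ) else 0)) ∧
    ∑' n : ℕ, Hk ρ (((n : ℝ) + 1) * y) / ((n : ℝ) + 1) * (if L ∣ n + 1 then (1 : ℝ) else 0) =
      1 / L * Kk ρ (L * y) := by
  obtain ⟨C, hC, hK⟩ := Kk_eta hρ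
  have hs := ((hK 1 one_pos le_rfl).1 y hy).1
  constructor
  · refine Summable.of_nonneg_of_le (fun n => ?_) (fun n => ?_) hs
    · refine mul_nonneg (div_nonneg (Hk_nonneg ρ _) (by positivity)) ?_
      split_ifs <;> norm_num
    · have h1 : 0 ≤ Hk ρ (((n : ℝ) + 1) * y) / ((n : ℝ) + 1) :=
        div_nonneg (Hk_nonneg ρ _) (by positivity)
      split_ifs
      · rw [mul_one]
      · rw [mul_zero]; exact h1
  · have hi : Function.Injective (fun k : ℕ => L * (k + 1) - 1) := by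
      intro a b h
      have h2 : L * (a + 1) - 1 = L * (b + 1) - 1 := h
      have ha : 1 ≤ L * (a + 1) := Nat.mul_pos hL (Nat.succ_pos a)
      have hb : 1 ≤ L * (b + 1) := Nat.mul_pos hL (Nat.succ_pos b)
      have h3 : L * (a + 1) = L * (b + 1) := by omega
      have := Nat.eq_of_mul_eq_mul_left hL h3
      omega
    have hsupp : Function.support (fun n : ℕ => Hk ρ (((n : ℝ) + 1) * y) / ((n : ℝ) + 1) *
        (if L ∣ n + 1 then (1 : ℝ) else 0)) ⊆ Set.range (fun k : ℕ => L * (k + 1) - 1) := by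
      intro n hn
      rw [Function.mem_support] at hn
      have h2 : L ∣ n + 1 := by
        by_contra h3
        apply hn
        rw [if_neg h3, mul_zero]
      obtain ⟨c, hc⟩ := h2
      have hc0 : c ≠ 0 := by rintro rfl; simp at hc
      refine ⟨c - 1, ?_⟩
      have : c - 1 + 1 = c := Nat.sub_add_cancel (Nat.one_le_iff_ne_zero.mpr hc0)
      simp only [this, ← hc]
      omega
    rw [← hi.tsum_eq hsupp]
    unfold Kk
    rw [← tsum_mul_left]
    refine tsum_congr fun k => ?_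
    have h2 : L * (k + 1) - 1 + 1 = L * (k + 1) :=
      Nat.sub_add_cancel (Nat.mul_pos hL (Nat.succ_pos k))
    have h3 : ((L * (k + 1) - 1 : ℕ) : ℝ) + 1 = L * ((k : ℝ) + 1) := by
      have : (((L * (k + 1) - 1 + 1 : ℕ)) : ℝ) = ((L * (k + 1) : ℕ) : ℝ) := by rw [h2]
      push_cast at this
      exact this
    rw [h3, h2, if_pos (Dvd.intro _ rfl), mul_one]
    have hL0 : (0 : ℝ) < L := by exact_mod_cast hL
    have h4 : (L : ℝ) * ((k : ℝ) + 1) * y = ((k : ℝ) + 1) * (L * y) := by ring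
    rw [h4]
    field_simp

/-- the coordinates `V_d = ∑_{d ∣ e} x_e / e` -/
noncomputable def VX (E : ℕ) (x : ℕ → ℝ) (d : ℕ) : ℝ :=
  ∑ e ∈ (Finset.Icc 1 E).filter (fun e => d ∣ e), x e / e

theorem WW_VX (E : ℕ) (x : ℕ → ℝ) (n : ℕ) :
    WW E (wX E x) n = ∑ d ∈ Finset.Icc 1 E, VX E x d * (if d ∣ n then (d : ℝ) else 0) := by
  rw [hk_WW]
  have h := wwf_swap E (fun e => x e / e) (fun d => if d ∣ n then (d : ℝ) else 0) (fun _ _ => 1)
  simp only [mul_one, one_mul] at h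
  unfold VX
  rw [h]
  apply Finset.sum_congr rfl
  intro e he
  rw [Finset.mem_Icc] at he
  have h2 : sg1 (Nat.gcd e n) = ∑ d ∈ e.divisors, if d ∣ n then (d : ℝ) else 0 := by
    unfold sg1
    rw [← Finset.sum_filter]
    apply Finset.sum_congr _ (fun _ _ => rfl)
    ext d
    rw [Nat.mem_divisors, Finset.mem_filter, Nat.mem_divisors, Nat.dvd_gcd_iff]
    constructor
    · rintro ⟨⟨h3, h4⟩, -⟩
      exact ⟨⟨h3, by omega⟩, h4⟩
    · rintro ⟨⟨h3, h4⟩, h5⟩
      exact ⟨⟨h3, h5⟩, fun h6 => h4 (Nat.eq_zero_of_gcd_eq_zero_left h6)⟩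
  rw [h2]
  ring

theorem hk_tau_count {q e : ℕ} (hq : 1 ≤ q) (he : 1 ≤ e) :
    ∑ r ∈ e.divisors, (if q ∣ r then (1 : ℝ) else 0) = if q ∣ e then tau (e / q) else 0 := by
  by_cases h : q ∣ e
  · rw [if_pos h]
    obtain ⟨c, rfl⟩ := h
    rw [Nat.mul_div_cancel_left c hq, ← Finset.sum_filter]
    unfold tau
    rw [Finset.sum_const, nsmul_eq_mul, mul_one]
    congr 1
    symm
    refine Finset.card_bij (fun s _ => q * s) ?_ ?_ ?_
    · intro s hs
      rw [Nat.mem_divisors] at hs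
      rw [Finset.mem_filter, Nat.mem_divisors]
      exact ⟨⟨Nat.mul_dvd_mul_left q hs.1, by omega⟩, Dvd.intro _ rfl⟩
    · intro a _ b _ h
      exact Nat.eq_of_mul_eq_mul_left hq h
    · intro r hr
      rw [Finset.mem_filter, Nat.mem_divisors] at hr
      obtain ⟨⟨h2, h3⟩, s, rfl⟩ := hr
      refine ⟨s, ?_, rfl⟩
      rw [Nat.mem_divisors]
      refine ⟨Nat.dvd_of_mul_dvd_mul_left hq h2, ?_⟩
      rintro rfl
      simp at he
  · rw [if_neg h]
    apply Finset.sum_eq_zero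
    intro r hr
    rw [Nat.mem_divisors] at hr
    rw [if_neg (fun h2 => h (h2.trans hr.1))]

theorem wX_VX (E : ℕ) (x : ℕ → ℝ) {q : ℕ} (hq : 1 ≤ q) :
    wX E x q = ∑ d ∈ Finset.Icc 1 E, VX E x d * (if q ∣ d then (1 : ℝ) else 0) := by
  have h := wwf_swap E (fun e => x e / e) (fun d => if q ∣ d then (1 : ℝ) else 0) (fun _ _ => 1)
  simp only [mul_one, one_mul] at h
  unfold VX
  rw [h]
  unfold wX
  rw [Finset.sum_filter]
  apply Finset.sum_congr rfl
  intro e he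
  rw [Finset.mem_Icc] at he
  rw [hk_tau_count hq he.1]
  split_ifs <;> ring

/-- the first part of the form -/
theorem hk_first {T : ℝ} {ρ : ℝ → ℝ} (hρ : KerL T ρ) {y : ℝ} (hy : 0 < y) (E : ℕ)
    (x x' : ℕ → ℝ) :
    ∫ s in Set.Ioi y, ∑' n : ℕ, hkK ρ n s *
      (WW E (wX E x) (n + 1) * WW E (wX E x') (n + 1)) =
      ∑ d ∈ Finset.Icc 1 E, ∑ e ∈ Finset.Icc 1 E, VX E x d * VX E x' e *
        ((Nat.gcd d e : ℝ) * Kk ρ ((Nat.lcm d e : ℝ) * y)) := by
  obtain ⟨M, hM, hW⟩ := hk_wwb E (wX E x)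
  obtain ⟨M', hM', hV⟩ := hk_wwb E (wX E x')
  rw [hk_exch hρ (b := fun n => WW E (wX E x) n * WW E (wX E x') n) (M := M * M') (by
    intro n
    rw [abs_mul]
    exact mul_le_mul (hW n) (hV n) (abs_nonneg _) hM) hy]
  have h1 : ∀ n : ℕ, Hk ρ (((n : ℝ) + 1) * y) / ((n : ℝ) + 1) *
      (WW E (wX E x) (n + 1) * WW E (wX E x') (n + 1)) =
      ∑ d ∈ Finset.Icc 1 E, ∑ e ∈ Finset.Icc 1 E, VX E x d * VX E x' e * (d * e) *
        (Hk ρ (((n : ℝ) + 1) * y) / ((n : ℝ) + 1) *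
          (if Nat.lcm d e ∣ n + 1 then (1 : ℝ) else 0)) := by
    intro n
    rw [WW_VX, WW_VX, Finset.sum_mul_sum, Finset.mul_sum]
    apply Finset.sum_congr rfl
    intro d _
    rw [Finset.mul_sum]
    apply Finset.sum_congr rfl
    intro e _
    by_cases h2 : d ∣ n + 1
    · by_cases h3 : e ∣ n + 1
      · rw [if_pos h2, if_pos h3, if_pos (Nat.lcm_dvd h2 h3)]
        ring
      · rw [if_neg h3, if_neg (fun h4 => h3 ((Nat.dvd_lcm_right d e).trans h4))]
        ring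
    · rw [if_neg h2, if_neg (fun h4 => h2 ((Nat.dvd_lcm_left d e).trans h4))]
      ring
  rw [tsum_congr h1]
  have hlcm : ∀ d ∈ Finset.Icc 1 E, ∀ e ∈ Finset.Icc 1 E, 1 ≤ Nat.lcm d e := by
    intro d hd e he
    rw [Finset.mem_Icc] at hd he
    exact Nat.lcm_pos hd.1 he.1
  rw [Summable.tsum_finsetSum]
  · apply Finset.sum_congr rfl
    intro d hd
    rw [Summable.tsum_finsetSum]
    · apply Finset.sum_congr rfl
      intro e he
      rw [tsum_mul_left, (hk_mult hρ hy (hlcm d hd e he)).2]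
      have hd0 : (d : ℝ) ≠ 0 := by exact_mod_cast (by rw [Finset.mem_Icc] at hd; omega : d ≠ 0)
      have he0 : (e : ℝ) ≠ 0 := by exact_mod_cast (by rw [Finset.mem_Icc] at he; omega : e ≠ 0)
      have hL : (Nat.lcm d e : ℝ) ≠ 0 := by exact_mod_cast (by have := hlcm d hd e he; omega : Nat.lcm d e ≠ 0)
      have hgl : (Nat.gcd d e : ℝ) * (Nat.lcm d e : ℝ) = d * e := by
        exact_mod_cast Nat.gcd_mul_lcm d e
      rw [← hgl]
      field_simp
    · intro e he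
      exact ((hk_mult hρ hy (hlcm d hd e he)).1).mul_left _
  · intro d hd
    exact summable_sum fun e he => ((hk_mult hρ hy (hlcm d hd e he)).1).mul_left _

/-- `∑_{q ∣ g} φ(q) log q` -/
noncomputable def Phl (g : ℕ) : ℝ := ∑ q ∈ g.divisors, phi q * Real.log q

theorem hk_phi_sum (g : ℕ) : ∑ q ∈ g.divisors, phi q = (g : ℝ) := by
  have := Nat.sum_totient g
  unfold phi
  exact_mod_cast this

/-- the second part of the form -/
theorem hk_second {E : ℕ} (x x' : ℕ → ℝ) (c : ℕ → ℝ) :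
    ∑ q ∈ Finset.Icc 1 E, phi q * (wX E x q * wX E x' q) * c q =
      ∑ d ∈ Finset.Icc 1 E, ∑ e ∈ Finset.Icc 1 E, VX E x d * VX E x' e *
        ∑ q ∈ (Nat.gcd d e).divisors, phi q * c q := by
  have h1 : ∀ q ∈ Finset.Icc 1 E, phi q * (wX E x q * wX E x' q) * c q =
      ∑ d ∈ Finset.Icc 1 E, ∑ e ∈ Finset.Icc 1 E, VX E x d * VX E x' e *
        (if q ∣ d ∧ q ∣ e then phi q * c q else 0) := by
    intro q hq
    rw [Finset.mem_Icc] at hq
    rw [wX_VX E x hq.1, wX_VX E x' hq.1, Finset.sum_mul_sum, Finset.mul_sum, Finset.sum_mul]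
    apply Finset.sum_congr rfl
    intro d _
    rw [Finset.mul_sum, Finset.sum_mul]
    apply Finset.sum_congr rfl
    intro e _
    by_cases h2 : q ∣ d
    · by_cases h3 : q ∣ e
      · rw [if_pos h2, if_pos h3, if_pos ⟨h2, h3⟩]
        ring
      · rw [if_neg h3, if_neg (show ¬ (q ∣ d ∧ q ∣ e) from fun h4 => h3 h4.2)]
        ring
    · rw [if_neg h2, if_neg (show ¬ (q ∣ d ∧ q ∣ e) from fun h4 => h2 h4.1)]
      ring
  rw [Finset.sum_congr rfl h1, Finset.sum_comm]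
  apply Finset.sum_congr rfl
  intro d hd
  rw [Finset.sum_comm]
  apply Finset.sum_congr rfl
  intro e he
  rw [Finset.mem_Icc] at hd he
  rw [← Finset.mul_sum, ← Finset.sum_filter]
  congr 1
  apply Finset.sum_congr _ (fun _ _ => rfl)
  ext q
  rw [Finset.mem_filter, Finset.mem_Icc, Nat.mem_divisors, Nat.dvd_gcd_iff]
  constructor
  · rintro ⟨-, h2⟩
    exact ⟨h2, Nat.gcd_ne_zero_left (by omega)⟩
  · rintro ⟨h2, -⟩
    exact ⟨⟨Nat.pos_of_dvd_of_pos h2.1 hd.1, (Nat.le_of_dvd hd.1 h2.1).trans hd.2⟩, h2⟩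

/-- the kernel of the form -/
noncomputable def beK (ρ : ℝ → ℝ) (y c₀ r : ℝ) (g L : ℕ) : ℝ :=
  2 * Real.pi * ((g : ℝ) * Kk ρ (r * (L : ℝ) * y)) +
    Real.pi * (g * c₀ + 2 * Cr ρ * Phl g)

/-- the constant -/
noncomputable def cK (ρ : ℝ → ℝ) (y : ℝ) (N : ℕ) : ℝ :=
  Cr ρ * (2 * Real.log y + Real.log N) + Cl ρ

/-- the exact formula for the form -/
theorem shB_eq {T : ℝ} {ρ : ℝ → ℝ} (hρ : KerL T ρ) {E : ℕ} (hE : 1 ≤ E) (x x' : ℕ → ℝ) {N : ℕ}
    (hN : 1 ≤ N) : shB ρ T E x x' N =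
      ∑ d ∈ Finset.Icc 1 E, ∑ e ∈ Finset.Icc 1 E, VX E x d * VX E x' e *
        beK ρ (yo T E) (cK ρ (yo T E) N) 1 (Nat.gcd d e) (Nat.lcm d e) := by
  have hT := hρ.T1
  have hyo : 0 < yo T E := by
    unfold yo
    have : (0 : ℝ) < E := by exact_mod_cast hE
    positivity
  have h1 := hk_first hρ hyo E x x'
  unfold hkK at h1
  unfold shB
  rw [h1, hk_second (E := E) x x' (fun q => Cr ρ * (2 * Real.log (yo T E) +
    Real.log ((N : ℝ) * (q : ℝ) ^ 2)) + Cl ρ), Finset.mul_sum, Finset.mul_sum,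
    ← Finset.sum_add_distrib]
  apply Finset.sum_congr rfl
  intro d hd
  rw [Finset.mul_sum, Finset.mul_sum, ← Finset.sum_add_distrib]
  apply Finset.sum_congr rfl
  intro e he
  have h2 : ∑ q ∈ (Nat.gcd d e).divisors, phi q * (Cr ρ * (2 * Real.log (yo T E) +
      Real.log ((N : ℝ) * (q : ℝ) ^ 2)) + Cl ρ) =
      (Nat.gcd d e : ℝ) * cK ρ (yo T E) N + 2 * Cr ρ * Phl (Nat.gcd d e) := by
    rw [← hk_phi_sum (Nat.gcd d e), Finset.sum_mul]
    unfold Phl
    rw [Finset.mul_sum, ← Finset.sum_add_distrib]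
    apply Finset.sum_congr rfl
    intro q hq
    have hq0 : (0 : ℝ) < q := by exact_mod_cast Nat.pos_of_mem_divisors hq
    have hN0 : (0 : ℝ) < N := by exact_mod_cast hN
    rw [Real.log_mul hN0.ne' (by positivity), Real.log_pow]
    unfold cK
    push_cast
    ring
  rw [h2]
  unfold beK
  rw [one_mul]
  ring

end Pool.Agent.LSP
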