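import Pool.Agent.Lib_helper98.HK.C3

/-! LSP2, the cross term of the main part: the comparison. -/

namespace Pool.Agent.LSP

open Pool.Agent.LEV Pool.Agent.LVB Pool.Agent.KSL
open Pool.Agent.FG61 (mu phi cc ff AA Lam)
open Complex MeasureTheory Filter Topology UpperHalfPlane ModularGroup ProbabilityTheory
open scoped MatrixGroups Modular ENNReal ModularForm ComplexConjugate ContDiff

theorem phi_nonneg' (q : ℕ) : 0 ≤ phi q := by unfold phi; positivity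

theorem Phl_nonneg (g : ℕ) : 0 ≤ Phl g := Finset.sum_nonneg fun q hq =>
  mul_nonneg (phi_nonneg' q) (Real.log_nonneg (by exact_mod_cast Nat.pos_of_mem_divisors hq))

theorem Phl_le {g E : ℕ} (hg : 1 ≤ g) (hgE : g ≤ E) : Phl g ≤ g * Real.log E := by
  unfold Phl
  calc ∑ q ∈ g.divisors, phi q * Real.log q ≤ ∑ q ∈ g.divisors, phi q * Real.log E := by
        refine Finset.sum_le_sum fun q hq => mul_le_mul_of_nonneg_left ?_ (phi_nonneg' q)
        have hq0 : (0 : ℝ) < q := by exact_mod_cast Nat.pos_of_mem_divisors hq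
        refine Real.log_le_log hq0 ?_
        exact_mod_cast (Nat.divisor_le hq).trans hgE
    _ = g * Real.log E := by rw [← Finset.sum_mul, hk_phi_sum]

theorem Phl_p {p g : ℕ} (hp : p.Prime) (hg : 1 ≤ g) (hpg : ¬ p ∣ g) :
    Phl (p * g) = p * Phl g + (p - 1) * g * Real.log p := by
  have hp0 := hp.pos
  unfold Phl
  rw [← Finset.sum_filter_add_sum_filter_not (p * g).divisors (fun q => p ∣ q)]
  have h1 : ∑ q ∈ (p * g).divisors.filter (fun q => p ∣ q), phi q * Real.log q =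
      ∑ s ∈ g.divisors, phi (p * s) * Real.log ((p * s : ℕ) : ℝ) := by
    symm
    refine Finset.sum_bij (fun s _ => p * s) ?_ ?_ ?_ ?_
    · intro s hs
      rw [Nat.mem_divisors] at hs
      rw [Finset.mem_filter, Nat.mem_divisors]
      exact ⟨⟨Nat.mul_dvd_mul_left p hs.1, Nat.mul_ne_zero hp0.ne' (by omega)⟩, Dvd.intro _ rfl⟩
    · intro a _ b _ h
      exact Nat.eq_of_mul_eq_mul_left hp0 h
    · intro r hr
      rw [Finset.mem_filter, Nat.mem_divisors] at hr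
      obtain ⟨⟨h2, h3⟩, s, rfl⟩ := hr
      refine ⟨s, ?_, rfl⟩
      rw [Nat.mem_divisors]
      exact ⟨Nat.dvd_of_mul_dvd_mul_left hp0 h2, by omega⟩
    · intro s _
      rfl
  have h2 : (p * g).divisors.filter (fun q => ¬ p ∣ q) = g.divisors := by
    ext q
    rw [Finset.mem_filter, Nat.mem_divisors, Nat.mem_divisors]
    constructor
    · rintro ⟨⟨h3, h4⟩, h5⟩
      refine ⟨?_, by omega⟩
      exact (((Nat.Prime.coprime_iff_not_dvd hp).2 h5).symm).dvd_of_dvd_mul_left h3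
    · rintro ⟨h3, h4⟩
      exact ⟨⟨Dvd.dvd.mul_left h3 p, Nat.mul_ne_zero hp0.ne' h4⟩, fun h5 => hpg (h5.trans h3)⟩
  rw [h1, h2]
  have h3 : ∀ s ∈ g.divisors, phi (p * s) * Real.log ((p * s : ℕ) : ℝ) =
      (p - 1) * (phi s * Real.log s) + (p - 1) * Real.log p * phi s := by
    intro s hs
    rw [Nat.mem_divisors] at hs
    have hps : ¬ p ∣ s := fun h => hpg (h.trans hs.1)
    have hs0 : (0 : ℝ) < s := by
      exact_mod_cast Nat.pos_of_dvd_of_pos hs.1 hg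
    have hpr : (0 : ℝ) < p := by exact_mod_cast hp0
    have h4 : phi (p * s) = (p - 1) * phi s := by
      unfold phi
      rw [Nat.totient_mul ((Nat.Prime.coprime_iff_not_dvd hp).2 hps), Nat.totient_prime hp]
      push_cast [hp.one_lt.le]
      ring
    rw [h4]
    push_cast
    rw [Real.log_mul hpr.ne' hs0.ne']
    ring
  rw [Finset.sum_congr rfl h3, Finset.sum_add_distrib, ← Finset.mul_sum, ← Finset.mul_sum,
    hk_phi_sum]
  ring

/-- the bound for the kernel -/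
theorem beK_le {ρ : ℝ → ℝ} {y c₀ K0 : ℝ} (hy : 0 < y) (hK : ∀ t, y ≤ t → |Kk ρ t| ≤ K0)
    {E g L : ℕ} (hg : 1 ≤ g) (hgE : g ≤ E) (hL : 1 ≤ L) {r : ℝ} (hr : 1 ≤ r) :
    |beK ρ y c₀ r g L| ≤ g * (2 * Real.pi * K0 + Real.pi * (|c₀| + 2 * |Cr ρ| * Real.log E)) := by
  have hg0 : (0 : ℝ) < g := by exact_mod_cast hg
  have hL1 : (1 : ℝ) ≤ L := by exact_mod_cast hL
  have ht : y ≤ r * (L : ℝ) * y := by
    have : 1 ≤ r * L := one_le_mul_of_one_le_of_one_le hr hL1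
    nlinarith
  have h1 := hK _ ht
  have h2 := Phl_le hg hgE
  have h3 := Phl_nonneg g
  have hpi := Real.pi_pos
  unfold beK
  calc |2 * Real.pi * ((g : ℝ) * Kk ρ (r * (L : ℝ) * y)) +
        Real.pi * (g * c₀ + 2 * Cr ρ * Phl g)| ≤
        2 * Real.pi * (g * |Kk ρ (r * (L : ℝ) * y)|) +
          Real.pi * (g * |c₀| + 2 * |Cr ρ| * Phl g) := by
        refine (abs_add_le _ _).trans (add_le_add (le_of_eq ?_) ?_)
        · rw [abs_mul (2 * Real.pi), abs_mul (g : ℝ),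
            abs_of_pos (by positivity : (0 : ℝ) < 2 * Real.pi), abs_of_pos hg0]
        · rw [abs_mul, abs_of_pos hpi]
          refine mul_le_mul_of_nonneg_left ?_ hpi.le
          refine (abs_add_le _ _).trans (le_of_eq ?_)
          rw [abs_mul, abs_mul, abs_mul, abs_of_pos hg0, abs_two, abs_of_nonneg h3]
    _ ≤ 2 * Real.pi * (g * K0) + Real.pi * (g * |c₀| + 2 * |Cr ρ| * (g * Real.log E)) := by
        have : 0 ≤ |Cr ρ| := abs_nonneg _
        gcongr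
    _ = _ := by ring

/-- reindexing -/
theorem hk_reidx {E p : ℕ} (hp : p.Prime) {V : ℕ → ℝ} (s : ∀ d, E < p * d → V d = 0)
    (h : ℕ → ℝ) : ∑ e ∈ Finset.Icc 1 E, V (e / Nat.gcd e p) * h e =
      ∑ e ∈ Finset.Icc 1 E, (if p ∣ e then 0 else V e) * h e +
        ∑ e ∈ Finset.Icc 1 E, V e * h (p * e) := by
  have hp0 := hp.pos
  have h1 : ∑ e ∈ Finset.Icc 1 E, V e * h (p * e) =
      ∑ e ∈ Finset.Icc 1 E, (if p ∣ e then V (e / p) * h e else 0) := by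
    rw [← Finset.sum_filter]
    rw [show ∑ e ∈ Finset.Icc 1 E, V e * h (p * e) =
      ∑ e ∈ (Finset.Icc 1 E).filter (fun e => p * e ≤ E), V e * h (p * e) by
        rw [Finset.sum_filter]
        apply Finset.sum_congr rfl
        intro d _
        split_ifs with h
        · rfl
        · rw [s d (not_le.mp h), zero_mul]]
    refine Finset.sum_bij (fun k _ => p * k) ?_ ?_ ?_ ?_
    · intro k hk
      rw [Finset.mem_filter, Finset.mem_Icc] at hk ⊢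
      exact ⟨⟨Nat.mul_pos hp0 hk.1.1, hk.2⟩, Dvd.intro _ rfl⟩
    · intro a _ b _ h
      exact Nat.eq_of_mul_eq_mul_left hp0 h
    · intro d hd
      rw [Finset.mem_filter, Finset.mem_Icc] at hd
      obtain ⟨⟨h5, h6⟩, i, rfl⟩ := hd
      refine ⟨i, ?_, rfl⟩
      rw [Finset.mem_filter, Finset.mem_Icc]
      have hi : 1 ≤ i := Nat.one_le_iff_ne_zero.mpr (by rintro rfl; simp at h5)
      exact ⟨⟨hi, le_trans (Nat.le_mul_of_pos_left i hp0) h6⟩, h6⟩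
    · intro k _
      rw [Nat.mul_div_cancel_left _ hp0]
  rw [h1, ← Finset.sum_add_distrib]
  apply Finset.sum_congr rfl
  intro e he
  by_cases h2 : p ∣ e
  · rw [if_pos h2, if_pos h2, Nat.gcd_eq_right h2]
    ring
  · have h3 : Nat.gcd e p = 1 := ((Nat.Prime.coprime_iff_not_dvd hp).2 h2).symm
    rw [if_neg h2, if_neg h2, h3, Nat.div_one]
    ring

theorem hk_reidx0 {E p : ℕ} (hp : p.Prime) {V : ℕ → ℝ} (s : ∀ d, E < d → V d = 0)
    (h : ℕ → ℝ) : ∑ d ∈ Finset.Icc 1 E, V d * h d =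
      ∑ d ∈ Finset.Icc 1 E, (if p ∣ d then 0 else V d) * h d +
        ∑ d ∈ Finset.Icc 1 E, V (p * d) * h (p * d) := by
  have hp0 := hp.pos
  have h1 : ∑ e ∈ Finset.Icc 1 E, V (p * e) * h (p * e) =
      ∑ e ∈ Finset.Icc 1 E, (if p ∣ e then V e * h e else 0) := by
    rw [← Finset.sum_filter]
    rw [show ∑ e ∈ Finset.Icc 1 E, V (p * e) * h (p * e) =
      ∑ e ∈ (Finset.Icc 1 E).filter (fun e => p * e ≤ E), V (p * e) * h (p * e) by
        rw [Finset.sum_filter]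
        apply Finset.sum_congr rfl
        intro d _
        split_ifs with h
        · rfl
        · rw [s _ (not_le.mp h), zero_mul]]
    refine Finset.sum_bij (fun k _ => p * k) ?_ ?_ ?_ ?_
    · intro k hk
      rw [Finset.mem_filter, Finset.mem_Icc] at hk ⊢
      exact ⟨⟨Nat.mul_pos hp0 hk.1.1, hk.2⟩, Dvd.intro _ rfl⟩
    · intro a _ b _ h
      exact Nat.eq_of_mul_eq_mul_left hp0 h
    · intro d hd
      rw [Finset.mem_filter, Finset.mem_Icc] at hd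
      obtain ⟨⟨h5, h6⟩, i, rfl⟩ := hd
      refine ⟨i, ?_, rfl⟩
      rw [Finset.mem_filter, Finset.mem_Icc]
      have hi : 1 ≤ i := Nat.one_le_iff_ne_zero.mpr (by rintro rfl; simp at h5)
      exact ⟨⟨hi, le_trans (Nat.le_mul_of_pos_left i hp0) h6⟩, h6⟩
    · intro k _
      rfl
  rw [h1, ← Finset.sum_add_distrib]
  apply Finset.sum_congr rfl
  intro e he
  split_ifs <;> ring

/-- the kernel at `(p d, p e)` -/
theorem beK_pp {ρ : ℝ → ℝ} {y c₀ : ℝ} {p g L : ℕ} (hp : p.Prime) (hg : 1 ≤ g) (hpg : ¬ p ∣ g) :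
    beK ρ y c₀ 1 (p * g) (p * L) =
      p * (beK ρ y c₀ p g L + 2 * Real.pi * Cr ρ * (1 - 1 / p) * (g * Real.log p)) := by
  have hpr : (p : ℝ) ≠ 0 := by exact_mod_cast hp.ne_zero
  unfold beK
  rw [Phl_p hp hg hpg]
  push_cast
  have h1 : (1 : ℝ) * ((p : ℝ) * L) * y = p * L * y := by ring
  rw [h1]
  field_simp
  ring

/-- the terms with `p e` -/
theorem hk_D3 {ρ : ℝ → ℝ} {y c₀ : ℝ} {E p : ℕ} (hp : p.Prime) {V0 V1 F0 : ℕ → ℝ}
    (e0 : ∀ d, 1 ≤ d → ¬ p ∣ d → p * V0 (p * d) = F0 d) (z0 : ∀ d, p ∣ d → V0 (p * d) = 0)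
    (s0 : ∀ d, E < d → V0 d = 0) :
    ∑ d ∈ Finset.Icc 1 E, ∑ e ∈ Finset.Icc 1 E,
      V0 d * V1 e * beK ρ y c₀ 1 (Nat.gcd d (p * e)) (Nat.lcm d (p * e)) =
    ∑ d ∈ Finset.Icc 1 E, ∑ e ∈ Finset.Icc 1 E, ((if p ∣ e then
        V0 d * V1 e * beK ρ y c₀ 1 (Nat.gcd d (p * e)) (Nat.lcm d (p * e)) else 0) +
      (if p ∣ e ∨ p ∣ d then 0 else V0 d * V1 e * beK ρ y c₀ p (Nat.gcd d e) (Nat.lcm d e)) +
      (if p ∣ e ∨ p ∣ d then 0 else F0 d * V1 e * (beK ρ y c₀ p (Nat.gcd d e) (Nat.lcm d e) +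
        2 * Real.pi * Cr ρ * (1 - 1 / p) * (Nat.gcd d e * Real.log p)))) := by
  have hp0 := hp.pos
  have hpr : (p : ℝ) ≠ 0 := by exact_mod_cast hp0.ne'
  rw [Finset.sum_comm, Finset.sum_comm (s := Finset.Icc 1 E) (t := Finset.Icc 1 E)
    (f := fun d e => ((if p ∣ e then
        V0 d * V1 e * beK ρ y c₀ 1 (Nat.gcd d (p * e)) (Nat.lcm d (p * e)) else 0) +
      (if p ∣ e ∨ p ∣ d then 0 else V0 d * V1 e * beK ρ y c₀ p (Nat.gcd d e) (Nat.lcm d e)) +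
      (if p ∣ e ∨ p ∣ d then 0 else F0 d * V1 e * (beK ρ y c₀ p (Nat.gcd d e) (Nat.lcm d e) +
        2 * Real.pi * Cr ρ * (1 - 1 / p) * (Nat.gcd d e * Real.log p)))))]
  apply Finset.sum_congr rfl
  intro e he
  rw [Finset.mem_Icc] at he
  by_cases hpe : p ∣ e
  · apply Finset.sum_congr rfl
    intro d _
    rw [if_pos hpe, if_pos (Or.inl hpe), if_pos (Or.inl hpe)]
    ring
  · have h1 : ∑ d ∈ Finset.Icc 1 E,
        V0 d * V1 e * beK ρ y c₀ 1 (Nat.gcd d (p * e)) (Nat.lcm d (p * e)) =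
        ∑ d ∈ Finset.Icc 1 E,
          V0 d * (V1 e * beK ρ y c₀ 1 (Nat.gcd d (p * e)) (Nat.lcm d (p * e))) :=
      Finset.sum_congr rfl fun d _ => by ring
    rw [h1, hk_reidx0 hp s0 (fun d => V1 e * beK ρ y c₀ 1 (Nat.gcd d (p * e)) (Nat.lcm d (p * e))),
      ← Finset.sum_add_distrib]
    apply Finset.sum_congr rfl
    intro d hd
    rw [Finset.mem_Icc] at hd
    by_cases hpd : p ∣ d
    · rw [if_pos hpd, if_neg hpe, if_pos (Or.inr hpd), if_pos (Or.inr hpd), z0 d hpd]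
      ring
    · have hno : ¬ (p ∣ e ∨ p ∣ d) := fun h => h.elim hpe hpd
      rw [if_neg hpd, if_neg hpe, if_neg hno, if_neg hno]
      have hcd : Nat.Coprime d p := ((Nat.Prime.coprime_iff_not_dvd hp).2 hpd).symm
      have hg1 : Nat.gcd d (p * e) = Nat.gcd d e := hcd.symm.gcd_mul_left_cancel_right e
      have hL1 : Nat.lcm d (p * e) = p * Nat.lcm d e := by
        apply Nat.eq_of_mul_eq_mul_left (Nat.gcd_pos_of_pos_left e hd.1)
        have h2 := Nat.gcd_mul_lcm d (p * e)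
        rw [hg1] at h2
        have h3 := Nat.gcd_mul_lcm d e
        calc Nat.gcd d e * Nat.lcm d (p * e) = d * (p * e) := h2
          _ = p * (d * e) := by ring
          _ = p * (Nat.gcd d e * Nat.lcm d e) := by rw [h3]
          _ = Nat.gcd d e * (p * Nat.lcm d e) := by ring
      have h4 : beK ρ y c₀ 1 (Nat.gcd d (p * e)) (Nat.lcm d (p * e)) =
          beK ρ y c₀ p (Nat.gcd d e) (Nat.lcm d e) := by
        rw [hg1, hL1]
        unfold beK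
        push_cast
        rw [one_mul]
      have hg : 1 ≤ Nat.gcd d e := Nat.gcd_pos_of_pos_left e hd.1
      have hpg : ¬ p ∣ Nat.gcd d e := fun h => hpd (h.trans (Nat.gcd_dvd_left d e))
      have h5 : beK ρ y c₀ 1 (Nat.gcd (p * d) (p * e)) (Nat.lcm (p * d) (p * e)) =
          p * (beK ρ y c₀ p (Nat.gcd d e) (Nat.lcm d e) +
            2 * Real.pi * Cr ρ * (1 - 1 / p) * (Nat.gcd d e * Real.log p)) := by
        rw [Nat.gcd_mul_left, Nat.lcm_mul_left]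
        exact beK_pp hp hg hpg
      simp only [h4, h5]
      rw [← e0 d hd.1 hpd]
      ring

/-- the comparison of the cross term with a smooth function -/
theorem cross_abs {ρ : ℝ → ℝ} {E p : ℕ} (hE : 1 ≤ E) (hp : p.Prime) {y c₀ K0 : ℝ} (hy : 0 < y)
    (hK : ∀ t, y ≤ t → |Kk ρ t| ≤ K0) (hK0 : 0 ≤ K0) {V0 V1 F0 F1 : ℕ → ℝ} {B : ℝ} (hB : 0 ≤ B)
    (h0 : ∀ d, 1 ≤ d → |V0 d| ≤ B / d) (h1 : ∀ d, 1 ≤ d → |V1 d| ≤ B / d)
    (f0 : ∀ d, 1 ≤ d → |F0 d| ≤ B / d) (f1 : ∀ d, 1 ≤ d → |F1 d| ≤ B / d)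
    (e0 : ∀ d, 1 ≤ d → ¬ p ∣ d → p * V0 (p * d) = F0 d) (z0 : ∀ d, p ∣ d → V0 (p * d) = 0)
    (e1 : ∀ d, 1 ≤ d → ¬ p ∣ d → p * V1 (p * d) = F1 d) (z1 : ∀ d, p ∣ d → V1 (p * d) = 0)
    (s0 : ∀ d, E < d → V0 d = 0) (s1 : ∀ d, E < p * d → V1 d = 0) :
    |∑ d ∈ Finset.Icc 1 E, ∑ e ∈ Finset.Icc 1 E, V0 d * (V1 (e / Nat.gcd e p) + p * V1 (p * e)) *
        beK ρ y c₀ 1 (Nat.gcd d e) (Nat.lcm d e) -
      ∑ d ∈ Finset.Icc 1 E, ∑ e ∈ Finset.Icc 1 E,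
        (V0 d * F1 e * beK ρ y c₀ 1 (Nat.gcd d e) (Nat.lcm d e) +
        V0 d * V1 e * beK ρ y c₀ 1 (Nat.gcd d e) (Nat.lcm d e) +
        V0 d * V1 e * beK ρ y c₀ p (Nat.gcd d e) (Nat.lcm d e) +
        F0 d * V1 e * (beK ρ y c₀ p (Nat.gcd d e) (Nat.lcm d e) +
          2 * Real.pi * Cr ρ * (Nat.gcd d e * Real.log p)))| ≤
      40 / p * (B ^ 2 * (2 * Real.pi * K0 + Real.pi * (|c₀| + 2 * |Cr ρ| * Real.log E) +
        2 * Real.pi * |Cr ρ| * Real.log p)) * HE E ^ 3 := by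
  have hp0 := hp.pos
  have hpr : (0 : ℝ) < p := by exact_mod_cast hp0
  have hp1 : (1 : ℝ) ≤ p := by exact_mod_cast hp0
  have hlp : 0 ≤ Real.log p := Real.log_nonneg hp1
  have hlE : 0 ≤ Real.log E := Real.log_nonneg (by exact_mod_cast hE)
  set BK : ℝ := 2 * Real.pi * K0 + Real.pi * (|c₀| + 2 * |Cr ρ| * Real.log E) with hBK
  set LP : ℝ := 2 * Real.pi * |Cr ρ| * Real.log p with hLP
  have hpi := Real.pi_pos
  have hBK0 : 0 ≤ BK := by positivity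
  have hLP0 : 0 ≤ LP := by positivity
  have hH := HE_nonneg E
  set b1 : ℕ → ℕ → ℝ := fun d e => beK ρ y c₀ 1 (Nat.gcd d e) (Nat.lcm d e) with hb1
  set bp : ℕ → ℕ → ℝ := fun d e => beK ρ y c₀ p (Nat.gcd d e) (Nat.lcm d e) with hbp
  set bq : ℕ → ℕ → ℝ := fun d e => beK ρ y c₀ 1 (Nat.gcd d (p * e)) (Nat.lcm d (p * e)) with hbq
  -- bounds
  have kb1 : ∀ d e, 1 ≤ d → d ≤ E → 1 ≤ e → e ≤ E → |b1 d e| ≤ (Nat.gcd d e : ℝ) * BK := by
    intro d e hd hd' he he'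
    exact beK_le hy hK (Nat.gcd_pos_of_pos_left e hd) ((Nat.gcd_le_left e hd).trans hd')
      (Nat.lcm_pos hd he) le_rfl
  have kbp : ∀ d e, 1 ≤ d → d ≤ E → 1 ≤ e → e ≤ E → |bp d e| ≤ (Nat.gcd d e : ℝ) * BK := by
    intro d e hd hd' he he'
    exact beK_le hy hK (Nat.gcd_pos_of_pos_left e hd) ((Nat.gcd_le_left e hd).trans hd')
      (Nat.lcm_pos hd he) hp1
  have kbq : ∀ d e, 1 ≤ d → d ≤ E → 1 ≤ e → e ≤ E →
      |bq d e| ≤ (Nat.gcd d (p * e) : ℝ) * BK := by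
    intro d e hd hd' he he'
    exact beK_le hy hK (Nat.gcd_pos_of_pos_left _ hd) ((Nat.gcd_le_left _ hd).trans hd')
      (Nat.lcm_pos hd (Nat.mul_pos hp0 he)) le_rfl
  -- the product of two coefficients and a kernel
  have prod : ∀ {a b c : ℝ} {d e : ℕ} {G K : ℝ}, 1 ≤ d → 1 ≤ e → |a| ≤ B / d → |b| ≤ B / e →
      |c| ≤ G * K → 0 ≤ G → 0 ≤ K → |a * b * c| ≤ B ^ 2 * K * (G / (d * e)) := by
    intro a b c d e G K hd he ha hb hc hG hK'
    have hd0 : (0 : ℝ) < d := by exact_mod_cast hd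
    have he0 : (0 : ℝ) < e := by exact_mod_cast he
    rw [abs_mul, abs_mul]
    calc |a| * |b| * |c| ≤ (B / d) * (B / e) * (G * K) := by gcongr
      _ = _ := by field_simp
  -- the identity
  have hP : ∑ d ∈ Finset.Icc 1 E, ∑ e ∈ Finset.Icc 1 E,
      V0 d * (V1 (e / Nat.gcd e p) + p * V1 (p * e)) * b1 d e =
      ∑ d ∈ Finset.Icc 1 E, ∑ e ∈ Finset.Icc 1 E, (V0 d * (p * V1 (p * e)) * b1 d e +
        V0 d * (if p ∣ e then 0 else V1 e) * b1 d e + V0 d * V1 e * bq d e) := by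
    apply Finset.sum_congr rfl
    intro d _
    have h2 := hk_reidx hp s1 (fun e => V0 d * b1 d e)
    have h3 : ∀ e, V0 d * (V1 (e / Nat.gcd e p) + p * V1 (p * e)) * b1 d e =
        V1 (e / Nat.gcd e p) * (V0 d * b1 d e) + V0 d * (p * V1 (p * e)) * b1 d e := by
      intro e; ring
    rw [Finset.sum_congr rfl (fun e _ => h3 e), Finset.sum_add_distrib, h2,
      Finset.sum_add_distrib, Finset.sum_add_distrib]
    have h4 : ∑ e ∈ Finset.Icc 1 E, V1 e * (V0 d * b1 d (p * e)) =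
        ∑ e ∈ Finset.Icc 1 E, V0 d * V1 e * bq d e :=
      Finset.sum_congr rfl fun e _ => by simp only [hb1, hbq]; ring
    have h5 : ∑ e ∈ Finset.Icc 1 E, (if p ∣ e then 0 else V1 e) * (V0 d * b1 d e) =
        ∑ e ∈ Finset.Icc 1 E, V0 d * (if p ∣ e then 0 else V1 e) * b1 d e :=
      Finset.sum_congr rfl fun e _ => by ring
    rw [h4, h5]
    ring
  have hD3 := hk_D3 (ρ := ρ) (y := y) (c₀ := c₀) (E := E) (V1 := V1) hp e0 z0 s0
  -- the six errors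
  set g1 : ℕ → ℕ → ℝ := fun d e => V0 d * (p * V1 (p * e) - F1 e) * b1 d e with hg1
  set g2 : ℕ → ℕ → ℝ := fun d e => V0 d * ((if p ∣ e then 0 else V1 e) - V1 e) * b1 d e with hg2
  set g3 : ℕ → ℕ → ℝ := fun d e => if p ∣ e then V0 d * V1 e * bq d e else 0 with hg3
  set g4 : ℕ → ℕ → ℝ := fun d e => (if p ∣ e ∨ p ∣ d then 0 else V0 d * V1 e * bp d e) -
    V0 d * V1 e * bp d e with hg4
  set g5 : ℕ → ℕ → ℝ := fun d e => (if p ∣ e ∨ p ∣ d then 0 else F0 d * V1 e * (bp d e +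
      2 * Real.pi * Cr ρ * (Nat.gcd d e * Real.log p))) - F0 d * V1 e * (bp d e +
      2 * Real.pi * Cr ρ * (Nat.gcd d e * Real.log p)) with hg5
  set g6 : ℕ → ℕ → ℝ := fun d e => if p ∣ e ∨ p ∣ d then 0 else F0 d * V1 e *
    (-(2 * Real.pi * Cr ρ * (1 / p) * (Nat.gcd d e * Real.log p))) with hg6
  have hid : ∑ d ∈ Finset.Icc 1 E, ∑ e ∈ Finset.Icc 1 E,
        V0 d * (V1 (e / Nat.gcd e p) + p * V1 (p * e)) * b1 d e -
      ∑ d ∈ Finset.Icc 1 E, ∑ e ∈ Finset.Icc 1 E,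
        (V0 d * F1 e * b1 d e + V0 d * V1 e * b1 d e + V0 d * V1 e * bp d e +
        F0 d * V1 e * (bp d e + 2 * Real.pi * Cr ρ * (Nat.gcd d e * Real.log p))) =
      (∑ d ∈ Finset.Icc 1 E, ∑ e ∈ Finset.Icc 1 E, g1 d e) +
      (∑ d ∈ Finset.Icc 1 E, ∑ e ∈ Finset.Icc 1 E, g2 d e) +
      (∑ d ∈ Finset.Icc 1 E, ∑ e ∈ Finset.Icc 1 E, g3 d e) +
      (∑ d ∈ Finset.Icc 1 E, ∑ e ∈ Finset.Icc 1 E, g4 d e) +
      (∑ d ∈ Finset.Icc 1 E, ∑ e ∈ Finset.Icc 1 E, g5 d e) +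
      (∑ d ∈ Finset.Icc 1 E, ∑ e ∈ Finset.Icc 1 E, g6 d e) := by
    rw [hP]
    have h2 : ∑ d ∈ Finset.Icc 1 E, ∑ e ∈ Finset.Icc 1 E, (V0 d * (p * V1 (p * e)) * b1 d e +
        V0 d * (if p ∣ e then 0 else V1 e) * b1 d e + V0 d * V1 e * bq d e) =
        ∑ d ∈ Finset.Icc 1 E, ∑ e ∈ Finset.Icc 1 E, (V0 d * (p * V1 (p * e)) * b1 d e +
        V0 d * (if p ∣ e then 0 else V1 e) * b1 d e + ((if p ∣ e then
        V0 d * V1 e * bq d e else 0) +
      (if p ∣ e ∨ p ∣ d then 0 else V0 d * V1 e * bp d e) +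
      (if p ∣ e ∨ p ∣ d then 0 else F0 d * V1 e * (bp d e +
        2 * Real.pi * Cr ρ * (1 - 1 / p) * (Nat.gcd d e * Real.log p))))) := by
      simp only [Finset.sum_add_distrib] at hD3 ⊢
      rw [← hD3]
    rw [h2]
    simp only [← Finset.sum_add_distrib, ← Finset.sum_sub_distrib]
    apply Finset.sum_congr rfl
    intro d _
    apply Finset.sum_congr rfl
    intro e _
    simp only [hg1, hg2, hg3, hg4, hg5, hg6]
    by_cases k1 : p ∣ e ∨ p ∣ d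
    · simp only [if_pos k1]
      ring
    · simp only [if_neg k1]
      ring
  rw [hid]
  -- the bounds
  have hKK : 0 ≤ B ^ 2 * BK := by positivity
  have hKL : 0 ≤ B ^ 2 * (BK + LP) := by positivity
  have b_1 : |∑ d ∈ Finset.Icc 1 E, ∑ e ∈ Finset.Icc 1 E, g1 d e| ≤
      8 / p * (B ^ 2 * BK) * HE E ^ 3 := by
    refine ds_p hp hKK ?_ ?_
    · intro d e hd hd' he he'
      simp only [hg1]
      refine prod hd he (h0 d hd) ?_ (kb1 d e hd hd' he he') (Nat.cast_nonneg _) hBK0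
      by_cases hpe : p ∣ e
      · rw [z1 e hpe, mul_zero, zero_sub, abs_neg]
        exact f1 e he
      · rw [e1 e he hpe, sub_self, abs_zero]
        positivity
    · intro d e hpd hpe
      simp only [hg1]
      by_cases he : e = 0
      · exact absurd (he ▸ dvd_zero p) hpe
      · rw [e1 e (Nat.one_le_iff_ne_zero.mpr he) hpe]
        ring
  have b_2 : |∑ d ∈ Finset.Icc 1 E, ∑ e ∈ Finset.Icc 1 E, g2 d e| ≤
      8 / p * (B ^ 2 * BK) * HE E ^ 3 := by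
    refine ds_p hp hKK ?_ ?_
    · intro d e hd hd' he he'
      simp only [hg2]
      refine prod hd he (h0 d hd) ?_ (kb1 d e hd hd' he he') (Nat.cast_nonneg _) hBK0
      split_ifs
      · rw [zero_sub, abs_neg]
        exact h1 e he
      · rw [sub_self, abs_zero]
        positivity
    · intro d e hpd hpe
      simp only [hg2]
      rw [if_neg hpe]
      ring
  have b_3 : |∑ d ∈ Finset.Icc 1 E, ∑ e ∈ Finset.Icc 1 E, g3 d e| ≤
      4 / p * (B ^ 2 * BK) * HE E ^ 3 := by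
    refine ds_pp hp hKK ?_ ?_
    · intro d e hd hd' he he'
      simp only [hg3]
      have hG : (0 : ℝ) ≤ (Nat.gcd d (p * e) : ℝ) := Nat.cast_nonneg _
      split_ifs
      · exact prod hd he (h0 d hd) (h1 e he) (kbq d e hd hd' he he') hG hBK0
      · rw [abs_zero]
        positivity
    · intro d e hpe
      simp only [hg3]
      rw [if_neg hpe]
  have b_4 : |∑ d ∈ Finset.Icc 1 E, ∑ e ∈ Finset.Icc 1 E, g4 d e| ≤
      8 / p * (B ^ 2 * BK) * HE E ^ 3 := by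
    refine ds_p hp hKK ?_ ?_
    · intro d e hd hd' he he'
      simp only [hg4]
      split_ifs
      · rw [zero_sub, abs_neg]
        exact prod hd he (h0 d hd) (h1 e he) (kbp d e hd hd' he he') (Nat.cast_nonneg _) hBK0
      · rw [sub_self, abs_zero]
        positivity
    · intro d e hpd hpe
      simp only [hg4]
      rw [if_neg (fun h => h.elim hpe hpd)]
      ring
  have kc : ∀ d e, 1 ≤ d → d ≤ E → 1 ≤ e → e ≤ E → |bp d e +
      2 * Real.pi * Cr ρ * (Nat.gcd d e * Real.log p)| ≤ (Nat.gcd d e : ℝ) * (BK + LP) := by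
    intro d e hd hd' he he'
    refine (abs_add_le _ _).trans ?_
    rw [mul_add]
    refine add_le_add (kbp d e hd hd' he he') (le_of_eq ?_)
    rw [abs_mul, abs_mul, abs_mul, abs_mul, abs_of_pos (by norm_num : (0 : ℝ) < 2),
      abs_of_pos hpi, Nat.abs_cast, abs_of_nonneg hlp, hLP]
    ring
  have b_5 : |∑ d ∈ Finset.Icc 1 E, ∑ e ∈ Finset.Icc 1 E, g5 d e| ≤
      8 / p * (B ^ 2 * (BK + LP)) * HE E ^ 3 := by
    refine ds_p hp hKL ?_ ?_
    · intro d e hd hd' he he'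
      simp only [hg5]
      split_ifs
      · rw [zero_sub, abs_neg]
        exact prod hd he (f0 d hd) (h1 e he) (kc d e hd hd' he he') (Nat.cast_nonneg _)
          (by positivity)
      · rw [sub_self, abs_zero]
        positivity
    · intro d e hpd hpe
      simp only [hg5]
      rw [if_neg (fun h => h.elim hpe hpd)]
      ring
  have b_6 : |∑ d ∈ Finset.Icc 1 E, ∑ e ∈ Finset.Icc 1 E, g6 d e| ≤
      (B ^ 2 * (1 / p * LP)) * HE E ^ 3 := by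
    refine ds_all (by positivity) ?_
    intro d e hd hd' he he'
    simp only [hg6]
    have hG : (0 : ℝ) ≤ (Nat.gcd d e : ℝ) := Nat.cast_nonneg _
    split_ifs
    · rw [abs_zero]
      positivity
    · refine prod hd he (f0 d hd) (h1 e he) (le_of_eq ?_) hG (by positivity)
      rw [abs_neg, abs_mul, abs_mul, abs_mul, abs_mul, abs_mul, abs_of_pos (by norm_num : (0 : ℝ) < 2),
        abs_of_pos hpi, Nat.abs_cast, abs_of_nonneg hlp, hLP,
        abs_of_pos (by positivity : (0 : ℝ) < 1 / p)]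
      ring
  have hall := (abs_add_le ((∑ d ∈ Finset.Icc 1 E, ∑ e ∈ Finset.Icc 1 E, g1 d e) +
      (∑ d ∈ Finset.Icc 1 E, ∑ e ∈ Finset.Icc 1 E, g2 d e) +
      (∑ d ∈ Finset.Icc 1 E, ∑ e ∈ Finset.Icc 1 E, g3 d e) +
      (∑ d ∈ Finset.Icc 1 E, ∑ e ∈ Finset.Icc 1 E, g4 d e) +
      (∑ d ∈ Finset.Icc 1 E, ∑ e ∈ Finset.Icc 1 E, g5 d e))
      (∑ d ∈ Finset.Icc 1 E, ∑ e ∈ Finset.Icc 1 E, g6 d e))
  have hall2 := abs_add_le ((∑ d ∈ Finset.Icc 1 E, ∑ e ∈ Finset.Icc 1 E, g1 d e) +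
      (∑ d ∈ Finset.Icc 1 E, ∑ e ∈ Finset.Icc 1 E, g2 d e) +
      (∑ d ∈ Finset.Icc 1 E, ∑ e ∈ Finset.Icc 1 E, g3 d e) +
      (∑ d ∈ Finset.Icc 1 E, ∑ e ∈ Finset.Icc 1 E, g4 d e))
      (∑ d ∈ Finset.Icc 1 E, ∑ e ∈ Finset.Icc 1 E, g5 d e)
  have hall3 := abs_add_le ((∑ d ∈ Finset.Icc 1 E, ∑ e ∈ Finset.Icc 1 E, g1 d e) +
      (∑ d ∈ Finset.Icc 1 E, ∑ e ∈ Finset.Icc 1 E, g2 d e) +
      (∑ d ∈ Finset.Icc 1 E, ∑ e ∈ Finset.Icc 1 E, g3 d e))
      (∑ d ∈ Finset.Icc 1 E, ∑ e ∈ Finset.Icc 1 E, g4 d e)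
  have hall4 := abs_add_le ((∑ d ∈ Finset.Icc 1 E, ∑ e ∈ Finset.Icc 1 E, g1 d e) +
      (∑ d ∈ Finset.Icc 1 E, ∑ e ∈ Finset.Icc 1 E, g2 d e))
      (∑ d ∈ Finset.Icc 1 E, ∑ e ∈ Finset.Icc 1 E, g3 d e)
  have hall5 := abs_add_le (∑ d ∈ Finset.Icc 1 E, ∑ e ∈ Finset.Icc 1 E, g1 d e)
      (∑ d ∈ Finset.Icc 1 E, ∑ e ∈ Finset.Icc 1 E, g2 d e)
  have hq1 : 0 ≤ 1 / (p : ℝ) * (B ^ 2 * BK) * HE E ^ 3 := by positivity
  have hq2 : 0 ≤ 1 / (p : ℝ) * (B ^ 2 * LP) * HE E ^ 3 := by positivity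
  have hq3 : 8 / (p : ℝ) * (B ^ 2 * BK) * HE E ^ 3 = 8 * (1 / (p : ℝ) * (B ^ 2 * BK) * HE E ^ 3) := by
    ring
  have hq4 : 4 / (p : ℝ) * (B ^ 2 * BK) * HE E ^ 3 = 4 * (1 / (p : ℝ) * (B ^ 2 * BK) * HE E ^ 3) := by
    ring
  have hq5 : 8 / (p : ℝ) * (B ^ 2 * (BK + LP)) * HE E ^ 3 =
      8 * (1 / (p : ℝ) * (B ^ 2 * BK) * HE E ^ 3) + 8 * (1 / (p : ℝ) * (B ^ 2 * LP) * HE E ^ 3) := by
    ring
  have hq6 : (B ^ 2 * (1 / (p : ℝ) * LP)) * HE E ^ 3 = 1 / (p : ℝ) * (B ^ 2 * LP) * HE E ^ 3 := by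
    ring
  have hq7 : 40 / (p : ℝ) * (B ^ 2 * (BK + LP)) * HE E ^ 3 =
      40 * (1 / (p : ℝ) * (B ^ 2 * BK) * HE E ^ 3) + 40 * (1 / (p : ℝ) * (B ^ 2 * LP) * HE E ^ 3) := by
    ring
  rw [hq3] at b_1 b_2 b_4
  rw [hq4] at b_3
  rw [hq5] at b_5
  rw [hq6] at b_6
  rw [hq7]
  linarith

end Pool.Agent.LSP
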