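import Pool.Agent.Lib_helper98.HK.C4
import Pool.Agent.Lib_helper98.HK.W2
import Pool.Agent.Lib_helper68.KSLF.BET

/-! LSP2, the cross term of the main part: the coordinates of the two mollifiers. -/

namespace Pool.Agent.LSP

open Pool.Agent.LEV Pool.Agent.LVB Pool.Agent.KSL
open Pool.Agent.FG61 (mu phi cc ff AA Lam)
open Complex MeasureTheory Filter Topology UpperHalfPlane ModularGroup ProbabilityTheory
open scoped MatrixGroups Modular ENNReal ModularForm ComplexConjugate ContDiff

theorem VX_eq (E : ℕ) (x : ℕ → ℝ) (d : ℕ) :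
    VX E x d = ∑ e ∈ Finset.Icc 1 E, x e * (if d ∣ e then 1 / (e : ℝ) else 0) := by
  unfold VX
  rw [Finset.sum_filter]
  apply Finset.sum_congr rfl
  intro e _
  split_ifs
  · ring
  · ring

theorem VX_supp {E : ℕ} {x : ℕ → ℝ} {Q : ℕ} (hx : ∀ e, x e ≠ 0 → e ≤ Q) {d : ℕ} (hd : Q < d) :
    VX E x d = 0 := by
  unfold VX
  apply Finset.sum_eq_zero
  intro e he
  rw [Finset.mem_filter, Finset.mem_Icc] at he
  by_contra h
  have h2 : x e ≠ 0 := by
    intro h3
    rw [h3, zero_div] at h
    exact h rfl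
  have h3 := hx e h2
  have h4 := Nat.le_of_dvd (by omega) he.2
  omega

/-- the coordinates of `T_p y` -/
theorem VX_Tp {p E : ℕ} (hp : p.Prime) {y : ℕ → ℝ} (hy : ∀ e, E < p * e → y e = 0) {d : ℕ}
    (hd : 1 ≤ d) : VX E (Tp p y) d = VX E y (d / Nat.gcd d p) / p + VX E y (p * d) := by
  have hp0 : 0 < p := hp.pos
  have hpr : (p : ℝ) ≠ 0 := by exact_mod_cast hp0.ne'
  rw [VX_eq, VX_eq, VX_eq, Tp_sum hp0 hy (fun e => if d ∣ e then 1 / (e : ℝ) else 0),
    Finset.sum_div, ← Finset.sum_add_distrib]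
  apply Finset.sum_congr rfl
  intro c hc
  rw [Finset.mem_Icc] at hc
  have hc0 : (c : ℝ) ≠ 0 := by exact_mod_cast (by omega : c ≠ 0)
  have h1 : d ∣ p * c ↔ d / Nat.gcd d p ∣ c := by
    constructor
    · intro h
      have hg : 0 < Nat.gcd d p := Nat.gcd_pos_of_pos_left p hd
      have h2 : d / Nat.gcd d p ∣ p / Nat.gcd d p * c := by
        apply Nat.dvd_of_mul_dvd_mul_left hg
        rw [Nat.mul_div_cancel' (Nat.gcd_dvd_left d p), ← mul_assoc,
          Nat.mul_div_cancel' (Nat.gcd_dvd_right d p)]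
        exact h
      exact (Nat.coprime_div_gcd_div_gcd hg).dvd_of_dvd_mul_left h2
    · rintro ⟨b, rfl⟩
      have h2 : p * (d / Nat.gcd d p * b) = (p / Nat.gcd d p) * (d * b) := by
        have h3 : p = Nat.gcd d p * (p / Nat.gcd d p) :=
          (Nat.mul_div_cancel' (Nat.gcd_dvd_right d p)).symm
        have h4 : d = Nat.gcd d p * (d / Nat.gcd d p) :=
          (Nat.mul_div_cancel' (Nat.gcd_dvd_left d p)).symm
        calc p * (d / Nat.gcd d p * b) =
              (Nat.gcd d p * (p / Nat.gcd d p)) * (d / Nat.gcd d p * b) := by rw [← h3]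
          _ = (p / Nat.gcd d p) * ((Nat.gcd d p * (d / Nat.gcd d p)) * b) := by ring
          _ = _ := by rw [← h4]
      rw [h2]
      exact Dvd.dvd.mul_left (Dvd.intro _ rfl) _
  have e1 : (if d ∣ p * c then 1 / ((p * c : ℕ) : ℝ) else 0) =
      (if d / Nat.gcd d p ∣ c then 1 / (c : ℝ) else 0) / p := by
    by_cases h : d ∣ p * c
    · rw [if_pos h, if_pos (h1.mp h)]
      push_cast
      field_simp
    · rw [if_neg h, if_neg (fun h' => h (h1.mpr h'))]
      simp
  have e2 : (if p ∣ c then (if d ∣ c / p then 1 / ((c / p : ℕ) : ℝ) else 0) else 0) / p =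
      (if p * d ∣ c then 1 / (c : ℝ) else 0) := by
    by_cases h : p ∣ c
    · rw [if_pos h]
      obtain ⟨b, rfl⟩ := h
      have hb : (b : ℝ) ≠ 0 := by
        have : b ≠ 0 := by rintro rfl; simp at hc
        exact_mod_cast this
      rw [Nat.mul_div_cancel_left b hp0]
      by_cases h2 : d ∣ b
      · rw [if_pos h2, if_pos (Nat.mul_dvd_mul_left p h2)]
        push_cast
        field_simp
      · rw [if_neg h2, if_neg (fun h' => h2 (Nat.dvd_of_mul_dvd_mul_left hp0 h'))]
        simp
    · rw [if_neg h, if_neg (fun h' => h (Dvd.dvd.trans (Dvd.intro _ rfl) h'))]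
      simp
  rw [e1, e2]
  ring

theorem hk_mu_sum_q {p e : ℕ} (hp0 : 0 < p) (he : 1 ≤ e) :
    ∑ r ∈ e.divisors, mu (e / r) * (if p ∣ r then 1 else 0) = if e = p then 1 else 0 := by
  by_cases h : p ∣ e
  · obtain ⟨c, rfl⟩ := h
    have hc : 1 ≤ c := Nat.one_le_iff_ne_zero.mpr (by rintro rfl; simp at he)
    have h1 : ∑ r ∈ (p * c).divisors, mu (p * c / r) * (if p ∣ r then 1 else 0) =
        ∑ s ∈ c.divisors, mu (c / s) := by
      symm
      rw [show ∑ r ∈ (p * c).divisors, mu (p * c / r) * (if p ∣ r then (1 : ℝ) else 0) =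
        ∑ r ∈ (p * c).divisors.filter (fun r => p ∣ r), mu (p * c / r) by
          rw [Finset.sum_filter]
          apply Finset.sum_congr rfl
          intro r _
          split_ifs <;> simp]
      refine Finset.sum_bij (fun s _ => p * s) ?_ ?_ ?_ ?_
      · intro s hs
        rw [Nat.mem_divisors] at hs
        rw [Finset.mem_filter, Nat.mem_divisors]
        exact ⟨⟨Nat.mul_dvd_mul_left p hs.1, by omega⟩, Dvd.intro _ rfl⟩
      · intro a _ b _ h
        exact Nat.eq_of_mul_eq_mul_left hp0 h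
      · intro r hr
        rw [Finset.mem_filter, Nat.mem_divisors] at hr
        obtain ⟨⟨h2, h3⟩, s, rfl⟩ := hr
        refine ⟨s, ?_, rfl⟩
        rw [Nat.mem_divisors]
        exact ⟨Nat.dvd_of_mul_dvd_mul_left hp0 h2, by omega⟩
      · intro s _
        rw [Nat.mul_div_mul_left _ _ hp0]
    rw [h1, hk_mu_sum]
    have h2 : (c = 1) ↔ (p * c = p) := by
      constructor
      · rintro rfl; simp
      · intro h3
        exact Nat.eq_of_mul_eq_mul_left hp0 (h3.trans (mul_one p).symm)
    by_cases h3 : c = 1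
    · rw [if_pos h3, if_pos (h2.mp h3)]
    · rw [if_neg h3, if_neg (fun h4 => h3 (h2.mpr h4))]
  · rw [if_neg (by rintro rfl; exact h dvd_rfl)]
    apply Finset.sum_eq_zero
    intro r hr
    rw [Nat.mem_divisors] at hr
    rw [if_neg (fun h2 => h (h2.trans hr.1)), mul_zero]

theorem hk_xs_q {z M q : ℕ} (hq0 : 0 < q) :
    ∑ r ∈ Finset.Icc 1 (2 * M), xs z M 2 r * (if q ∣ r then 1 else 0) = yE z M 2 q := by
  rw [hk_xs (z := z) (M := M) (fun r => if q ∣ r then 1 else 0)]
  rw [Finset.sum_congr rfl (fun e he => by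
    rw [hk_mu_sum_q hq0 (Finset.mem_Icc.1 he).1] : ∀ e ∈ Finset.Icc 1 (2 * M),
      _ = yE z M 2 e * (if e = q then 1 else 0))]
  by_cases h : q ≤ 2 * M
  · rw [Finset.sum_eq_single q]
    · simp
    · intro e _ he
      rw [if_neg he, mul_zero]
    · intro h2
      exact absurd (Finset.mem_Icc.2 ⟨hq0, h⟩) h2
  · rw [Finset.sum_eq_zero]
    · by_contra h2
      exact h (wwf_yE_le (by norm_num) (Ne.symm h2))
    · intro e he
      rw [Finset.mem_Icc] at he
      rw [if_neg (by omega), mul_zero]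

/-- the coefficient of the smooth part -/
noncomputable def alS (A : ℕ) (a : ℕ → ℝ) (u : ℕ) : ℝ :=
  ∑ k ∈ Finset.Icc 1 A, if u ∣ k then a k / Real.sqrt k else 0

/-- the coordinates of the mollifiers -/
theorem VX_xX {z M A E : ℕ} {a : ℕ → ℝ} (ha : Sht z A a) (hE : QA M 2 A ≤ E) {d : ℕ}
    (hd : 1 ≤ d) : VX E (xX z M 2 a) d = alS A a (smp z d) * yE z M 2 (rop z d) := by
  obtain ⟨d1, d2, d3, d4, d5⟩ := smp_rop_pr (z := z) hd
  rw [VX_eq]
  have h1 := hk_xsplit (M := M) ha hE (fun e => if d ∣ e then 1 else 0)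
  rw [Finset.sum_congr rfl (fun e _ => by split_ifs <;> ring : ∀ e ∈ Finset.Icc 1 E,
    xX z M 2 a e * (if d ∣ e then 1 / (e : ℝ) else 0) =
      xX z M 2 a e / e * (if d ∣ e then 1 else 0)), h1]
  rw [← hk_xs_q (z := z) (M := M) (q := rop z d) d5]
  unfold alS
  rw [Finset.sum_mul_sum]
  apply Finset.sum_congr rfl
  intro k hk
  apply Finset.sum_congr rfl
  intro r hr
  rw [Finset.mem_Icc] at hk hr
  by_cases hak : a k = 0
  · rw [hak]; simp
  by_cases hx : xs z M 2 r = 0
  · rw [hx]; simp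
  have hks := (ha.sup k hak).1
  have hrr := (SPL_xs_supp hr.1 hx).1
  have h2 : d ∣ k * r ↔ smp z d ∣ k ∧ rop z d ∣ r := by
    constructor
    · intro h
      have a1 : smp z d ∣ k * r := (Dvd.intro _ d1).trans h
      have a2 : rop z d ∣ k * r := (Dvd.intro_left _ d1).trans h
      exact ⟨(wwf_cop d3 hrr).dvd_of_dvd_mul_right a1,
        (wwf_cop hks d4).symm.dvd_of_dvd_mul_left a2⟩
    · rintro ⟨a1, a2⟩
      rw [← d1]
      exact Nat.mul_dvd_mul a1 a2
  by_cases k1 : smp z d ∣ k
  · by_cases k2 : rop z d ∣ r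
    · rw [if_pos k1, if_pos k2, if_pos (h2.mpr ⟨k1, k2⟩)]
      ring
    · rw [if_neg k2, if_neg (fun h => k2 (h2.mp h).2)]
      ring
  · rw [if_neg k1, if_neg (fun h => k1 (h2.mp h).1)]
    ring

theorem alS_le {z A : ℕ} {a : ℕ → ℝ} (ha : Sht z A a) (u : ℕ) : |alS A a u| ≤ A := by
  refine le_trans ?_ ha.l1
  unfold alS
  refine (Finset.abs_sum_le_sum_abs _ _).trans (Finset.sum_le_sum fun k hk => ?_)
  rw [Finset.mem_Icc] at hk
  split_ifs
  · rw [abs_div, abs_of_nonneg (Real.sqrt_nonneg _)]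
    have h1 : (1 : ℝ) ≤ Real.sqrt k := by
      rw [show (1 : ℝ) = Real.sqrt 1 by simp]
      exact Real.sqrt_le_sqrt (by exact_mod_cast hk.1)
    exact div_le_self (abs_nonneg _) h1
  · rw [abs_zero]
    exact abs_nonneg _

theorem alS_supp {A : ℕ} {a : ℕ → ℝ} {u : ℕ} (h : alS A a u ≠ 0) : u ≤ A := by
  unfold alS at h
  obtain ⟨k, hk, h1⟩ := Finset.exists_ne_zero_of_sum_ne_zero h
  rw [Finset.mem_Icc] at hk
  have h2 : u ∣ k := by
    by_contra h3
    rw [if_neg h3] at h1
    exact h1 rfl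
  exact (Nat.le_of_dvd hk.1 h2).trans hk.2

/-- the smooth version of `p V_{p d}` -/
noncomputable def FX (z M A : ℕ) (a : ℕ → ℝ) (s : ℝ) (d : ℕ) : ℝ :=
  -(alS A a (smp z d) * (mu (rop z d) / (rop z d : ℝ)) *
    (max 0 (Real.log M - Real.log (rop z d) - s) / Real.log M))

theorem mu_le (n : ℕ) : |mu n| ≤ 1 := by
  have := ArithmeticFunction.abs_moebius_le_one (n := n)
  unfold mu
  rw [← Int.cast_abs]
  exact_mod_cast this

/-- bound for products with the smooth coefficient -/
theorem alS_bd {z A d : ℕ} {a : ℕ → ℝ} (ha : Sht z A a) (hd : 1 ≤ d) {w K : ℝ} (hK : 0 ≤ K)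
    (hw : |w| ≤ K / (rop z d : ℝ)) : |alS A a (smp z d) * w| ≤ (A : ℝ) ^ 2 * K / d := by
  obtain ⟨d1, d2, d3, d4, d5⟩ := smp_rop_pr (z := z) hd
  have hd0 : (0 : ℝ) < d := by exact_mod_cast hd
  by_cases h : alS A a (smp z d) = 0
  · rw [h, zero_mul, abs_zero]
    positivity
  · have h1 := alS_supp h
    have h2 := alS_le ha (smp z d)
    have hs0 : (0 : ℝ) < smp z d := by exact_mod_cast Nat.pos_of_ne_zero d3.1
    have hr0 : (0 : ℝ) < rop z d := by exact_mod_cast d5
    have he0 : (d : ℝ) = (smp z d : ℝ) * (rop z d : ℝ) := by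
      rw [← Nat.cast_mul, d1]
    have h3 : (smp z d : ℝ) ≤ A := by exact_mod_cast h1
    rw [abs_mul, he0]
    calc |alS A a (smp z d)| * |w| ≤ A * (K / (rop z d : ℝ)) :=
          mul_le_mul h2 hw (abs_nonneg _) (Nat.cast_nonneg _)
      _ = A * (smp z d) * K / ((smp z d : ℝ) * (rop z d : ℝ)) := by field_simp
      _ ≤ A * A * K / ((smp z d : ℝ) * (rop z d : ℝ)) := by gcongr
      _ = _ := by ring

theorem FX_le {z M A d : ℕ} {a : ℕ → ℝ} (ha : Sht z A a) (hd : 1 ≤ d) (hM : 1 ≤ Real.log M)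
    {s : ℝ} (hs : 0 ≤ s) : |FX z M A a s d| ≤ (A : ℝ) ^ 2 / d := by
  obtain ⟨d1, d2, d3, d4, d5⟩ := smp_rop_pr (z := z) hd
  have hr1 : (1 : ℝ) ≤ rop z d := by exact_mod_cast d5
  have hr0 : (0 : ℝ) < rop z d := by linarith
  have hlr : 0 ≤ Real.log (rop z d) := Real.log_nonneg hr1
  have h := alS_bd (w := mu (rop z d) / (rop z d : ℝ) *
    (max 0 (Real.log M - Real.log (rop z d) - s) / Real.log M)) ha hd (K := 1) (by norm_num) (by
      rw [abs_mul, abs_div, abs_of_pos hr0, abs_div, abs_of_pos (by linarith : 0 < Real.log M),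
        abs_of_nonneg (le_max_left 0 (Real.log M - Real.log (rop z d) - s))]
      have h2 : max 0 (Real.log M - Real.log (rop z d) - s) / Real.log M ≤ 1 := by
        rw [div_le_one (by linarith)]
        exact max_le (by linarith) (by linarith)
      have h3 : 0 ≤ max 0 (Real.log M - Real.log (rop z d) - s) / Real.log M :=
        div_nonneg (le_max_left _ _) (by linarith)
      have h4 := mu_le (rop z d)
      calc |mu (rop z d)| / (rop z d : ℝ) *
            (max 0 (Real.log M - Real.log (rop z d) - s) / Real.log M) ≤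
            1 / (rop z d : ℝ) * 1 := by gcongr
        _ = 1 / (rop z d : ℝ) := mul_one _)
  unfold FX
  rw [abs_neg, mul_assoc]
  simpa using h

theorem FX_lip {z M A d : ℕ} {a : ℕ → ℝ} (ha : Sht z A a) (hd : 1 ≤ d) (hM : 1 ≤ Real.log M)
    (s t : ℝ) : |FX z M A a s d - FX z M A a t d| ≤ (A : ℝ) ^ 2 / d * |s - t| := by
  obtain ⟨d1, d2, d3, d4, d5⟩ := smp_rop_pr (z := z) hd
  have hr1 : (1 : ℝ) ≤ rop z d := by exact_mod_cast d5
  have hr0 : (0 : ℝ) < rop z d := by linarith
  have hM0 : 0 < Real.log M := by linarith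
  have h := alS_bd (w := mu (rop z d) / (rop z d : ℝ) *
    ((max 0 (Real.log M - Real.log (rop z d) - t) -
      max 0 (Real.log M - Real.log (rop z d) - s)) / Real.log M)) ha hd (K := |s - t|)
    (abs_nonneg _) (by
      rw [abs_mul, abs_div, abs_of_pos hr0, abs_div, abs_of_pos hM0]
      have h2 : |max 0 (Real.log M - Real.log (rop z d) - t) -
          max 0 (Real.log M - Real.log (rop z d) - s)| ≤ |s - t| := by
        refine (abs_max_sub_max_le_max _ _ _ _).trans ?_
        rw [sub_self, abs_zero]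
        refine max_le (abs_nonneg _) (le_of_eq ?_)
        congr 1
        ring
      have h3 : |max 0 (Real.log M - Real.log (rop z d) - t) -
          max 0 (Real.log M - Real.log (rop z d) - s)| / Real.log M ≤ |s - t| := by
        rw [div_le_iff₀ hM0]
        have := abs_nonneg (s - t)
        nlinarith
      have h4 := mu_le (rop z d)
      have h5 : 0 ≤ |max 0 (Real.log M - Real.log (rop z d) - t) -
          max 0 (Real.log M - Real.log (rop z d) - s)| / Real.log M := by positivity
      calc |mu (rop z d)| / (rop z d : ℝ) *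
            (|max 0 (Real.log M - Real.log (rop z d) - t) -
          max 0 (Real.log M - Real.log (rop z d) - s)| / Real.log M) ≤
            1 / (rop z d : ℝ) * |s - t| := by gcongr
        _ = |s - t| / (rop z d : ℝ) := by ring)
  have h2 : FX z M A a s d - FX z M A a t d = alS A a (smp z d) * (mu (rop z d) / (rop z d : ℝ) *
    ((max 0 (Real.log M - Real.log (rop z d) - t) -
      max 0 (Real.log M - Real.log (rop z d) - s)) / Real.log M)) := by
    unfold FX
    ring
  rw [h2]
  refine h.trans (le_of_eq ?_)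
  ring

/-- the coordinates are small -/
theorem VX_le {z M A E d : ℕ} {a : ℕ → ℝ} (ha : Sht z A a) (hE : QA M 2 A ≤ E) (hd : 1 ≤ d)
    (hM : 1 ≤ Real.log M) (hbe : |be z M 2| ≤ Real.log M) :
    |VX E (xX z M 2 a) d| ≤ (A : ℝ) ^ 2 / d := by
  obtain ⟨d1, d2, d3, d4, d5⟩ := smp_rop_pr (z := z) hd
  have hr1 : (1 : ℝ) ≤ rop z d := by exact_mod_cast d5
  have hr0 : (0 : ℝ) < rop z d := by linarith
  have hM0 : 0 < Real.log M := by linarith
  rw [VX_xX ha hE hd]
  have h := alS_bd (w := yE z M 2 (rop z d)) ha hd (K := 1) (by norm_num) (by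
    unfold yE
    rw [if_pos ⟨d4, d5⟩, abs_div, abs_mul, abs_mul, abs_of_pos hr0, abs_of_pos hM0]
    have h2 : |gE z M 2 (rop z d)| ≤ Real.log M := by
      unfold gE
      split_ifs with k1 k2
      · have h3 : (1 : ℝ) ≤ (M : ℝ) / rop z d := by
          rw [one_le_div hr0]
          exact_mod_cast k1
        have hMp : (0 : ℝ) < M := by
          have : 0 < M := by omega
          exact_mod_cast this
        rw [abs_of_nonneg (Real.log_nonneg h3)]
        exact Real.log_le_log (by positivity) (div_le_self hMp.le hr1)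
      · exact hbe
      · rw [abs_zero]; exact hM0.le
    have h4 := mu_le (rop z d)
    calc |mu (rop z d)| * |gE z M 2 (rop z d)| / ((rop z d : ℝ) * Real.log M) ≤
          1 * Real.log M / ((rop z d : ℝ) * Real.log M) := by gcongr
      _ = 1 / (rop z d : ℝ) := by field_simp)
  simpa using h

/-- the coordinates at multiples of `p` -/
theorem VX_p {z M A E d p : ℕ} {a : ℕ → ℝ} (ha : Sht z A a) (hE : QA M 2 A ≤ E) (hd : 1 ≤ d)
    (hM : 2 ≤ M) (hp : p.Prime) (hz : z < p) (hpM : p ≤ M) :
    (¬ p ∣ d → p * VX E (xX z M 2 a) (p * d) = FX z M A a (Real.log p) d) ∧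
    (p ∣ d → VX E (xX z M 2 a) (p * d) = 0) := by
  obtain ⟨d1, d2, d3, d4, d5⟩ := smp_rop_pr (z := z) hd
  have hp0 := hp.pos
  have hpr : (0 : ℝ) < p := by exact_mod_cast hp0
  have hrr : rough z (p * rop z d) := by
    intro q hq hqp
    rcases hq.dvd_mul.mp hqp with h | h
    · rw [(Nat.prime_dvd_prime_iff_eq hq hp).mp h]
      exact hz
    · exact d4 q hq h
  have hpd1 : 1 ≤ p * rop z d := Nat.mul_pos hp0 d5
  have hsr := smp_mul_pr d3 hrr hpd1
  have he : smp z d * (p * rop z d) = p * d := by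
    calc smp z d * (p * rop z d) = p * (smp z d * rop z d) := by ring
      _ = p * d := by rw [d1]
  rw [he] at hsr
  have hV : VX E (xX z M 2 a) (p * d) = alS A a (smp z d) * yE z M 2 (p * rop z d) := by
    rw [VX_xX ha hE (Nat.mul_pos hp0 hd), hsr.1, hsr.2]
  have hMlog : Real.log M ≠ 0 := by
    have : (1 : ℝ) < M := by exact_mod_cast (by omega : 1 < M)
    exact (Real.log_pos this).ne'
  have hr0 : (0 : ℝ) < rop z d := by exact_mod_cast d5
  constructor
  · intro hpd
    have hprd : ¬ p ∣ rop z d := fun h => hpd (h.trans (Dvd.intro_left _ d1))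
    have hmu : mu (p * rop z d) = -mu (rop z d) := by
      unfold mu
      rw [ArithmeticFunction.isMultiplicative_moebius.map_mul_of_coprime
        ((Nat.Prime.coprime_iff_not_dvd hp).2 hprd), ArithmeticFunction.moebius_apply_prime hp]
      push_cast
      ring
    have hgE : gE z M 2 (p * rop z d) = max 0 (Real.log M - Real.log (rop z d) - Real.log p) := by
      have hMp : (0 : ℝ) < M := by
        have : 0 < M := by omega
        exact_mod_cast this
      unfold gE
      by_cases k1 : p * rop z d ≤ M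
      · have k1' : (p : ℝ) * rop z d ≤ M := by exact_mod_cast k1
        rw [if_pos k1]
        push_cast
        rw [Real.log_div hMp.ne' (by positivity), Real.log_mul hpr.ne' hr0.ne', max_eq_right]
        · ring
        · have := Real.log_le_log (by positivity) k1'
          rw [Real.log_mul hpr.ne' hr0.ne'] at this
          linarith
      · rw [if_neg k1]
        have k2 : p * rop z d ∉ PK M 2 := by
          intro h
          obtain ⟨h1, h2, h3⟩ := wwf_PK h
          have h4 : rop z d = 1 := by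
            rcases (Nat.prime_mul_iff.mp h3) with h5 | h5
            · exact h5.2
            · exact absurd h5.2 hp.ne_one
          rw [h4, mul_one] at k1
          exact k1 hpM
        rw [if_neg k2, max_eq_left]
        have k1' : (M : ℝ) < (p : ℝ) * rop z d := by exact_mod_cast not_le.mp k1
        have := Real.log_le_log hMp k1'.le
        rw [Real.log_mul hpr.ne' hr0.ne'] at this
        linarith
    rw [hV]
    unfold yE FX
    rw [if_pos ⟨hrr, hpd1⟩, hmu, hgE]
    push_cast
    field_simp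
  · intro hpd
    have hprd : p ∣ rop z d := by
      rw [← d1] at hpd
      rcases hp.dvd_mul.mp hpd with h | h
      · exact absurd (d3.2 p hp h) (not_le.mpr hz)
      · exact h
    rw [hV]
    have hmu : mu (p * rop z d) = 0 := by
      unfold mu
      rw [ArithmeticFunction.moebius_eq_zero_of_not_squarefree]
      · simp
      · intro hsq
        obtain ⟨c, hc⟩ := hprd
        rw [hc] at hsq
        have := hsq p ⟨c, by ring⟩
        exact hp.one_lt.ne' (Nat.isUnit_iff.mp this)
    unfold yE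
    rw [if_pos ⟨hrr, hpd1⟩, hmu]
    simp

end Pool.Agent.LSP
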