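import Pool.Agent.Lib_helper98.HK.C5

/-! LSP2, the cross term of the main part: the smooth function. -/

namespace Pool.Agent.LSP

open Pool.Agent.LEV Pool.Agent.LVB Pool.Agent.KSL
open Pool.Agent.FG61 (mu phi cc ff AA Lam)
open Complex MeasureTheory Filter Topology UpperHalfPlane ModularGroup ProbabilityTheory
open scoped MatrixGroups Modular ENNReal ModularForm ComplexConjugate ContDiff

/-- the smooth function -/
noncomputable def Sx (ρ : ℝ → ℝ) (y c₀ : ℝ) (E : ℕ) (V0 V1 : ℕ → ℝ) (F0 F1 : ℝ → ℕ → ℝ)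
    (s : ℝ) : ℝ :=
  ∑ d ∈ Finset.Icc 1 E, ∑ e ∈ Finset.Icc 1 E,
    (V0 d * F1 s e * beK ρ y c₀ 1 (Nat.gcd d e) (Nat.lcm d e) +
    V0 d * V1 e * beK ρ y c₀ 1 (Nat.gcd d e) (Nat.lcm d e) +
    V0 d * V1 e * beK ρ y c₀ (Real.exp s) (Nat.gcd d e) (Nat.lcm d e) +
    F0 s d * V1 e * (beK ρ y c₀ (Real.exp s) (Nat.gcd d e) (Nat.lcm d e) +
      2 * Real.pi * Cr ρ * (Nat.gcd d e * s)))

theorem beK_lip {ρ : ℝ → ℝ} {y c₀ KL : ℝ} (hy : 0 < y)
    (hKL : ∀ a b, y ≤ a → a ≤ b → |Kk ρ a - Kk ρ b| ≤ KL * Real.log (b / a))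
    {g L : ℕ} (hL : 1 ≤ L) {s t : ℝ} (hs : 0 ≤ s) (ht : 0 ≤ t) :
    |beK ρ y c₀ (Real.exp s) g L - beK ρ y c₀ (Real.exp t) g L| ≤
      g * (2 * Real.pi * KL) * |s - t| := by
  have hL1 : (1 : ℝ) ≤ L := by exact_mod_cast hL
  have hpi := Real.pi_pos
  have key : ∀ s t : ℝ, 0 ≤ s → s ≤ t →
      |Kk ρ (Real.exp s * (L : ℝ) * y) - Kk ρ (Real.exp t * (L : ℝ) * y)| ≤ KL * |s - t| := by
    intro s t hs hst
    have h1 : y ≤ Real.exp s * (L : ℝ) * y := by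
      have h2 : 1 ≤ Real.exp s := Real.one_le_exp hs
      have : 1 ≤ Real.exp s * L := one_le_mul_of_one_le_of_one_le h2 hL1
      nlinarith
    have h3 : Real.exp s * (L : ℝ) * y ≤ Real.exp t * (L : ℝ) * y := by
      have := Real.exp_le_exp.mpr hst
      gcongr
    have h4 := hKL _ _ h1 h3
    have h5 : Real.exp t * (L : ℝ) * y / (Real.exp s * (L : ℝ) * y) = Real.exp (t - s) := by
      rw [Real.exp_sub]
      have : (L : ℝ) ≠ 0 := by linarith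
      field_simp
    rw [h5, Real.log_exp] at h4
    rw [abs_of_nonpos (by linarith : s - t ≤ 0)]
    linarith
  have h1 : beK ρ y c₀ (Real.exp s) g L - beK ρ y c₀ (Real.exp t) g L =
      2 * Real.pi * ((g : ℝ) * (Kk ρ (Real.exp s * (L : ℝ) * y) -
        Kk ρ (Real.exp t * (L : ℝ) * y))) := by
    unfold beK
    ring
  have h2 : |Kk ρ (Real.exp s * (L : ℝ) * y) - Kk ρ (Real.exp t * (L : ℝ) * y)| ≤
      KL * |s - t| := by
    rcases le_total s t with h | h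
    · exact key s t hs h
    · rw [abs_sub_comm, abs_sub_comm s t]
      exact key t s ht h
  rw [h1, abs_mul, abs_mul (g : ℝ), abs_of_pos (by positivity : (0 : ℝ) < 2 * Real.pi),
    Nat.abs_cast]
  calc 2 * Real.pi * ((g : ℝ) * |Kk ρ (Real.exp s * (L : ℝ) * y) -
        Kk ρ (Real.exp t * (L : ℝ) * y)|) ≤ 2 * Real.pi * ((g : ℝ) * (KL * |s - t|)) := by gcongr
    _ = _ := by ring

theorem Sx_lip {ρ : ℝ → ℝ} {E : ℕ} (hE : 1 ≤ E) {y c₀ K0 KL : ℝ} (hy : 0 < y)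
    (hK : ∀ t, y ≤ t → |Kk ρ t| ≤ K0) (hK0 : 0 ≤ K0) (hKL0 : 0 ≤ KL)
    (hKL : ∀ a b, y ≤ a → a ≤ b → |Kk ρ a - Kk ρ b| ≤ KL * Real.log (b / a))
    {V0 V1 : ℕ → ℝ} {F0 F1 : ℝ → ℕ → ℝ} {B : ℝ} (hB : 0 ≤ B)
    (h0 : ∀ d, 1 ≤ d → |V0 d| ≤ B / d) (h1 : ∀ d, 1 ≤ d → |V1 d| ≤ B / d)
    (f0 : ∀ s, 0 ≤ s → ∀ d, 1 ≤ d → |F0 s d| ≤ B / d)
    (l0 : ∀ s t, ∀ d, 1 ≤ d → |F0 s d - F0 t d| ≤ B / d * |s - t|)
    (l1 : ∀ s t, ∀ d, 1 ≤ d → |F1 s d - F1 t d| ≤ B / d * |s - t|)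
    {s t LX : ℝ} (hs : 0 ≤ s) (hs' : s ≤ LX) (ht : 0 ≤ t) :
    |Sx ρ y c₀ E V0 V1 F0 F1 s - Sx ρ y c₀ E V0 V1 F0 F1 t| ≤
      B ^ 2 * (2 * (2 * Real.pi * K0 + Real.pi * (|c₀| + 2 * |Cr ρ| * Real.log E)) +
        2 * (2 * Real.pi * KL) + 2 * Real.pi * |Cr ρ| * (LX + 1)) * HE E ^ 3 * |s - t| := by
  have hlE : 0 ≤ Real.log E := Real.log_nonneg (by exact_mod_cast hE)
  have hLX : 0 ≤ LX := hs.trans hs'
  have hpi := Real.pi_pos
  set BK : ℝ := 2 * Real.pi * K0 + Real.pi * (|c₀| + 2 * |Cr ρ| * Real.log E) with hBK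
  have hBK0 : 0 ≤ BK := by positivity
  have hH := HE_nonneg E
  have hst := abs_nonneg (s - t)
  unfold Sx
  rw [← Finset.sum_sub_distrib]
  simp only [← Finset.sum_sub_distrib]
  have hfin := ds_all (E := E) (K := B ^ 2 * (2 * BK + 2 * (2 * Real.pi * KL) +
    2 * Real.pi * |Cr ρ| * (LX + 1)) * |s - t|) (by positivity)
    (f := fun d e => (V0 d * F1 s e * beK ρ y c₀ 1 (Nat.gcd d e) (Nat.lcm d e) +
    V0 d * V1 e * beK ρ y c₀ 1 (Nat.gcd d e) (Nat.lcm d e) +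
    V0 d * V1 e * beK ρ y c₀ (Real.exp s) (Nat.gcd d e) (Nat.lcm d e) +
    F0 s d * V1 e * (beK ρ y c₀ (Real.exp s) (Nat.gcd d e) (Nat.lcm d e) +
      2 * Real.pi * Cr ρ * (Nat.gcd d e * s))) -
    (V0 d * F1 t e * beK ρ y c₀ 1 (Nat.gcd d e) (Nat.lcm d e) +
    V0 d * V1 e * beK ρ y c₀ 1 (Nat.gcd d e) (Nat.lcm d e) +
    V0 d * V1 e * beK ρ y c₀ (Real.exp t) (Nat.gcd d e) (Nat.lcm d e) +
    F0 t d * V1 e * (beK ρ y c₀ (Real.exp t) (Nat.gcd d e) (Nat.lcm d e) +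
      2 * Real.pi * Cr ρ * (Nat.gcd d e * t)))) (by
      intro d e hd hd' he he'
      have hd0 : (0 : ℝ) < d := by exact_mod_cast hd
      have he0 : (0 : ℝ) < e := by exact_mod_cast he
      have hg : 1 ≤ Nat.gcd d e := Nat.gcd_pos_of_pos_left e hd
      have hgE : Nat.gcd d e ≤ E := (Nat.gcd_le_left e hd).trans hd'
      have hL : 1 ≤ Nat.lcm d e := Nat.lcm_pos hd he
      have kb1 := beK_le (c₀ := c₀) hy hK hg hgE hL (r := 1) le_rfl
      have kbs := beK_le (c₀ := c₀) hy hK hg hgE hL (r := Real.exp s) (Real.one_le_exp hs)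
      have kl := beK_lip (c₀ := c₀) hy hKL (g := Nat.gcd d e) hL hs ht
      set g : ℝ := (Nat.gcd d e : ℝ) with hgdef
      have hg0 : 0 ≤ g := Nat.cast_nonneg _
      set b1 : ℝ := beK ρ y c₀ 1 (Nat.gcd d e) (Nat.lcm d e)
      set bs : ℝ := beK ρ y c₀ (Real.exp s) (Nat.gcd d e) (Nat.lcm d e)
      set bt : ℝ := beK ρ y c₀ (Real.exp t) (Nat.gcd d e) (Nat.lcm d e)
      have i0 := h0 d hd
      have i1 := h1 e he
      have i2 := f0 t ht d hd
      have i3 := l0 s t d hd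
      have i4 := l1 s t e he
      have e1 : (V0 d * F1 s e * b1 + V0 d * V1 e * b1 + V0 d * V1 e * bs +
          F0 s d * V1 e * (bs + 2 * Real.pi * Cr ρ * (g * s))) -
          (V0 d * F1 t e * b1 + V0 d * V1 e * b1 + V0 d * V1 e * bt +
          F0 t d * V1 e * (bt + 2 * Real.pi * Cr ρ * (g * t))) =
          V0 d * (F1 s e - F1 t e) * b1 + V0 d * V1 e * (bs - bt) +
          (F0 s d - F0 t d) * V1 e * (bs + 2 * Real.pi * Cr ρ * (g * s)) +
          F0 t d * V1 e * ((bs - bt) + 2 * Real.pi * Cr ρ * (g * (s - t))) := by ring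
      rw [e1]
      have t1 : |V0 d * (F1 s e - F1 t e) * b1| ≤ (B / d) * (B / e * |s - t|) * (g * BK) := by
        rw [abs_mul, abs_mul]
        gcongr
      have t2 : |V0 d * V1 e * (bs - bt)| ≤ (B / d) * (B / e) * (g * (2 * Real.pi * KL) * |s - t|) := by
        rw [abs_mul, abs_mul]
        gcongr
      have c1 : |bs + 2 * Real.pi * Cr ρ * (g * s)| ≤ g * BK + 2 * Real.pi * |Cr ρ| * (g * LX) := by
        refine (abs_add_le _ _).trans (add_le_add kbs ?_)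
        rw [abs_mul, abs_mul, abs_mul, abs_mul, abs_of_pos (by norm_num : (0 : ℝ) < 2),
          abs_of_pos hpi, abs_of_nonneg hg0, abs_of_nonneg hs]
        gcongr
      have t3 : |(F0 s d - F0 t d) * V1 e * (bs + 2 * Real.pi * Cr ρ * (g * s))| ≤
          (B / d * |s - t|) * (B / e) * (g * BK + 2 * Real.pi * |Cr ρ| * (g * LX)) := by
        rw [abs_mul, abs_mul]
        gcongr
      have c2 : |(bs - bt) + 2 * Real.pi * Cr ρ * (g * (s - t))| ≤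
          g * (2 * Real.pi * KL) * |s - t| + 2 * Real.pi * |Cr ρ| * (g * |s - t|) := by
        refine (abs_add_le _ _).trans (add_le_add kl (le_of_eq ?_))
        rw [abs_mul, abs_mul, abs_mul, abs_mul, abs_of_pos (by norm_num : (0 : ℝ) < 2),
          abs_of_pos hpi, abs_of_nonneg hg0]
      have t4 : |F0 t d * V1 e * ((bs - bt) + 2 * Real.pi * Cr ρ * (g * (s - t)))| ≤
          (B / d) * (B / e) * (g * (2 * Real.pi * KL) * |s - t| +
            2 * Real.pi * |Cr ρ| * (g * |s - t|)) := by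
        rw [abs_mul, abs_mul]
        gcongr
      refine (abs_add_le _ _).trans ?_
      refine (add_le_add ((abs_add_le _ _).trans (add_le_add ((abs_add_le _ _).trans
        (add_le_add t1 t2)) t3)) t4).trans (le_of_eq ?_)
      field_simp
      ring)
  refine hfin.trans (le_of_eq ?_)
  ring

/-- the clamp -/
noncomputable def clp (L s : ℝ) : ℝ := max 0 (min s L)

theorem clp_lip (L s t : ℝ) : |clp L s - clp L t| ≤ |s - t| := by
  unfold clp
  refine (abs_max_sub_max_le_max _ _ _ _).trans ?_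
  rw [sub_self, abs_zero]
  refine max_le (abs_nonneg _) ?_
  refine (abs_min_sub_min_le_max _ _ _ _).trans ?_
  rw [sub_self, abs_zero]
  exact max_le le_rfl (abs_nonneg _)

theorem clp_mem {L : ℝ} (hL : 0 ≤ L) (s : ℝ) : 0 ≤ clp L s ∧ clp L s ≤ L :=
  ⟨le_max_left _ _, max_le hL (min_le_right _ _)⟩

theorem clp_id {L s : ℝ} (h0 : 0 ≤ s) (h1 : s ≤ L) : clp L s = s := by
  unfold clp
  rw [min_eq_left h1, max_eq_right h0]

end Pool.Agent.LSP
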