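import Pool.Agent.Lib_helper98.HK.C6

/-! LSP2: the cross term of the main part is smooth in the prime. -/

namespace Pool.Agent.LSP

open Pool.Agent.LEV Pool.Agent.LVB Pool.Agent.KSL
open Pool.Agent.FG61 (mu phi cc ff AA Lam)
open Complex MeasureTheory Filter Topology UpperHalfPlane ModularGroup ProbabilityTheory
open scoped MatrixGroups Modular ENNReal ModularForm ComplexConjugate ContDiff

/-- the sizes of the band -/
theorem band_facts {κ v κ₁ ε₂ : ℝ} (_h0 : 0 < κ) (h1 : 1000 * κ ≤ v) (h2 : v ≤ 1 / 80)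
    (_h3 : 0 < κ₁) (h4 : κ₁ ≤ κ) (h5 : 0 < ε₂) (h6 : ε₂ ≤ κ₁ / 1000) : ∃ X₀ : ℕ, ∀ X : ℕ, X₀ ≤ X →
    ∀ a : ℕ → ℝ, Sht (zz X) (KA ε₂ X) a →
    QA (MM κ₁ X) 2 (KA ε₂ X) ≤ E2 κ X ∧ QA (MM (v - κ) X) 2 (KA ε₂ X) ≤ E2 κ X ∧
    2 ≤ MM κ₁ X ∧ 2 ≤ MM (v - κ) X ∧ 1 ≤ Real.log (MM κ₁ X) ∧ 1 ≤ Real.log (MM (v - κ) X) ∧
    1 ≤ Real.log X ∧
    ∀ p ∈ PB κ v X, p.Prime ∧ zz X < p ∧ p ≤ MM (v - κ) X ∧ p ≤ MM κ₁ X ∧ Real.log p ≤ Real.log X ∧
      (X : ℝ) ^ v / 2 ≤ p ∧ (∀ e, E2 κ X < p * e → y1 κ v X a e = 0) := by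
  obtain ⟨X1, hX1⟩ := hk_sizes
  obtain ⟨X2, hX2⟩ := la13_rpow ε₂ h5 2
  obtain ⟨X3, hX3⟩ := la13_rpow (κ / 2 - 2 * ε₂) (by linarith) 2
  obtain ⟨X4, hX4⟩ := sizes (δ := 1 / 8) (by norm_num) (by norm_num) (ε := v / 2) (by linarith)
  obtain ⟨X5, hX5⟩ := la13_rpow (v / 2) (by linarith) 4
  obtain ⟨X6, hX6⟩ := la13_rpow (1 / 4) (by norm_num) 4
  obtain ⟨X7, hX7⟩ := sizes (δ := 1 / 8) (by norm_num) (by norm_num) (ε := 1) (by norm_num)
  refine ⟨max (max (max X1 X2) (max X3 3)) (max X4 (max X5 (max X6 X7))),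
    fun X hX a ha => ?_⟩
  have g1 : X1 ≤ X := by omega
  have g2 : (2 : ℝ) ≤ (X : ℝ) ^ ε₂ := hX2 X (by omega)
  have g3 : (2 : ℝ) ≤ (X : ℝ) ^ (κ / 2 - 2 * ε₂) := hX3 X (by omega)
  obtain ⟨-, -, -, g4, -⟩ := hX4 X (by omega)
  have g5 : (4 : ℝ) ≤ (X : ℝ) ^ (v / 2) := hX5 X (by omega)
  have g6 : (4 : ℝ) ≤ (X : ℝ) ^ (1 / 4 : ℝ) := hX6 X (by omega)
  obtain ⟨g70, g71, g72, -, g73, -⟩ := hX7 X (by omega)
  have hX1' : (1 : ℝ) ≤ X := by exact_mod_cast (by omega : 1 ≤ X)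
  have hX0 : (0 : ℝ) < X := by linarith
  have hmono : ∀ {s t : ℝ}, s ≤ t → (X : ℝ) ^ s ≤ (X : ℝ) ^ t := fun h =>
    Real.rpow_le_rpow_of_exponent_le hX1' h
  obtain ⟨c1, c2, c3⟩ := hX1 X g1 (v - κ) (by linarith)
  obtain ⟨d1, d2, d3⟩ := hX1 X g1 κ₁ (by linarith)
  have aE : QA (MM κ₁ X) 2 (KA ε₂ X) ≤ E2 κ X := by
    unfold E2
    apply Nat.le_floor
    exact (hk_QA (δ := κ₁) hX1' g2).trans (hmono (by linarith))
  have bE : QA (MM (v - κ) X) 2 (KA ε₂ X) ≤ E2 κ X := by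
    unfold E2
    apply Nat.le_floor
    exact (hk_QA (δ := v - κ) hX1' g2).trans (hmono (by linarith))
  have hz0 : (0 : ℝ) < zz X := by exact_mod_cast (by omega : 0 < zz X)
  have hlz : 1 ≤ Real.log (zz X) := by simpa using g73
  have lM : ∀ M : ℕ, zz X ≤ M → 1 ≤ Real.log M := by
    intro M hM
    exact hlz.trans (Real.log_le_log hz0 (by exact_mod_cast hM))
  refine ⟨aE, bE, d2, c2, lM _ d1, lM _ c1, ?_, ?_⟩
  · have h7 : Real.exp 1 ≤ X := by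
      have := Real.exp_one_lt_d9
      have h8 : (3 : ℝ) ≤ X := by exact_mod_cast g70
      linarith
    exact (Real.le_log_iff_exp_le hX0).mpr h7
  · intro p hp
    unfold PB at hp
    rw [Finset.mem_filter, Finset.mem_Icc] at hp
    obtain ⟨⟨hp1, hp2⟩, hpp, hp3⟩ := hp
    have hp2' : (p : ℝ) ≤ 2 * (X : ℝ) ^ (v + κ) := (Nat.le_floor_iff (by positivity)).mp hp2
    have hX2v : (X : ℝ) ^ (v / 2) * (X : ℝ) ^ (v / 2) = (X : ℝ) ^ v := by
      rw [← Real.rpow_add hX0]; congr 1; ring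
    have hpX : (p : ℝ) ≤ (X : ℝ) ^ (1 / 4 + (v + κ)) := by
      refine hp2'.trans ?_
      have h7 := Real.rpow_add hX0 (1 / 4) (v + κ)
      rw [h7]
      have h8 : (0 : ℝ) ≤ (X : ℝ) ^ (v + κ) := by positivity
      have h9 : (2 : ℝ) ≤ (X : ℝ) ^ (1 / 4 : ℝ) := by linarith
      exact mul_le_mul_of_nonneg_right h9 h8
    refine ⟨hpp, ?_, ?_, ?_, ?_, hp3, ?_⟩
    · have h7 : (zz X : ℝ) < p := by
        refine lt_of_le_of_lt g4 (lt_of_lt_of_le ?_ hp3)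
        rw [← hX2v]
        nlinarith
      exact_mod_cast h7
    · unfold MM
      apply Nat.le_floor
      exact hpX.trans (hmono (by linarith))
    · unfold MM
      apply Nat.le_floor
      exact hpX.trans (hmono (by linarith))
    · refine Real.log_le_log (by exact_mod_cast hpp.pos) ?_
      calc (p : ℝ) ≤ (X : ℝ) ^ (1 / 4 + (v + κ)) := hpX
        _ ≤ (X : ℝ) ^ (1 : ℝ) := hmono (by linarith)
        _ = X := Real.rpow_one _
    · intro e he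
      by_contra h7
      have h8 := (hk_xX_supp (M := MM (v - κ) X) ha h7).2
      have h9 : ((p * e : ℕ) : ℝ) ≤ (X : ℝ) ^ (1 / 2 + 5 / 2 * κ) := by
        push_cast
        have h10 : (e : ℝ) ≤ (X : ℝ) ^ (1 / 2 - v + κ + 2 * ε₂) := by
          refine le_trans (by exact_mod_cast h8) ((hk_QA (δ := v - κ) hX1' g2).trans (le_of_eq ?_))
          congr 1
          ring
        calc (p : ℝ) * e ≤ (2 * (X : ℝ) ^ (v + κ)) * (X : ℝ) ^ (1 / 2 - v + κ + 2 * ε₂) := by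
              gcongr
          _ ≤ ((X : ℝ) ^ (κ / 2 - 2 * ε₂) * (X : ℝ) ^ (v + κ)) *
                (X : ℝ) ^ (1 / 2 - v + κ + 2 * ε₂) := by gcongr
          _ = (X : ℝ) ^ (1 / 2 + 5 / 2 * κ) := by
              rw [← Real.rpow_add hX0, ← Real.rpow_add hX0]
              congr 1
              ring
      have h11 : p * e ≤ E2 κ X := by
        unfold E2
        apply Nat.le_floor
        exact h9.trans (hmono (by linarith))
      omega

/-- the form at `∑ θ_p T_p y` -/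
theorem shB_YT {T : ℝ} {ρ : ℝ → ℝ} (hρ : KerL T ρ) {E : ℕ} (hE : 1 ≤ E) (x y : ℕ → ℝ)
    {P : Finset ℕ} (hP : ∀ p ∈ P, p.Prime) (hy : ∀ p ∈ P, ∀ e, E < p * e → y e = 0) (θ : ℕ → ℝ)
    {N : ℕ} (hN : 1 ≤ N) : shB ρ T E x (YT P θ y) N =
      ∑ p ∈ P, θ p / p * ∑ d ∈ Finset.Icc 1 E, ∑ e ∈ Finset.Icc 1 E,
        VX E x d * (VX E y (e / Nat.gcd e p) + p * VX E y (p * e)) *
          beK ρ (yo T E) (cK ρ (yo T E) N) 1 (Nat.gcd d e) (Nat.lcm d e) := by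
  rw [shB_eq hρ hE x _ hN]
  have h1 : ∀ e ∈ Finset.Icc 1 E, VX E (YT P θ y) e =
      ∑ p ∈ P, θ p / p * (VX E y (e / Nat.gcd e p) + p * VX E y (p * e)) := by
    intro e he
    rw [Finset.mem_Icc] at he
    have h2 : VX E (YT P θ y) e = ∑ p ∈ P, θ p * VX E (Tp p y) e := by
      unfold VX YT
      simp only [Finset.sum_div, Finset.mul_sum]
      rw [Finset.sum_comm]
      exact Finset.sum_congr rfl fun p _ => Finset.sum_congr rfl fun c _ => by ring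
    rw [h2]
    apply Finset.sum_congr rfl
    intro p hp
    have hpr : (p : ℝ) ≠ 0 := by exact_mod_cast (hP p hp).ne_zero
    rw [VX_Tp (hP p hp) (hy p hp) he.1]
    field_simp
  have h2 : ∀ d ∈ Finset.Icc 1 E, ∑ e ∈ Finset.Icc 1 E, VX E x d * VX E (YT P θ y) e *
      beK ρ (yo T E) (cK ρ (yo T E) N) 1 (Nat.gcd d e) (Nat.lcm d e) =
      ∑ p ∈ P, θ p / p * ∑ e ∈ Finset.Icc 1 E,
        VX E x d * (VX E y (e / Nat.gcd e p) + p * VX E y (p * e)) *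
          beK ρ (yo T E) (cK ρ (yo T E) N) 1 (Nat.gcd d e) (Nat.lcm d e) := by
    intro d _
    simp only [Finset.mul_sum]
    rw [Finset.sum_comm]
    apply Finset.sum_congr rfl
    intro e he
    rw [h1 e he, Finset.mul_sum, Finset.sum_mul]
    exact Finset.sum_congr rfl fun p _ => by ring
  rw [Finset.sum_congr rfl h2, Finset.sum_comm]
  exact Finset.sum_congr rfl fun p _ => by rw [Finset.mul_sum]

/-- the cross term is smooth in the prime -/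
theorem m2_cross_pr {T : ℝ} {ρ : ℝ → ℝ} (hρ : KerL T ρ) (C₀ : ℝ) (κ v κ₁ : ℝ) (h0 : 0 < κ)
    (h1 : 1000 * κ ≤ v) (h2 : v ≤ 1 / 80) (h3 : 0 < κ₁) (h4 : κ₁ ≤ κ) : ∃ ε₁ : ℝ, 0 < ε₁ ∧
    ∀ ε₂ : ℝ, 0 < ε₂ → ε₂ ≤ ε₁ → ∃ X₀ : ℕ, ∀ X : ℕ, X₀ ≤ X →
    ∀ a : ℕ → ℝ, Sht (zz X) (KA ε₂ X) a → cn (zz X) (KA ε₂ X) a ≤ C₀ →
    ∀ N : ℕ, X ≤ 4 * N → N ≤ 8 * X → ∃ S : ℝ → ℝ,
      (∀ s t, |S s - S t| ≤ (X : ℝ) ^ (10 * κ) * |s - t|) ∧
      ∀ θ : ℕ → ℝ, (∀ p ∈ PB κ v X, |θ p| ≤ 1) →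
        |shB ρ T (E2 κ X) (y0 κ₁ X a) (YT (PB κ v X) θ (y1 κ v X a)) N -
          ∑ p ∈ PB κ v X, θ p / p * S (Real.log p)| ≤ (X : ℝ) ^ (-(20 * κ)) := by
  refine ⟨min (κ / 16) (κ₁ / 1000), by positivity, fun ε₂ h5 h6 => ?_⟩
  have h61 : ε₂ ≤ κ / 16 := h6.trans (min_le_left _ _)
  have h62 : ε₂ ≤ κ₁ / 1000 := h6.trans (min_le_right _ _)
  have hT := hρ.T1
  have hpi := Real.pi_pos
  obtain ⟨C, hC, hCK⟩ := Kk_eta hρ
  obtain ⟨hK1, hK2⟩ := hCK (κ / 8) (by positivity) (by linarith)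
  -- the constants
  set K1 : ℝ := C * Zeta (κ / 8) * (2 * T) with hK1d
  have hK10 : 0 ≤ K1 := by
    have := Zeta_nonneg (κ / 8)
    positivity
  have hl2T : 0 ≤ Real.log (2 * T) := Real.log_nonneg (by linarith)
  set k1 : ℝ := |Cr ρ| * (2 * Real.log (2 * T) + 8) + |Cl ρ| with hk1
  have hk10 : 0 ≤ k1 := by positivity
  set k2 : ℝ := 2 * Real.pi * K1 + Real.pi * (k1 + 2 * |Cr ρ|) with hk2
  have hk20 : 0 ≤ k2 := by positivity
  set k3 : ℝ := 320 * (k2 + 2 * Real.pi * |Cr ρ|) +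
    8 * (2 * k2 + 2 * (2 * Real.pi * K1) + 4 * Real.pi * |Cr ρ|) with hk3
  obtain ⟨X1, hX1⟩ := band_facts h0 h1 h2 h3 h4 h5 h62
  obtain ⟨X2, hX2⟩ := be_small (δ := κ₁) h3 (by linarith) (ε := 1) one_pos
  obtain ⟨X3, hX3⟩ := be_small (δ := v - κ) (by linarith) (by linarith) (ε := 1) one_pos
  obtain ⟨X4, hX4⟩ := la13_logpow (κ / 2) (by positivity) k3 4
  obtain ⟨X5, hX5⟩ := la13_rpow κ h0 8
  refine ⟨max (max (max X1 X2) (max X3 X4)) (max X5 3), fun X hX a ha _ N hN1 hN2 => ?_⟩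
  obtain ⟨aE, bE, dM, cM, ldM, lcM, hLX, hPB⟩ := hX1 X (by omega) a ha
  obtain ⟨-, hbe0, -⟩ := hX2 X (by omega)
  obtain ⟨-, hbe1, -⟩ := hX3 X (by omega)
  rw [one_mul] at hbe0 hbe1
  have g4 := hX4 X (by omega)
  have g5 := hX5 X (by omega)
  have hX3' : 3 ≤ X := by omega
  have hX1' : (1 : ℝ) ≤ X := by exact_mod_cast (by omega : 1 ≤ X)
  have hX0 : (0 : ℝ) < X := by linarith
  have hN : 1 ≤ N := by omega
  have hmono : ∀ {s t : ℝ}, s ≤ t → (X : ℝ) ^ s ≤ (X : ℝ) ^ t := fun h =>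
    Real.rpow_le_rpow_of_exponent_le hX1' h
  set E : ℕ := E2 κ X with hEd
  set A : ℕ := KA ε₂ X with hAd
  set z : ℕ := zz X with hzd
  have hE : 1 ≤ E := by
    rw [hEd]
    unfold E2
    apply Nat.le_floor
    push_cast
    exact Real.one_le_rpow hX1' (by linarith)
  have hEX : (E : ℝ) ≤ X := by
    rw [hEd]
    unfold E2
    refine (Nat.floor_le (by positivity)).trans ?_
    calc (X : ℝ) ^ (1 / 2 + 3 * κ) ≤ (X : ℝ) ^ (1 : ℝ) := hmono (by linarith)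
      _ = X := Real.rpow_one _
  have hE0 : (0 : ℝ) < E := by exact_mod_cast hE
  have hlE0 : 0 ≤ Real.log E := Real.log_nonneg (by exact_mod_cast hE)
  have hlE : Real.log E ≤ Real.log X := Real.log_le_log hE0 hEX
  have hAX : (A : ℝ) ≤ (X : ℝ) ^ ε₂ := by
    rw [hAd]
    unfold KA
    exact Nat.floor_le (by positivity)
  set LX : ℝ := Real.log X with hLXd
  set y : ℝ := yo T E with hyd
  have hyval : y = 1 / (2 * T * (E : ℝ) ^ 2) := rfl
  have hy : 0 < y := by rw [hyval]; positivity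
  set c₀ : ℝ := cK ρ y N with hc₀
  set K0 : ℝ := C * Zeta (κ / 8) * y ^ (-(κ / 8)) with hK0d
  have hZ := Zeta_nonneg (κ / 8)
  have hK00 : 0 ≤ K0 := by positivity
  have hyle : y ^ (-(κ / 8)) ≤ (2 * T) * (X : ℝ) ^ (κ / 4) := by
    rw [hyval, one_div, Real.inv_rpow (by positivity), ← Real.rpow_neg (by positivity), neg_neg,
      Real.mul_rpow (by positivity) (by positivity)]
    have e1 : (2 * T) ^ (κ / 8) ≤ 2 * T := by
      calc (2 * T) ^ (κ / 8) ≤ (2 * T) ^ (1 : ℝ) :=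
            Real.rpow_le_rpow_of_exponent_le (by linarith) (by linarith)
        _ = 2 * T := Real.rpow_one _
    have e2 : ((E : ℝ) ^ 2) ^ (κ / 8) ≤ (X : ℝ) ^ (κ / 4) := by
      calc ((E : ℝ) ^ 2) ^ (κ / 8) ≤ ((X : ℝ) ^ 2) ^ (κ / 8) :=
            Real.rpow_le_rpow (by positivity) (pow_le_pow_left₀ hE0.le hEX 2) (by positivity)
        _ = (X : ℝ) ^ (κ / 4) := by
            rw [← Real.rpow_natCast, ← Real.rpow_mul hX0.le]
            congr 1
            push_cast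
            ring
    exact mul_le_mul e1 e2 (by positivity) (by linarith)
  have hK0le : K0 ≤ K1 * (X : ℝ) ^ (κ / 4) := by
    rw [hK0d, hK1d]
    calc C * Zeta (κ / 8) * y ^ (-(κ / 8)) ≤ C * Zeta (κ / 8) * ((2 * T) * (X : ℝ) ^ (κ / 4)) := by
          gcongr
      _ = _ := by ring
  have hyeta : ∀ t, y ≤ t → t ^ (-(κ / 8)) ≤ y ^ (-(κ / 8)) := by
    intro t ht
    rw [Real.rpow_neg (hy.le.trans ht), Real.rpow_neg hy.le]
    exact inv_anti₀ (by positivity) (Real.rpow_le_rpow hy.le ht (by positivity))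
  have hKt : ∀ t, y ≤ t → |Kk ρ t| ≤ K0 := by
    intro t ht
    refine (hK1 t (hy.trans_le ht)).2.trans ?_
    rw [hK0d]
    exact mul_le_mul_of_nonneg_left (hyeta t ht) (by positivity)
  have hKL : ∀ a b, y ≤ a → a ≤ b → |Kk ρ a - Kk ρ b| ≤ K0 * Real.log (b / a) := by
    intro a b ha' hab
    have ha0 : 0 < a := hy.trans_le ha'
    refine (hK2 a b ha0 hab).trans ?_
    rw [hK0d]
    have h7 : 0 ≤ Real.log (b / a) := Real.log_nonneg (by rwa [one_le_div ha0])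
    exact mul_le_mul_of_nonneg_right
      (mul_le_mul_of_nonneg_left (hyeta a ha') (by positivity)) h7
  -- the constant c₀
  have hc0le : |c₀| ≤ k1 * LX := by
    have e1 : Real.log y = -(Real.log (2 * T) + 2 * Real.log E) := by
      rw [hyval, Real.log_div one_ne_zero (by positivity), Real.log_one,
        Real.log_mul (by positivity) (by positivity), Real.log_pow]
      push_cast
      ring
    have hN0 : (0 : ℝ) < N := by exact_mod_cast hN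
    have hN1' : (1 : ℝ) ≤ N := by exact_mod_cast hN
    have e2 : 0 ≤ Real.log N := Real.log_nonneg hN1'
    have e3 : Real.log N ≤ 4 * LX := by
      have h7 : (N : ℝ) ≤ 8 * X := by exact_mod_cast hN2
      have h8 := Real.log_le_log hN0 h7
      rw [Real.log_mul (by norm_num) hX0.ne'] at h8
      have h9 : Real.log 8 ≤ 3 := by
        rw [show (8 : ℝ) = 2 ^ 3 by norm_num, Real.log_pow]
        have := Real.log_two_lt_d9
        push_cast
        linarith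
      linarith
    rw [hc₀]
    unfold cK
    refine (abs_add_le _ _).trans ?_
    rw [abs_mul]
    have e4 : |2 * Real.log y + Real.log N| ≤ (2 * Real.log (2 * T) + 8) * LX := by
      rw [e1]
      refine (abs_add_le _ _).trans ?_
      rw [abs_mul, abs_neg, abs_two, abs_of_nonneg (by positivity : 0 ≤ Real.log (2 * T) +
        2 * Real.log E), abs_of_nonneg e2]
      have e6 : Real.log (2 * T) ≤ Real.log (2 * T) * LX := le_mul_of_one_le_right hl2T hLX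
      clear_value LX
      linarith only [e6, hlE, e3]
    have e5 : |Cl ρ| ≤ |Cl ρ| * LX := le_mul_of_one_le_right (abs_nonneg _) hLX
    calc |Cr ρ| * |2 * Real.log y + Real.log N| + |Cl ρ| ≤
          |Cr ρ| * ((2 * Real.log (2 * T) + 8) * LX) + |Cl ρ| * LX := by gcongr
      _ = k1 * LX := by rw [hk1]; ring
  set BK : ℝ := 2 * Real.pi * K0 + Real.pi * (|c₀| + 2 * |Cr ρ| * Real.log E) with hBK
  have hBK0 : 0 ≤ BK := by positivity
  have hXk : (1 : ℝ) ≤ (X : ℝ) ^ (κ / 4) := Real.one_le_rpow hX1' (by positivity)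
  have hprod : ∀ c : ℝ, 0 ≤ c → c * LX ≤ c * ((X : ℝ) ^ (κ / 4) * LX) := by
    intro c hc
    refine mul_le_mul_of_nonneg_left ?_ hc
    nlinarith
  have hBKle : BK ≤ k2 * ((X : ℝ) ^ (κ / 4) * LX) := by
    have e1 : K1 * (X : ℝ) ^ (κ / 4) ≤ K1 * ((X : ℝ) ^ (κ / 4) * LX) := by
      refine mul_le_mul_of_nonneg_left ?_ hK10
      nlinarith
    have e2 := hprod k1 hk10
    have e3 := hprod |Cr ρ| (abs_nonneg _)
    have e4 : |Cr ρ| * Real.log E ≤ |Cr ρ| * LX := mul_le_mul_of_nonneg_left hlE (abs_nonneg _)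
    calc BK ≤ 2 * Real.pi * (K1 * ((X : ℝ) ^ (κ / 4) * LX)) +
          Real.pi * (k1 * ((X : ℝ) ^ (κ / 4) * LX) + 2 * (|Cr ρ| * ((X : ℝ) ^ (κ / 4) * LX))) := by
          rw [hBK]
          have : |c₀| + 2 * |Cr ρ| * Real.log E ≤
              k1 * ((X : ℝ) ^ (κ / 4) * LX) + 2 * (|Cr ρ| * ((X : ℝ) ^ (κ / 4) * LX)) := by
            linarith
          have h7 : K0 ≤ K1 * ((X : ℝ) ^ (κ / 4) * LX) := hK0le.trans e1
          gcongr
      _ = _ := by rw [hk2]; ring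
  have hHE0 := HE_nonneg E
  have hHE : HE E ^ 3 ≤ 8 * LX ^ 3 := by
    have h7 : HE E ≤ 2 * LX := by
      have := HE_log hE
      linarith
    calc HE E ^ 3 ≤ (2 * LX) ^ 3 := pow_le_pow_left₀ hHE0 h7 3
      _ = 8 * LX ^ 3 := by ring
  set B : ℝ := (A : ℝ) ^ 2 with hBd
  have hB0 : 0 ≤ B := by positivity
  have hB2 : B ^ 2 ≤ (X : ℝ) ^ (κ / 4) := by
    rw [hBd]
    calc ((A : ℝ) ^ 2) ^ 2 = (A : ℝ) ^ 4 := by ring
      _ ≤ ((X : ℝ) ^ ε₂) ^ 4 := pow_le_pow_left₀ (Nat.cast_nonneg _) hAX 4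
      _ = (X : ℝ) ^ (ε₂ * 4) := by
          rw [← Real.rpow_natCast, ← Real.rpow_mul hX0.le]
          norm_num
      _ ≤ (X : ℝ) ^ (κ / 4) := hmono (by linarith)
  have hX42 : (X : ℝ) ^ (κ / 4) * (X : ℝ) ^ (κ / 4) = (X : ℝ) ^ (κ / 2) := by
    rw [← Real.rpow_add hX0]; congr 1; ring
  have hX2k : (X : ℝ) ^ (κ / 2) * (X : ℝ) ^ (κ / 2) = (X : ℝ) ^ κ := by
    rw [← Real.rpow_add hX0]; congr 1; ring
  have hXk2 : 0 ≤ (X : ℝ) ^ (κ / 2) := by positivity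
  -- a product of the constants
  have hbig : ∀ c W : ℝ, 0 ≤ c → 0 ≤ W → W ≤ c * ((X : ℝ) ^ (κ / 4) * LX) →
      B ^ 2 * W * HE E ^ 3 ≤ 8 * c * LX ^ 4 * (X : ℝ) ^ (κ / 2) := by
    intro c W hc hW hWc
    calc B ^ 2 * W * HE E ^ 3 ≤ (X : ℝ) ^ (κ / 4) * (c * ((X : ℝ) ^ (κ / 4) * LX)) *
          (8 * LX ^ 3) := by gcongr
      _ = 8 * c * LX ^ 4 * ((X : ℝ) ^ (κ / 4) * (X : ℝ) ^ (κ / 4)) := by ring
      _ = _ := by rw [hX42]
  -- the two vectors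
  set V0 : ℕ → ℝ := VX E (y0 κ₁ X a) with hV0
  set V1 : ℕ → ℝ := VX E (y1 κ v X a) with hV1
  set F0 : ℝ → ℕ → ℝ := fun s d => FX z (MM κ₁ X) A a s d with hF0
  set F1 : ℝ → ℕ → ℝ := fun s d => FX z (MM (v - κ) X) A a s d with hF1
  have q0 : ∀ d, 1 ≤ d → |V0 d| ≤ B / d := fun d hd => VX_le ha aE hd ldM hbe0
  have q1 : ∀ d, 1 ≤ d → |V1 d| ≤ B / d := fun d hd => VX_le ha bE hd lcM hbe1
  have r0 : ∀ s, 0 ≤ s → ∀ d, 1 ≤ d → |F0 s d| ≤ B / d := fun s hs d hd => FX_le ha hd ldM hs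
  have r1 : ∀ s, 0 ≤ s → ∀ d, 1 ≤ d → |F1 s d| ≤ B / d := fun s hs d hd => FX_le ha hd lcM hs
  have l0 : ∀ s t, ∀ d, 1 ≤ d → |F0 s d - F0 t d| ≤ B / d * |s - t| := fun s t d hd =>
    FX_lip ha hd ldM s t
  have l1 : ∀ s t, ∀ d, 1 ≤ d → |F1 s d - F1 t d| ≤ B / d * |s - t| := fun s t d hd =>
    FX_lip ha hd lcM s t
  have hLX0 : 0 ≤ LX := by linarith
  refine ⟨fun s => Sx ρ y c₀ E V0 V1 F0 F1 (clp LX s), fun s t => ?_, fun θ hθ => ?_⟩
  · -- Lipschitz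
    have hcs := clp_mem hLX0 s
    have hct := clp_mem hLX0 t
    have h7 := Sx_lip (c₀ := c₀) hE hy hKt hK00 hK00 hKL hB0 q0 q1 r0 l0 l1 hcs.1 hcs.2 hct.1
    refine h7.trans ?_
    have hW : 2 * BK + 2 * (2 * Real.pi * K0) + 2 * Real.pi * |Cr ρ| * (LX + 1) ≤
        (2 * k2 + 2 * (2 * Real.pi * K1) + 4 * Real.pi * |Cr ρ|) * ((X : ℝ) ^ (κ / 4) * LX) := by
      have e1 : K1 * (X : ℝ) ^ (κ / 4) ≤ K1 * ((X : ℝ) ^ (κ / 4) * LX) := by
        refine mul_le_mul_of_nonneg_left ?_ hK10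
        nlinarith
      have e2 : K0 ≤ K1 * ((X : ℝ) ^ (κ / 4) * LX) := hK0le.trans e1
      have e3 : LX + 1 ≤ 2 * ((X : ℝ) ^ (κ / 4) * LX) := by nlinarith
      have e4 : 2 * Real.pi * |Cr ρ| * (LX + 1) ≤
          2 * Real.pi * |Cr ρ| * (2 * ((X : ℝ) ^ (κ / 4) * LX)) :=
        mul_le_mul_of_nonneg_left e3 (by positivity)
      have e5 : 2 * (2 * Real.pi * K0) ≤ 2 * (2 * Real.pi * (K1 * ((X : ℝ) ^ (κ / 4) * LX))) := by
        gcongr
      linarith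
    have h8 := hbig _ _ (by positivity) (by positivity) hW
    have h9 : 8 * (2 * k2 + 2 * (2 * Real.pi * K1) + 4 * Real.pi * |Cr ρ|) * LX ^ 4 ≤
        k3 * LX ^ 4 := by
      refine mul_le_mul_of_nonneg_right ?_ (by positivity)
      rw [hk3]
      have : 0 ≤ 320 * (k2 + 2 * Real.pi * |Cr ρ|) := by positivity
      linarith
    have h10 : B ^ 2 * (2 * BK + 2 * (2 * Real.pi * K0) + 2 * Real.pi * |Cr ρ| * (LX + 1)) *
        HE E ^ 3 ≤ (X : ℝ) ^ (10 * κ) := by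
      calc _ ≤ 8 * (2 * k2 + 2 * (2 * Real.pi * K1) + 4 * Real.pi * |Cr ρ|) * LX ^ 4 *
            (X : ℝ) ^ (κ / 2) := h8
        _ ≤ (X : ℝ) ^ (κ / 2) * (X : ℝ) ^ (κ / 2) :=
            mul_le_mul_of_nonneg_right (h9.trans g4) hXk2
        _ = (X : ℝ) ^ κ := hX2k
        _ ≤ (X : ℝ) ^ (10 * κ) := hmono (by linarith)
    exact mul_le_mul h10 (clp_lip LX s t) (abs_nonneg _) (by positivity)
  · -- the comparison
    rw [shB_YT hρ hE _ _ (fun p hp => (hPB p hp).1) (fun p hp => (hPB p hp).2.2.2.2.2.2) θ hN,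
      ← Finset.sum_sub_distrib]
    have hterm : ∀ p ∈ PB κ v X, |θ p / p * (∑ d ∈ Finset.Icc 1 E, ∑ e ∈ Finset.Icc 1 E,
        V0 d * (V1 (e / Nat.gcd e p) + p * V1 (p * e)) *
          beK ρ y c₀ 1 (Nat.gcd d e) (Nat.lcm d e)) -
        θ p / p * Sx ρ y c₀ E V0 V1 F0 F1 (clp LX (Real.log p))| ≤
        (X : ℝ) ^ κ * (4 * (X : ℝ) ^ (-(2 * v))) := by
      intro p hp
      obtain ⟨pp, pz, pM1, pM0, plog, pv, psupp⟩ := hPB p hp
      have hpr : (0 : ℝ) < p := by exact_mod_cast pp.pos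
      have hp1 : (1 : ℝ) ≤ p := by exact_mod_cast pp.pos
      have hlp : 0 ≤ Real.log p := Real.log_nonneg hp1
      have hcmp := cross_abs (c₀ := c₀) (V0 := V0) (V1 := V1) (F0 := F0 (Real.log p))
        (F1 := F1 (Real.log p)) hE pp hy hKt hK00 hB0 q0 q1 (r0 _ hlp) (r1 _ hlp)
        (fun d hd => (VX_p ha aE hd dM pp pz pM0).1)
        (fun d hd => by
          rcases Nat.eq_zero_or_pos d with h7 | h7
          · subst h7
            rw [hV0, mul_zero]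
            unfold VX
            apply Finset.sum_eq_zero
            intro e he
            rw [Finset.mem_filter, Finset.mem_Icc] at he
            have := Nat.eq_zero_of_zero_dvd he.2
            omega
          · exact (VX_p ha aE h7 dM pp pz pM0).2 hd)
        (fun d hd => (VX_p ha bE hd cM pp pz pM1).1)
        (fun d hd => by
          rcases Nat.eq_zero_or_pos d with h7 | h7
          · subst h7
            rw [hV1, mul_zero]
            unfold VX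
            apply Finset.sum_eq_zero
            intro e he
            rw [Finset.mem_filter, Finset.mem_Icc] at he
            have := Nat.eq_zero_of_zero_dvd he.2
            omega
          · exact (VX_p ha bE h7 cM pp pz pM1).2 hd)
        (fun d hd => VX_supp (fun e he => ((hk_xX_supp ha he).2).trans aE) hd)
        (fun d hd => by
          by_contra h7
          rw [hV1] at h7
          unfold VX at h7
          obtain ⟨e, he, h8⟩ := Finset.exists_ne_zero_of_sum_ne_zero h7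
          rw [Finset.mem_filter, Finset.mem_Icc] at he
          apply h8
          rw [psupp e (hd.trans_le (Nat.mul_le_mul_left p (Nat.le_of_dvd (by omega) he.2)))]
          simp)
      have hS : Sx ρ y c₀ E V0 V1 F0 F1 (clp LX (Real.log p)) =
          ∑ d ∈ Finset.Icc 1 E, ∑ e ∈ Finset.Icc 1 E,
        (V0 d * F1 (Real.log p) e * beK ρ y c₀ 1 (Nat.gcd d e) (Nat.lcm d e) +
        V0 d * V1 e * beK ρ y c₀ 1 (Nat.gcd d e) (Nat.lcm d e) +
        V0 d * V1 e * beK ρ y c₀ p (Nat.gcd d e) (Nat.lcm d e) +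
        F0 (Real.log p) d * V1 e * (beK ρ y c₀ p (Nat.gcd d e) (Nat.lcm d e) +
          2 * Real.pi * Cr ρ * (Nat.gcd d e * Real.log p))) := by
        rw [clp_id hlp plog]
        unfold Sx
        rw [Real.exp_log hpr]
      rw [hS, ← mul_sub, abs_mul]
      have e1 : |θ p / p| ≤ 1 / p := by
        rw [abs_div, abs_of_pos hpr]
        have := hθ p hp
        gcongr
      have hW : BK + 2 * Real.pi * |Cr ρ| * Real.log p ≤
          (k2 + 2 * Real.pi * |Cr ρ|) * ((X : ℝ) ^ (κ / 4) * LX) := by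
        have e3 : Real.log p ≤ (X : ℝ) ^ (κ / 4) * LX := by nlinarith
        have e4 : 2 * Real.pi * |Cr ρ| * Real.log p ≤
            2 * Real.pi * |Cr ρ| * ((X : ℝ) ^ (κ / 4) * LX) :=
          mul_le_mul_of_nonneg_left e3 (by positivity)
        linarith
      have h8 := hbig _ _ (by positivity) (by positivity) hW
      have h9 : 320 * (k2 + 2 * Real.pi * |Cr ρ|) * LX ^ 4 ≤ k3 * LX ^ 4 := by
        refine mul_le_mul_of_nonneg_right ?_ (by positivity)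
        rw [hk3]
        have : 0 ≤ 8 * (2 * k2 + 2 * (2 * Real.pi * K1) + 4 * Real.pi * |Cr ρ|) := by positivity
        linarith
      have h10 : 40 / p * (B ^ 2 * (BK + 2 * Real.pi * |Cr ρ| * Real.log p)) * HE E ^ 3 ≤
          1 / p * (X : ℝ) ^ κ := by
        calc 40 / p * (B ^ 2 * (BK + 2 * Real.pi * |Cr ρ| * Real.log p)) * HE E ^ 3 =
              1 / p * (40 * (B ^ 2 * (BK + 2 * Real.pi * |Cr ρ| * Real.log p) * HE E ^ 3)) := by
              ring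
          _ ≤ 1 / p * (40 * (8 * (k2 + 2 * Real.pi * |Cr ρ|) * LX ^ 4 * (X : ℝ) ^ (κ / 2))) := by
              gcongr
          _ = 1 / p * (320 * (k2 + 2 * Real.pi * |Cr ρ|) * LX ^ 4 * (X : ℝ) ^ (κ / 2)) := by ring
          _ ≤ 1 / p * ((X : ℝ) ^ (κ / 2) * (X : ℝ) ^ (κ / 2)) := by
              refine mul_le_mul_of_nonneg_left ?_ (by positivity)
              exact mul_le_mul_of_nonneg_right (h9.trans g4) hXk2
          _ = 1 / p * (X : ℝ) ^ κ := by rw [hX2k]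
      have e2 : 1 / (p : ℝ) ≤ 2 * (X : ℝ) ^ (-v) := by
        rw [Real.rpow_neg hX0.le, div_le_iff₀ hpr]
        have hXv : 0 < (X : ℝ) ^ v := by positivity
        calc (1 : ℝ) = 2 * ((X : ℝ) ^ v)⁻¹ * ((X : ℝ) ^ v / 2) := by field_simp
          _ ≤ 2 * ((X : ℝ) ^ v)⁻¹ * p := by gcongr
      have hXv2 : (X : ℝ) ^ (-v) * (X : ℝ) ^ (-v) = (X : ℝ) ^ (-(2 * v)) := by
        rw [← Real.rpow_add hX0]; congr 1; ring
      calc _ ≤ 1 / (p : ℝ) * (1 / p * (X : ℝ) ^ κ) :=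
            mul_le_mul e1 (hcmp.trans h10) (abs_nonneg _) (by positivity)
        _ ≤ (2 * (X : ℝ) ^ (-v)) * ((2 * (X : ℝ) ^ (-v)) * (X : ℝ) ^ κ) := by gcongr
        _ = (X : ℝ) ^ κ * (4 * ((X : ℝ) ^ (-v) * (X : ℝ) ^ (-v))) := by ring
        _ = _ := by rw [hXv2]
    refine (Finset.abs_sum_le_sum_abs _ _).trans ((Finset.sum_le_sum hterm).trans ?_)
    rw [Finset.sum_const, nsmul_eq_mul]
    have hcard : ((PB κ v X).card : ℝ) ≤ 2 * (X : ℝ) ^ (v + κ) := by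
      have h7 : (PB κ v X).card ≤ ⌊2 * (X : ℝ) ^ (v + κ)⌋₊ := by
        unfold PB
        refine (Finset.card_filter_le _ _).trans (le_of_eq ?_)
        rw [Nat.card_Icc]
        omega
      calc ((PB κ v X).card : ℝ) ≤ (⌊2 * (X : ℝ) ^ (v + κ)⌋₊ : ℝ) := by exact_mod_cast h7
        _ ≤ _ := Nat.floor_le (by positivity)
    calc ((PB κ v X).card : ℝ) * ((X : ℝ) ^ κ * (4 * (X : ℝ) ^ (-(2 * v)))) ≤
          (2 * (X : ℝ) ^ (v + κ)) * ((X : ℝ) ^ κ * (4 * (X : ℝ) ^ (-(2 * v)))) := by gcongr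
      _ = 8 * ((X : ℝ) ^ (v + κ) * (X : ℝ) ^ κ * (X : ℝ) ^ (-(2 * v))) := by ring
      _ ≤ (X : ℝ) ^ κ * ((X : ℝ) ^ (v + κ) * (X : ℝ) ^ κ * (X : ℝ) ^ (-(2 * v))) := by gcongr
      _ = (X : ℝ) ^ (3 * κ - v) := by
          rw [← Real.rpow_add hX0, ← Real.rpow_add hX0, ← Real.rpow_add hX0]
          congr 1
          ring
      _ ≤ (X : ℝ) ^ (-(20 * κ)) := hmono (by linarith)

end Pool.Agent.LSP
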